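import Pool.Agent.LibCSA98.Main
import Pool.Agent.LibCSF44.RankOne
set_option autoImplicit false
namespace Pool.Agent.LibCSA98
open scoped Matrix.Norms.L2Operator
open Pool.Agent.LibCS15 (CStarStable ElementaryAmenable)
open Pool.Agent.LibCS44 (IsAddHom)

/-- `b₁ ≤ 1` for the finite index subgroups of a `C*`-stable group with virtually abelian finite-dimensional unitary images -/
theorem betti_of_va {G : Type} [Group G] [Countable G] (hG : CStarStable G) (hVA : VA G) :
    Betti1 G := by
  intro P hP b₁ b₂ hb₁ hb₂ x y
  haveI := hP
  exact Pool.Agent.LibCSF44.rank_one_fd hG P ⊤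
    (fun d σ a b _ _ ha hb => near_commute_of_va hVA (Fin d) σ a b ha hb) b₁ b₂ hb₁ hb₂ x y
    trivial trivial

/-- amenable MF `C*`-stable groups with virtually abelian finite-dimensional unitary images are virtually cyclic -/
theorem main_va {G : Type} [Group G] [Countable G] (hG : CStarStable G) (hMF : MF G)
    (hF : Folner G) (hVA : VA G) : ∃ z : G, (Subgroup.zpowers z).FiniteIndex :=
  main_aux hG hMF (reiter_of_folner hF) hVA (betti_of_va hG hVA)

/-- the same with elementary amenable images -/
theorem main_images {G : Type} [Group G] [Countable G] (hG : CStarStable G) (hMF : MF G)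
    (hF : Folner G) (him : ∀ (n : ℕ) (π : G →* unitary (Matrix (Fin n) (Fin n) ℂ)),
      ElementaryAmenable π.range) : ∃ z : G, (Subgroup.zpowers z).FiniteIndex :=
  main_va hG hMF hF (va_of_images him)

end Pool.Agent.LibCSA98
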