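import Pool.Agent.LibCSA98.Defs
import Pool.Agent.LibCS44.Grp
import Pool.Agent.LibCS15.MainB
import Pool.Agent.LibCS15.NearEA
import Pool.Agent.LibCS15.DependentB
set_option autoImplicit false
namespace Pool.Agent.LibCSA98
open Pool.Agent.LibCS44 (Flat IsAddHom)
open Pool.Agent.LibCS15 (CStarStable ElementaryAmenable)

/-- `b₁ P ≤ 1` for all finite index subgroups `P` -/
def Betti1 (G : Type) [Group G] : Prop :=
  ∀ P : Subgroup G, P.FiniteIndex → ∀ b₁ b₂ : P → ℝ, IsAddHom b₁ → IsAddHom b₂ →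
    ∀ x y, b₁ x * b₂ y = b₁ y * b₂ x

/-- If all the homomorphisms `P → ℝ`, `P` of finite index, vanish, take `H = N = ⊤`.  Otherwise as in the proof of `Pool.Agent.LibCS44.virt_cyclic` (LibCS44/Main, with `S = ⊤`): `H` the
normal core of `P`, `N` from `exists_kernel`, `Flat N` from `flat_kernel` (LibCS44/GrpE); the commutators of the elements of `H` are in the kernel. -/
theorem exists_flat {G : Type} [Group G] (hd : Betti1 G) :
    ∃ H N : Subgroup G, H.Normal ∧ H.FiniteIndex ∧ N.Normal ∧ N ≤ H ∧ Flat N ∧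
      ∀ x ∈ H, ∀ y ∈ H, x * y * x⁻¹ * y⁻¹ ∈ N := by
  classical
  by_cases hα : ∀ (P : Subgroup G), P.FiniteIndex → ∀ b : P → ℝ, IsAddHom b → ∀ a, b a = 0
  · exact ⟨⊤, ⊤, inferInstance, inferInstance, inferInstance, le_rfl,
      fun P hP b hb a _ => hα P hP b hb a, fun _ _ _ _ => trivial⟩
  · push Not at hα
    obtain ⟨P, hP, b₀, hb₀, a₀, ha₀⟩ := hα
    let H : Subgroup G := P.normalCore
    have hHn : H.Normal := inferInstance
    have hHf : H.FiniteIndex := inferInstance
    have hHP : H ≤ P := Subgroup.normalCore_le _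
    let b : H → ℝ := fun h => b₀ ⟨h, hHP h.2⟩
    have hb : IsAddHom b := fun x y => hb₀ ⟨x, hHP x.2⟩ ⟨y, hHP y.2⟩
    have hbn : ∃ h, b h ≠ 0 := by
      have hpow : ∀ k : ℕ, b₀ (a₀ ^ k) = k * b₀ a₀ := by
        intro k
        induction k with
        | zero =>
          have := hb₀ 1 1
          simp at this
          simp [this]
        | succ k ih => rw [pow_succ, hb₀, ih]; push_cast; ring
      obtain ⟨k, hk, -, hk'⟩ := Subgroup.exists_pow_mem_of_index_ne_zero
        (H := H) Subgroup.FiniteIndex.index_ne_zero (a₀ : G)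
      refine ⟨⟨(a₀ : G) ^ k, hk'⟩, ?_⟩
      show b₀ (a₀ ^ k) ≠ 0
      rw [hpow]
      exact mul_ne_zero (Nat.cast_ne_zero.2 hk.ne') ha₀
    obtain ⟨N, hNn, hNH, hN⟩ := Pool.Agent.LibCS44.exists_kernel H b hb hbn (hd H hHf)
    have hflat : Flat N := Pool.Agent.LibCS44.flat_kernel ⊤ H le_top b hb hbn
      (fun H' hf _ => hd H' hf) N hNH hN
    refine ⟨H, N, hHn, hHf, hNn, hNH, hflat, ?_⟩
    intro x hx y hy
    have h1 : b (⟨x, hx⟩ * ⟨y, hy⟩ * ⟨x, hx⟩⁻¹ * ⟨y, hy⟩⁻¹) = 0 := by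
      have h0 : b 1 = 0 := by
        have := hb 1 1
        rw [mul_one] at this
        linarith
      have hinv : ∀ z, b z⁻¹ = - b z := by
        intro z
        have := hb z z⁻¹
        rw [mul_inv_cancel, h0] at this
        linarith
      rw [hb, hb, hb, hinv, hinv]
      ring
    exact (hN _).2 h1

private theorem Betti_pow {H : Type} [Group H] {b : H → ℝ} (hb : IsAddHom b)
    (g : H) (n : ℕ) : b (g ^ n) = n * b g := by
  induction n with
  | zero =>
    have h := hb 1 1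
    rw [mul_one] at h
    rw [pow_zero, Nat.cast_zero, zero_mul]
    linarith
  | succ n ih => rw [pow_succ, hb, ih]; push_cast; ring

/-- finite index subgroups of `C*`-stable elementary amenable groups have `b₁ ≤ 1`: as the proof of `Pool.Agent.LibCS15.dependentB`, with `ea_near_commute` applied to `G` itself -/
theorem betti_ea {G : Type} [Group G] [Countable G] (hG : CStarStable G)
    (hE : ElementaryAmenable G) : Betti1 G := by
  intro P hP b₁ b₂ hb₁ hb₂ x y
  by_contra hne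
  have hd : b₁ x * b₂ y - b₁ y * b₂ x ≠ 0 := sub_ne_zero.2 hne
  obtain ⟨p, hp, -, hpc⟩ := Subgroup.exists_pow_mem_of_index_ne_zero
    (H := P.normalCore) Subgroup.FiniteIndex.index_ne_zero (x : G)
  obtain ⟨q, hq, -, hqc⟩ := Subgroup.exists_pow_mem_of_index_ne_zero
    (H := P.normalCore) Subgroup.FiniteIndex.index_ne_zero (y : G)
  have hp' : (p : ℝ) ≠ 0 := by exact_mod_cast hp.ne'
  have hq' : (q : ℝ) ≠ 0 := by exact_mod_cast hq.ne'
  let inc : P.normalCore →* P := Subgroup.inclusion (Subgroup.normalCore_le P)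
  let x' : P.normalCore := ⟨(x : G) ^ p, hpc⟩
  let y' : P.normalCore := ⟨(y : G) ^ q, hqc⟩
  have hix : inc x' = x ^ p := Subtype.ext rfl
  have hiy : inc y' = y ^ q := Subtype.ext rfl
  refine Pool.Agent.LibCS15.main_contraB hG P.normalCore x' y' ?_
    (fun h => (b₂ (y ^ q) * b₁ (inc h) - b₁ (y ^ q) * b₂ (inc h)) /
      (p * q * (b₁ x * b₂ y - b₁ y * b₂ x)))
    (fun h => (b₁ (x ^ p) * b₂ (inc h) - b₂ (x ^ p) * b₁ (inc h)) /
      (p * q * (b₁ x * b₂ y - b₁ y * b₂ x))) ?_ ?_ ?_ ?_ ?_ ?_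
  · intro π h1 h2
    exact Pool.Agent.LibCS15.ea_near_commute hE π ((x : G) ^ p) ((y : G) ^ q) h1 h2
  · intro g h
    simp only [map_mul, hb₁ _ _, hb₂ _ _]
    ring
  · intro g h
    simp only [map_mul, hb₁ _ _, hb₂ _ _]
    ring
  · simp only [hix, Betti_pow hb₁, Betti_pow hb₂]
    rw [div_eq_one_iff_eq (mul_ne_zero (mul_ne_zero hp' hq') hd)]
    ring
  · simp only [hix, Betti_pow hb₁, Betti_pow hb₂]
    rw [div_eq_zero_iff]
    left
    ring
  · simp only [hiy, Betti_pow hb₁, Betti_pow hb₂]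
    rw [div_eq_zero_iff]
    left
    ring
  · simp only [hiy, Betti_pow hb₁, Betti_pow hb₂]
    rw [div_eq_one_iff_eq (mul_ne_zero (mul_ne_zero hp' hq') hd)]
    ring

end Pool.Agent.LibCSA98
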