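import Pool.Agent.LibCSA98.Defs
set_option autoImplicit false
namespace Pool.Agent.LibCSA98
open scoped Matrix

/-- diagonal coefficients (for unit vectors) of finite-dimensional unitary representations -/
def IsCoeff {G : Type} [Group G] (f : G → ℂ) : Prop :=
  ∃ (n : Type) (_ : Fintype n) (_ : DecidableEq n) (π : G →* unitary (Matrix n n ℂ)) (v : n → ℂ),
    star v ⬝ᵥ v = 1 ∧ ∀ g, f g = star v ⬝ᵥ (π g : Matrix n n ℂ).mulVec v

private theorem Coeff_dot_mul {n m : Type} [Fintype n] [Fintype m] (a c : n → ℂ) (b d : m → ℂ) :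
    (fun p : n × m => a p.1 * b p.2) ⬝ᵥ (fun p : n × m => c p.1 * d p.2) =
      (a ⬝ᵥ c) * (b ⬝ᵥ d) := by
  simp only [dotProduct]
  rw [Fintype.sum_prod_type, Finset.sum_mul_sum]
  refine Finset.sum_congr rfl fun i _ => Finset.sum_congr rfl fun j _ => ?_
  ring

private theorem Coeff_kron_mulVec {n m : Type} [Fintype n] [Fintype m] (A : Matrix n n ℂ)
    (B : Matrix m m ℂ) (c : n → ℂ) (d : m → ℂ) :
    (Matrix.kroneckerMap (fun x y => x * y) A B).mulVec (fun p : n × m => c p.1 * d p.2) =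
      fun p : n × m => A.mulVec c p.1 * B.mulVec d p.2 := by
  funext p
  exact Coeff_dot_mul (A p.1) c (B p.2) d

/-- products: Kronecker products (`Matrix.kronecker_mem_unitary`), vector `p ↦ v p.1 * w p.2` -/
theorem isCoeff_mul {G : Type} [Group G] {f f' : G → ℂ} (hf : IsCoeff f) (hf' : IsCoeff f') :
    IsCoeff (fun g => f g * f' g) := by
  obtain ⟨n, _, _, π, v, hv, hfv⟩ := hf
  obtain ⟨m, _, _, π', v', hv', hfv'⟩ := hf'
  refine ⟨n × m, inferInstance, inferInstance,
    { toFun := fun g => ⟨Matrix.kroneckerMap (fun x y => x * y) (π g : Matrix n n ℂ)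
        (π' g : Matrix m m ℂ), Matrix.kronecker_mem_unitary (π g).2 (π' g).2⟩
      map_one' := ?_
      map_mul' := ?_ }, fun p => v p.1 * v' p.2, ?_, ?_⟩
  · apply Subtype.ext
    change Matrix.kroneckerMap (fun x y => x * y) ((π 1 : unitary (Matrix n n ℂ)) : Matrix n n ℂ)
      ((π' 1 : unitary (Matrix m m ℂ)) : Matrix m m ℂ) = 1
    rw [map_one, map_one]
    exact Matrix.one_kronecker_one
  · intro g h
    apply Subtype.ext
    change Matrix.kroneckerMap (fun x y => x * y)
      ((π (g * h) : unitary (Matrix n n ℂ)) : Matrix n n ℂ)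
      ((π' (g * h) : unitary (Matrix m m ℂ)) : Matrix m m ℂ) =
      Matrix.kroneckerMap (fun x y => x * y) (π g : Matrix n n ℂ) (π' g : Matrix m m ℂ) *
      Matrix.kroneckerMap (fun x y => x * y) (π h : Matrix n n ℂ) (π' h : Matrix m m ℂ)
    rw [map_mul, map_mul]
    exact Matrix.mul_kronecker_mul _ _ _ _
  · have h1 : star (fun p : n × m => v p.1 * v' p.2) =
        fun p : n × m => (star v) p.1 * (star v') p.2 := by
      funext p
      simp
    rw [h1, Coeff_dot_mul, hv, hv', mul_one]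
  · intro g
    have h1 : star (fun p : n × m => v p.1 * v' p.2) =
        fun p : n × m => (star v) p.1 * (star v') p.2 := by
      funext p
      simp
    change f g * f' g = _
    rw [hfv, hfv', h1, ← Coeff_dot_mul, ← Coeff_kron_mulVec]
    rfl

/-- the constant function `1`: trivial representation on `ℂ` -/
theorem isCoeff_one {G : Type} [Group G] : IsCoeff (fun _ : G => (1 : ℂ)) := by
  refine ⟨Unit, inferInstance, inferInstance, 1, fun _ => 1, ?_, ?_⟩
  · simp [dotProduct]
  · intro g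
    simp [dotProduct]

/-- averages with `1`: the direct sum with the trivial representation (`Matrix.fromBlocks 1 0 0 (π g)` on `Unit ⊕ n`), vector `(1 / √2, v / √2)` -/
theorem isCoeff_avg {G : Type} [Group G] {f : G → ℂ} (hf : IsCoeff f) :
    IsCoeff (fun g => (1 + f g) / 2) := by
  obtain ⟨n, _, _, π, v, hv, hfv⟩ := hf
  have hmem : ∀ U : unitary (Matrix n n ℂ),
      Matrix.fromBlocks (1 : Matrix Unit Unit ℂ) 0 0 (U : Matrix n n ℂ) ∈
        unitary (Matrix (Unit ⊕ n) (Unit ⊕ n) ℂ) := by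
    intro U
    have h1 := Unitary.coe_star_mul_self U
    have h2 : (U : Matrix n n ℂ) * star (U : Matrix n n ℂ) = 1 := Unitary.coe_mul_star_self U
    rw [Matrix.star_eq_conjTranspose] at h1 h2
    rw [Unitary.mem_iff, Matrix.star_eq_conjTranspose, Matrix.fromBlocks_conjTranspose,
      Matrix.fromBlocks_multiply, Matrix.fromBlocks_multiply]
    constructor
    · simp [h1]
    · simp [h2]
  have hs : ((Real.sqrt 2 : ℝ) : ℂ) * ((Real.sqrt 2 : ℝ) : ℂ) = 2 := by
    rw [← Complex.ofReal_mul, Real.mul_self_sqrt (by norm_num)]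
    norm_num
  have hs0 : ((Real.sqrt 2 : ℝ) : ℂ) ≠ 0 := by
    intro h
    rw [h] at hs
    norm_num at hs
  set c : ℂ := ((Real.sqrt 2 : ℝ) : ℂ)⁻¹ with hc
  have hcc : c * c = 1 / 2 := by
    rw [hc, ← mul_inv, hs]
    norm_num
  have hstar : star c = c := by
    rw [hc, star_inv₀]
    congr 1
    exact Complex.conj_ofReal _
  have hsv : star (Sum.elim (fun _ : Unit => c) (fun i => c * v i)) =
      Sum.elim (fun _ : Unit => c) (fun i => c * star v i) := by
    funext i
    rcases i with i | i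
    · simp [hstar]
    · simp [hstar, mul_comm]
  refine ⟨Unit ⊕ n, inferInstance, inferInstance,
    { toFun := fun g => ⟨Matrix.fromBlocks (1 : Matrix Unit Unit ℂ) 0 0 (π g : Matrix n n ℂ),
        hmem (π g)⟩
      map_one' := ?_
      map_mul' := ?_ }, Sum.elim (fun _ : Unit => c) (fun i => c * v i), ?_, ?_⟩
  · apply Subtype.ext
    change Matrix.fromBlocks (1 : Matrix Unit Unit ℂ) 0 0
      ((π 1 : unitary (Matrix n n ℂ)) : Matrix n n ℂ) = 1
    rw [map_one]
    exact Matrix.fromBlocks_one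
  · intro g h
    apply Subtype.ext
    change Matrix.fromBlocks (1 : Matrix Unit Unit ℂ) 0 0
        ((π (g * h) : unitary (Matrix n n ℂ)) : Matrix n n ℂ) =
      Matrix.fromBlocks (1 : Matrix Unit Unit ℂ) 0 0 (π g : Matrix n n ℂ) *
      Matrix.fromBlocks (1 : Matrix Unit Unit ℂ) 0 0 (π h : Matrix n n ℂ)
    rw [map_mul, Matrix.fromBlocks_multiply]
    simp
  · rw [hsv, sumElim_dotProduct_sumElim]
    have h1 : (fun i => c * star v i) ⬝ᵥ (fun i => c * v i) = (c * c) * (star v ⬝ᵥ v) := by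
      simp only [dotProduct]
      rw [Finset.mul_sum]
      refine Finset.sum_congr rfl fun i _ => ?_
      ring
    have h2 : (fun _ : Unit => c) ⬝ᵥ (fun _ : Unit => c) = c * c := by
      simp [dotProduct]
    rw [h1, h2, hv, hcc]
    norm_num
  · intro g
    rw [hsv]
    change (1 + f g) / 2 = Sum.elim (fun _ : Unit => c) (fun i => c * star v i) ⬝ᵥ
      (Matrix.fromBlocks (1 : Matrix Unit Unit ℂ) 0 0 (π g : Matrix n n ℂ)).mulVec
        (Sum.elim (fun _ : Unit => c) (fun i => c * v i))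
    rw [Matrix.fromBlocks_mulVec, sumElim_dotProduct_sumElim]
    have h0 : (fun i => c * v i) = c • v := rfl
    have h0' : (fun i => c * star v i) = c • star v := rfl
    have h1 : (c • star v) ⬝ᵥ ((π g : Matrix n n ℂ).mulVec (c • v)) =
        (c * c) * (star v ⬝ᵥ (π g : Matrix n n ℂ).mulVec v) := by
      rw [Matrix.mulVec_smul, smul_dotProduct, dotProduct_smul, smul_eq_mul, smul_eq_mul, mul_assoc]
    have h2 : (fun _ : Unit => c) ⬝ᵥ ((1 : Matrix Unit Unit ℂ).mulVec (fun _ : Unit => c)) =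
        c * c := by
      simp [dotProduct]
    simp only [Matrix.zero_mulVec, add_zero, zero_add, Sum.elim_comp_inl, Sum.elim_comp_inr]
    rw [h0, h0', h1, h2, ← hfv, hcc]
    ring

/-- finite products and powers -/
theorem isCoeff_prod_pow {G : Type} [Group G] {ι : Type} (s : Finset ι) (f : ι → G → ℂ)
    (hf : ∀ i ∈ s, IsCoeff (f i)) (k : ℕ) : IsCoeff (fun g => ∏ i ∈ s, (f i g) ^ k) := by
  classical
  have hpow : ∀ (h : G → ℂ), IsCoeff h → ∀ k : ℕ, IsCoeff (fun g => (h g) ^ k) := by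
    intro h hh k
    induction k with
    | zero => simpa using isCoeff_one
    | succ k ih =>
      have := isCoeff_mul ih hh
      simpa only [pow_succ] using this
  induction s using Finset.induction_on with
  | empty => simpa using isCoeff_one
  | insert a s ha ih =>
    have h1 := isCoeff_mul (hpow (f a) (hf a (Finset.mem_insert_self a s)) k)
      (ih fun i hi => hf i (Finset.mem_insert_of_mem hi))
    have h2 : (fun g => ∏ i ∈ insert a s, (f i g) ^ k) =
        fun g => f a g ^ k * ∏ i ∈ s, (f i g) ^ k := by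
      funext g
      rw [Finset.prod_insert ha]
    rw [h2]
    exact h1

/-- Cauchy-Schwarz -/
theorem norm_isCoeff_le {G : Type} [Group G] {f : G → ℂ} (hf : IsCoeff f) (g : G) : ‖f g‖ ≤ 1 := by
  obtain ⟨n, _, _, π, v, hv, hfv⟩ := hf
  have hnorm : ∀ x : n → ℂ, star x ⬝ᵥ x = 1 → ‖(WithLp.toLp 2 x : EuclideanSpace ℂ n)‖ = 1 := by
    intro x hx
    have h1 : inner ℂ (WithLp.toLp 2 x : EuclideanSpace ℂ n) (WithLp.toLp 2 x) = (1 : ℂ) := by
      rw [EuclideanSpace.inner_toLp_toLp, dotProduct_comm, hx]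
    have h2 := inner_self_eq_norm_sq_to_K (𝕜 := ℂ) (WithLp.toLp 2 x : EuclideanSpace ℂ n)
    rw [h1] at h2
    have h3 : (‖(WithLp.toLp 2 x : EuclideanSpace ℂ n)‖ : ℝ) ^ 2 = 1 := by
      apply Complex.ofReal_injective
      push_cast
      exact h2.symm
    nlinarith [norm_nonneg (WithLp.toLp 2 x : EuclideanSpace ℂ n)]
  have hU : star ((π g : Matrix n n ℂ).mulVec v) ⬝ᵥ ((π g : Matrix n n ℂ).mulVec v) = 1 := by
    have h1 := Unitary.coe_star_mul_self (π g)
    rw [Matrix.star_eq_conjTranspose] at h1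
    rw [Matrix.star_mulVec, ← Matrix.dotProduct_mulVec, Matrix.mulVec_mulVec, h1, Matrix.one_mulVec, hv]
  have h1 := norm_inner_le_norm (𝕜 := ℂ) (WithLp.toLp 2 v : EuclideanSpace ℂ n)
    (WithLp.toLp 2 ((π g : Matrix n n ℂ).mulVec v))
  rw [hnorm v hv, hnorm _ hU, EuclideanSpace.inner_toLp_toLp, dotProduct_comm, ← hfv, mul_one] at h1
  exact h1

end Pool.Agent.LibCSA98
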