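import Pool.Agent.LibCSA98.Conv
set_option autoImplicit false
namespace Pool.Agent.LibCSA98

/-- Norms of combinations of the translates of a vector `v` with small coefficients: expand the square; the diagonal terms give `l2 b`, the off-diagonal terms are
`b x * b y * inner (ρ x v) (ρ y v) = b x * b y * inner v (ρ (x⁻¹ * y) v)` -/
theorem comb_norm {G V : Type} [Group G] [NormedAddCommGroup V] [InnerProductSpace ℂ V]
    (ρ : G →* (V →ₗ[ℂ] V)) (hρ : IsUnRep ρ) (v : V) (hv : ‖v‖ = 1) (b : G →₀ ℝ) (η : ℝ)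
    (hη : 0 ≤ η)
    (h : ∀ x ∈ b.support, ∀ y ∈ b.support, x ≠ y → ‖inner ℂ v (ρ (x⁻¹ * y) v)‖ ≤ η) :
    |‖b.sum fun x t => (t : ℂ) • ρ x v‖ ^ 2 - l2 b| ≤ η * l1 b ^ 2 := by
  classical
  set w : V := b.sum fun x t => (t : ℂ) • ρ x v with hw
  have hc : ∀ x y : G, inner ℂ (ρ x v) (ρ y v) = inner ℂ v (ρ (x⁻¹ * y) v) := by
    intro x y
    have h1 : ρ y v = ρ x (ρ (x⁻¹ * y) v) := by
      rw [← Module.End.mul_apply, ← map_mul]
      congr 2
      group
    rw [h1, hρ]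
  have hww : (inner ℂ w w : ℂ) = ∑ x ∈ b.support, ∑ y ∈ b.support,
      ((b x : ℝ) : ℂ) * ((b y : ℝ) : ℂ) * inner ℂ v (ρ (x⁻¹ * y) v) := by
    rw [hw]
    unfold Finsupp.sum
    rw [sum_inner]
    apply Finset.sum_congr rfl
    intro x _
    rw [inner_sum]
    apply Finset.sum_congr rfl
    intro y _
    rw [inner_smul_left, inner_smul_right, hc, Complex.conj_ofReal]
    ring
  have hdiag : (inner ℂ v (ρ (1 : G) v) : ℂ) = 1 := by
    rw [map_one, Module.End.one_apply, inner_self_eq_norm_sq_to_K, hv]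
    simp
  have hl2 : ((l2 b : ℝ) : ℂ) = ∑ x ∈ b.support, ∑ y ∈ b.support,
      if x = y then ((b x : ℝ) : ℂ) * ((b y : ℝ) : ℂ) else 0 := by
    unfold l2 Finsupp.sum
    rw [Complex.ofReal_sum]
    apply Finset.sum_congr rfl
    intro x hx
    rw [Finset.sum_ite_eq, if_pos hx]
    push_cast
    ring
  have hdiff : (inner ℂ w w : ℂ) - ((l2 b : ℝ) : ℂ) = ∑ x ∈ b.support, ∑ y ∈ b.support,
      if x = y then 0 else ((b x : ℝ) : ℂ) * ((b y : ℝ) : ℂ) * inner ℂ v (ρ (x⁻¹ * y) v) := by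
    rw [hww, hl2, ← Finset.sum_sub_distrib]
    apply Finset.sum_congr rfl
    intro x _
    rw [← Finset.sum_sub_distrib]
    apply Finset.sum_congr rfl
    intro y _
    split_ifs with hxy
    · subst hxy
      rw [inv_mul_cancel, hdiag]
      ring
    · ring
  have hnorm : |‖w‖ ^ 2 - l2 b| = ‖(inner ℂ w w : ℂ) - ((l2 b : ℝ) : ℂ)‖ := by
    rw [inner_self_eq_norm_sq_to_K]
    have h1 : ((‖w‖ : ℂ)) ^ 2 - ((l2 b : ℝ) : ℂ) = ((‖w‖ ^ 2 - l2 b : ℝ) : ℂ) := by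
      push_cast
      ring
    have h2 : (((‖w‖ : ℝ) : ℂ)) ^ 2 - ((l2 b : ℝ) : ℂ) = ((‖w‖ ^ 2 - l2 b : ℝ) : ℂ) := h1
    have h3 : (RCLike.ofReal ‖w‖ : ℂ) = ((‖w‖ : ℝ) : ℂ) := rfl
    rw [h3, h2, Complex.norm_real, Real.norm_eq_abs]
  rw [hnorm, hdiff]
  have hl1 : η * l1 b ^ 2 = ∑ x ∈ b.support, ∑ y ∈ b.support, η * (|b x| * |b y|) := by
    unfold l1 Finsupp.sum
    rw [sq, Finset.sum_mul_sum, Finset.mul_sum]
    apply Finset.sum_congr rfl
    intro x _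
    rw [Finset.mul_sum]
  rw [hl1]
  refine (norm_sum_le _ _).trans (Finset.sum_le_sum fun x hx => ?_)
  refine (norm_sum_le _ _).trans (Finset.sum_le_sum fun y hy => ?_)
  split_ifs with hxy
  · rw [norm_zero]
    positivity
  · rw [norm_mul, norm_mul, Complex.norm_real, Complex.norm_real, Real.norm_eq_abs,
      Real.norm_eq_abs, mul_comm η]
    exact mul_le_mul_of_nonneg_left (h x hx y hy hxy) (by positivity)

end Pool.Agent.LibCSA98
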