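import Pool.Agent.LibCSA98.LiftU
set_option autoImplicit false
namespace Pool.Agent.LibCSA98
open Topology Filter
open scoped Matrix.Norms.L2Operator
open Pool.Agent.LibCS15 (CStarStable)

/-- the inclusion of the second summand -/
private noncomputable def Co_J (k : ℕ) : Matrix (Unit ⊕ Fin (k + 1)) (Fin (k + 1)) ℂ := Matrix.fromRows 0 1

/-- the projection to the first summand -/
private noncomputable def Co_P (k : ℕ) : Matrix (Unit ⊕ Fin (k + 1)) (Unit ⊕ Fin (k + 1)) ℂ :=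
  Matrix.fromBlocks 1 0 0 0

private theorem Co_JJ (k : ℕ) : (Co_J k).conjTranspose * Co_J k = 1 := by
  ext i j
  simp [Co_J, Matrix.mul_apply, Fintype.sum_sum_type, Matrix.one_apply, eq_comm]

private theorem Co_JJ' (k : ℕ) : Co_J k * (Co_J k).conjTranspose = 1 - Co_P k := by
  ext i j
  rcases i with i | i <;> rcases j with j | j <;>
    simp [Co_J, Co_P, Matrix.mul_apply, Matrix.one_apply, eq_comm]

private theorem Co_JP (k : ℕ) : (Co_J k).conjTranspose * Co_P k = 0 := by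
  ext i j
  rcases j with j | j <;>
    simp [Co_J, Co_P, Matrix.mul_apply, Fintype.sum_sum_type, Matrix.one_apply]

private theorem Co_PP (k : ℕ) : Co_P k * Co_P k = Co_P k := by
  simp [Co_P, Matrix.fromBlocks_multiply]

private theorem Co_Pt (k : ℕ) : (Co_P k).conjTranspose = Co_P k := by
  simp [Co_P, Matrix.fromBlocks_conjTranspose]

private theorem Co_PJ (k : ℕ) : Co_P k * Co_J k = 0 := by
  have h := congrArg Matrix.conjTranspose (Co_JP k)
  rwa [Matrix.conjTranspose_mul, Matrix.conjTranspose_conjTranspose, Co_Pt,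
    Matrix.conjTranspose_zero] at h

private theorem Co_normJ (k : ℕ) : ‖Co_J k‖ = 1 := by
  have h := Matrix.l2_opNorm_conjTranspose_mul_self (Co_J k)
  rw [Co_JJ, norm_one] at h
  nlinarith [norm_nonneg (Co_J k)]

private theorem Co_normJt (k : ℕ) : ‖(Co_J k).conjTranspose‖ = 1 := by
  rw [Matrix.l2_opNorm_conjTranspose, Co_normJ]

private theorem Co_normP (k : ℕ) : ‖Co_P k‖ ≤ 1 := by
  have h := Matrix.l2_opNorm_conjTranspose_mul_self (Co_P k)
  rw [Co_Pt, Co_PP] at h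
  by_contra hc
  push Not at hc
  nlinarith [norm_nonneg (Co_P k)]

/-- the compression -/
private noncomputable def Co_v (k : ℕ) (A : Matrix (Unit ⊕ Fin (k + 1)) (Unit ⊕ Fin (k + 1)) ℂ) :
    Matrix (Fin (k + 1)) (Fin (k + 1)) ℂ := (Co_J k).conjTranspose * A * Co_J k

private theorem Co_norm_v (k : ℕ) (A : Matrix (Unit ⊕ Fin (k + 1)) (Unit ⊕ Fin (k + 1)) ℂ) :
    ‖Co_v k A‖ ≤ ‖A‖ := by
  have h1 := Matrix.l2_opNorm_mul ((Co_J k).conjTranspose * A) (Co_J k)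
  have h2 := Matrix.l2_opNorm_mul (Co_J k).conjTranspose A
  rw [Co_normJ, mul_one] at h1
  rw [Co_normJt, one_mul] at h2
  exact h1.trans h2

/-- the representation on the first summand plus a representation on the second -/
private noncomputable def Co_w (k : ℕ) (B : Matrix (Fin (k + 1)) (Fin (k + 1)) ℂ) :
    Matrix (Unit ⊕ Fin (k + 1)) (Unit ⊕ Fin (k + 1)) ℂ := Co_J k * B * (Co_J k).conjTranspose

private theorem Co_norm_w (k : ℕ) (B : Matrix (Fin (k + 1)) (Fin (k + 1)) ℂ) :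
    ‖Co_w k B‖ ≤ ‖B‖ := by
  have h1 := Matrix.l2_opNorm_mul (Co_J k * B) (Co_J k).conjTranspose
  have h2 := Matrix.l2_opNorm_mul (Co_J k) B
  rw [Co_normJt, mul_one] at h1
  rw [Co_normJ, one_mul] at h2
  exact h1.trans h2

private theorem Co_w_eq (k : ℕ) (B : Matrix (Fin (k + 1)) (Fin (k + 1)) ℂ) :
    Co_w k B = Matrix.fromBlocks 0 0 0 B := by
  ext i j
  rcases i with i | i <;> rcases j with j | j <;>
    simp [Co_w, Co_J, Matrix.mul_apply, Matrix.one_apply]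

private theorem Co_unit {n : Type} [Fintype n] [DecidableEq n]
    (U : unitary (Matrix n n ℂ)) : ‖(U : Matrix n n ℂ)‖ ≤ 1 := by
  have h := Matrix.l2_opNorm_conjTranspose_mul_self (U : Matrix n n ℂ)
  have h1 : (U : Matrix n n ℂ).conjTranspose * (U : Matrix n n ℂ) = 1 := Unitary.coe_star_mul_self U
  rw [h1] at h
  have h2 : ‖(1 : Matrix n n ℂ)‖ ≤ 1 := by
    have h3 := Matrix.l2_opNorm_conjTranspose_mul_self (1 : Matrix n n ℂ)
    rw [Matrix.conjTranspose_one, one_mul] at h3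
    by_contra hc
    push Not at hc
    nlinarith [norm_nonneg (1 : Matrix n n ℂ)]
  by_contra hc
  push Not at hc
  nlinarith [norm_nonneg (U : Matrix n n ℂ)]

private noncomputable def Co_mu {G : Type} [Group G] (k : ℕ) (σ : G →* unitary (Matrix (Fin (k + 1)) (Fin (k + 1)) ℂ)) :
    G →* unitary (Matrix (Unit ⊕ Fin (k + 1)) (Unit ⊕ Fin (k + 1)) ℂ) where
  toFun g := ⟨Matrix.fromBlocks 1 0 0 (σ g : Matrix (Fin (k + 1)) (Fin (k + 1)) ℂ), by
    have h1 : (σ g : Matrix (Fin (k + 1)) (Fin (k + 1)) ℂ).conjTranspose * (σ g : Matrix (Fin (k + 1)) (Fin (k + 1)) ℂ) = 1 :=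
      Unitary.coe_star_mul_self (σ g)
    have h2 : (σ g : Matrix (Fin (k + 1)) (Fin (k + 1)) ℂ) * (σ g : Matrix (Fin (k + 1)) (Fin (k + 1)) ℂ).conjTranspose = 1 :=
      Unitary.coe_mul_star_self (σ g)
    rw [Unitary.mem_iff, Matrix.star_eq_conjTranspose, Matrix.fromBlocks_conjTranspose,
      Matrix.fromBlocks_multiply, Matrix.fromBlocks_multiply, h1, h2]
    simp⟩
  map_one' := by
    apply Subtype.ext
    simp
  map_mul' g h := by
    apply Subtype.ext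
    simp [Matrix.fromBlocks_multiply]

/-- Compression.  Let `P = fromBlocks 1 0 0 0`, `v m g = (β m g).toBlocks₂₂`.  `v m 1 = 1`, `v m g⁻¹ = star (v m g)`, `‖v m g‖ ≤ 1`, and
`v m (g h) - v m g * v m h = (β m g).toBlocks₂₁ * (β m h).toBlocks₁₂`, of norm at most `‖(1 - P) * (β m g * P - P)‖`.  `lift_contr` gives `σ m` with
`‖σ m g - v m g‖ → 0`; `μ m g = fromBlocks 1 0 0 (σ m g)`.  The other blocks of `β m g - μ m g` are small: `P β (1 - P) = star ((1 - P) β⁻¹ P)`. -/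
theorem compress {G : Type} [Group G] [Countable G] (hG : CStarStable G) (k : ℕ → ℕ)
    (β : ∀ m, G →* unitary (Matrix (Unit ⊕ Fin (k m + 1)) (Unit ⊕ Fin (k m + 1)) ℂ))
    (h : ∀ g, Tendsto (fun m => ‖(β m g : Matrix (Unit ⊕ Fin (k m + 1)) (Unit ⊕ Fin (k m + 1)) ℂ) *
      Matrix.fromBlocks 1 0 0 0 - Matrix.fromBlocks 1 0 0 0‖) atTop (𝓝 0)) :
    ∃ μ : ∀ m, G →* unitary (Matrix (Unit ⊕ Fin (k m + 1)) (Unit ⊕ Fin (k m + 1)) ℂ),
      (∀ m g, (μ m g : Matrix (Unit ⊕ Fin (k m + 1)) (Unit ⊕ Fin (k m + 1)) ℂ).mulVec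
        (Sum.elim (fun _ => 1) (fun _ => 0)) = Sum.elim (fun _ => 1) (fun _ => 0)) ∧
      ∀ g, Tendsto (fun m => ‖(β m g : Matrix (Unit ⊕ Fin (k m + 1)) (Unit ⊕ Fin (k m + 1)) ℂ) -
        (μ m g : Matrix (Unit ⊕ Fin (k m + 1)) (Unit ⊕ Fin (k m + 1)) ℂ)‖) atTop (𝓝 0) := by
  -- the compressions
  let v : ∀ m, G → Matrix (Fin (k m + 1)) (Fin (k m + 1)) ℂ := fun m g =>
    Co_v (k m) (β m g : Matrix (Unit ⊕ Fin (k m + 1)) (Unit ⊕ Fin (k m + 1)) ℂ)
  have hb : ∀ m g, ‖v m g‖ ≤ 1 := fun m g => (Co_norm_v _ _).trans (Co_unit _)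
  have h1 : ∀ m, v m 1 = 1 := by
    intro m
    show Co_v (k m) (β m 1 : Matrix (Unit ⊕ Fin (k m + 1)) (Unit ⊕ Fin (k m + 1)) ℂ) = 1
    rw [map_one, OneMemClass.coe_one, Co_v, Matrix.mul_one, Co_JJ]
  have hinv : ∀ m g, (β m g⁻¹ : Matrix (Unit ⊕ Fin (k m + 1)) (Unit ⊕ Fin (k m + 1)) ℂ) =
      (β m g : Matrix (Unit ⊕ Fin (k m + 1)) (Unit ⊕ Fin (k m + 1)) ℂ).conjTranspose := by
    intro m g
    rw [map_inv]
    rfl
  have hstar : ∀ m g, v m g⁻¹ = star (v m g) := by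
    intro m g
    show Co_v (k m) (β m g⁻¹ : Matrix (Unit ⊕ Fin (k m + 1)) (Unit ⊕ Fin (k m + 1)) ℂ) =
      (Co_v (k m) (β m g : Matrix (Unit ⊕ Fin (k m + 1)) (Unit ⊕ Fin (k m + 1)) ℂ)).conjTranspose
    rw [hinv, Co_v, Co_v, Matrix.conjTranspose_mul, Matrix.conjTranspose_mul,
      Matrix.conjTranspose_conjTranspose, Matrix.mul_assoc]
  have hsplit : ∀ m, Co_J (k m) * (Co_J (k m)).conjTranspose + Co_P (k m) = 1 := by
    intro m
    rw [Co_JJ', sub_add_cancel]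
  have hmul : ∀ g g', Tendsto (fun m => ‖v m (g * g') - v m g * v m g'‖) atTop (𝓝 0) := by
    intro g g'
    refine squeeze_zero (fun m => norm_nonneg _) (fun m => ?_) (h g)
    have e1 : v m (g * g') - v m g * v m g' =
        (Co_J (k m)).conjTranspose * ((β m g : Matrix (Unit ⊕ Fin (k m + 1)) (Unit ⊕ Fin (k m + 1)) ℂ) * Co_P (k m) -
          Co_P (k m)) * ((β m g' : Matrix (Unit ⊕ Fin (k m + 1)) (Unit ⊕ Fin (k m + 1)) ℂ) * Co_J (k m)) := by
      show Co_v (k m) (β m (g * g') : Matrix (Unit ⊕ Fin (k m + 1)) (Unit ⊕ Fin (k m + 1)) ℂ) -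
        Co_v (k m) (β m g : Matrix (Unit ⊕ Fin (k m + 1)) (Unit ⊕ Fin (k m + 1)) ℂ) *
        Co_v (k m) (β m g' : Matrix (Unit ⊕ Fin (k m + 1)) (Unit ⊕ Fin (k m + 1)) ℂ) = _
      rw [map_mul, Submonoid.coe_mul]
      generalize (β m g : Matrix (Unit ⊕ Fin (k m + 1)) (Unit ⊕ Fin (k m + 1)) ℂ) = X
      generalize (β m g' : Matrix (Unit ⊕ Fin (k m + 1)) (Unit ⊕ Fin (k m + 1)) ℂ) = Y
      have e2 : Co_v (k m) (X * Y) = (Co_J (k m)).conjTranspose * X *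
          (Co_J (k m) * (Co_J (k m)).conjTranspose + Co_P (k m)) * (Y * Co_J (k m)) := by
        rw [hsplit, Co_v, Matrix.mul_one]
        simp only [Matrix.mul_assoc]
      rw [e2, Matrix.mul_sub, Co_JP, sub_zero, Co_v, Co_v, Matrix.mul_add, Matrix.add_mul]
      simp only [Matrix.mul_assoc]
      abel
    rw [e1]
    refine (Matrix.l2_opNorm_mul _ _).trans ?_
    have n1 : ‖(β m g' : Matrix (Unit ⊕ Fin (k m + 1)) (Unit ⊕ Fin (k m + 1)) ℂ) * Co_J (k m)‖ ≤ 1 := by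
      refine (Matrix.l2_opNorm_mul _ _).trans ?_
      rw [Co_normJ, mul_one]
      exact Co_unit _
    have n2 : ‖(Co_J (k m)).conjTranspose * ((β m g : Matrix (Unit ⊕ Fin (k m + 1)) (Unit ⊕ Fin (k m + 1)) ℂ) * Co_P (k m) -
          Co_P (k m))‖ ≤ ‖(β m g : Matrix (Unit ⊕ Fin (k m + 1)) (Unit ⊕ Fin (k m + 1)) ℂ) * Co_P (k m) -
          Co_P (k m)‖ := by
      refine (Matrix.l2_opNorm_mul _ _).trans ?_
      rw [Co_normJt, one_mul]
    exact (mul_le_of_le_one_right (norm_nonneg _) n1).trans n2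
  obtain ⟨σ, hσ⟩ := lift_contr hG (fun m => Fin (k m + 1)) v hb h1 hmul hstar
  refine ⟨fun m => Co_mu (k m) (σ m), ?_, ?_⟩
  · intro m g
    show (Matrix.fromBlocks 1 0 0 (σ m g : Matrix (Fin (k m + 1)) (Fin (k m + 1)) ℂ)).mulVec _ = _
    rw [Matrix.fromBlocks_mulVec]
    ext i
    rcases i with i | i <;> simp [Matrix.mulVec, dotProduct]
  · intro g
    have hlim : Tendsto (fun m => ‖(β m g : Matrix (Unit ⊕ Fin (k m + 1)) (Unit ⊕ Fin (k m + 1)) ℂ) *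
          Matrix.fromBlocks 1 0 0 0 - Matrix.fromBlocks 1 0 0 0‖ +
        ‖(β m g⁻¹ : Matrix (Unit ⊕ Fin (k m + 1)) (Unit ⊕ Fin (k m + 1)) ℂ) *
          Matrix.fromBlocks 1 0 0 0 - Matrix.fromBlocks 1 0 0 0‖ +
        ‖(σ m g : Matrix (Fin (k m + 1)) (Fin (k m + 1)) ℂ) - v m g‖) atTop (𝓝 0) := by
      have := ((h g).add (h g⁻¹)).add (hσ g)
      simpa using this
    refine squeeze_zero (fun m => norm_nonneg _) (fun m => ?_) hlim
    show ‖(β m g : Matrix (Unit ⊕ Fin (k m + 1)) (Unit ⊕ Fin (k m + 1)) ℂ) -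
      Matrix.fromBlocks 1 0 0 (σ m g : Matrix (Fin (k m + 1)) (Fin (k m + 1)) ℂ)‖ ≤
      ‖(β m g : Matrix (Unit ⊕ Fin (k m + 1)) (Unit ⊕ Fin (k m + 1)) ℂ) * Co_P (k m) - Co_P (k m)‖ +
        ‖(β m g⁻¹ : Matrix (Unit ⊕ Fin (k m + 1)) (Unit ⊕ Fin (k m + 1)) ℂ) * Co_P (k m) - Co_P (k m)‖ +
        ‖(σ m g : Matrix (Fin (k m + 1)) (Fin (k m + 1)) ℂ) - v m g‖
    have e0 : Matrix.fromBlocks 1 0 0 (σ m g : Matrix (Fin (k m + 1)) (Fin (k m + 1)) ℂ) =
        Co_P (k m) + Co_w (k m) (σ m g : Matrix (Fin (k m + 1)) (Fin (k m + 1)) ℂ) := by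
      rw [Co_w_eq, Co_P, Matrix.fromBlocks_add]
      simp
    have e1 : (β m g : Matrix (Unit ⊕ Fin (k m + 1)) (Unit ⊕ Fin (k m + 1)) ℂ) -
        Matrix.fromBlocks 1 0 0 (σ m g : Matrix (Fin (k m + 1)) (Fin (k m + 1)) ℂ) =
        ((β m g : Matrix (Unit ⊕ Fin (k m + 1)) (Unit ⊕ Fin (k m + 1)) ℂ) * Co_P (k m) - Co_P (k m)) +
        ((1 - Co_P (k m)) * ((β m g⁻¹ : Matrix (Unit ⊕ Fin (k m + 1)) (Unit ⊕ Fin (k m + 1)) ℂ) * Co_P (k m) -
          Co_P (k m))).conjTranspose -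
        Co_w (k m) ((σ m g : Matrix (Fin (k m + 1)) (Fin (k m + 1)) ℂ) - v m g) := by
      rw [e0, hinv]
      show _ = _ + _ - Co_w (k m) ((σ m g : Matrix (Fin (k m + 1)) (Fin (k m + 1)) ℂ) -
        Co_v (k m) (β m g : Matrix (Unit ⊕ Fin (k m + 1)) (Unit ⊕ Fin (k m + 1)) ℂ))
      generalize (β m g : Matrix (Unit ⊕ Fin (k m + 1)) (Unit ⊕ Fin (k m + 1)) ℂ) = X
      generalize (σ m g : Matrix (Fin (k m + 1)) (Fin (k m + 1)) ℂ) = Y
      have f1 : Co_w (k m) (Y - Co_v (k m) X) = Co_w (k m) Y - (1 - Co_P (k m)) * X * (1 - Co_P (k m)) := by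
        rw [← Co_JJ', Co_w, Co_w, Co_v, Matrix.mul_sub, Matrix.sub_mul]
        simp only [Matrix.mul_assoc]
      have f2 : (1 - Co_P (k m)).conjTranspose = 1 - Co_P (k m) := by
        rw [Matrix.conjTranspose_sub, Matrix.conjTranspose_one, Co_Pt]
      have f3 : (1 - Co_P (k m)) * Co_P (k m) = 0 := by
        rw [sub_mul, one_mul, Co_PP, sub_self]
      rw [f1, Matrix.mul_sub, f3, sub_zero, Matrix.conjTranspose_mul, f2, Matrix.conjTranspose_mul, Co_Pt,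
        Matrix.conjTranspose_conjTranspose]
      noncomm_ring
    rw [e1]
    refine (norm_sub_le _ _).trans ?_
    refine add_le_add ((norm_add_le _ _).trans (add_le_add le_rfl ?_)) (Co_norm_w _ _)
    rw [Matrix.l2_opNorm_conjTranspose, ← Co_JJ']
    refine (Matrix.l2_opNorm_mul _ _).trans ?_
    have n3 : ‖Co_J (k m) * (Co_J (k m)).conjTranspose‖ ≤ 1 := by
      refine (Matrix.l2_opNorm_mul _ _).trans ?_
      rw [Co_normJ, Co_normJt, mul_one]
    exact mul_le_of_le_one_left (norm_nonneg _) n3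

end Pool.Agent.LibCSA98
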