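import Pool.Agent.LibCSA98.Defs
set_option autoImplicit false
namespace Pool.Agent.LibCSA98
open scoped Matrix

/-- unitary representations by linear maps of an inner product space -/
def IsUnRep {G V : Type} [Group G] [NormedAddCommGroup V] [InnerProductSpace ℂ V]
    (ρ : G →* (V →ₗ[ℂ] V)) : Prop := ∀ g x y, inner ℂ (ρ g x) (ρ g y) = inner ℂ x y

/-- matrices act on `EuclideanSpace ℂ n` (`Matrix.toEuclideanLin`) -/
theorem rep_of_matrix {G : Type} [Group G] {n : Type} [Fintype n] [DecidableEq n]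
    (π : G →* unitary (Matrix n n ℂ)) :
    ∃ ρ : G →* (EuclideanSpace ℂ n →ₗ[ℂ] EuclideanSpace ℂ n), IsUnRep ρ ∧
      ∀ g x, WithLp.ofLp (ρ g x) = (π g : Matrix n n ℂ).mulVec (WithLp.ofLp x) := by
  have hone : ((Matrix.toEuclideanCLM (n := n) (𝕜 := ℂ) ((π 1 : unitary (Matrix n n ℂ)) : Matrix n n ℂ) :
          EuclideanSpace ℂ n →L[ℂ] EuclideanSpace ℂ n) :
          EuclideanSpace ℂ n →ₗ[ℂ] EuclideanSpace ℂ n) = 1 := by
    rw [map_one, OneMemClass.coe_one, map_one]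
    rfl
  have hmul : ∀ g h, ((Matrix.toEuclideanCLM (n := n) (𝕜 := ℂ) (π (g * h) : Matrix n n ℂ) :
          EuclideanSpace ℂ n →L[ℂ] EuclideanSpace ℂ n) :
          EuclideanSpace ℂ n →ₗ[ℂ] EuclideanSpace ℂ n) =
        ((Matrix.toEuclideanCLM (n := n) (𝕜 := ℂ) (π g : Matrix n n ℂ) :
          EuclideanSpace ℂ n →L[ℂ] EuclideanSpace ℂ n) :
          EuclideanSpace ℂ n →ₗ[ℂ] EuclideanSpace ℂ n) *
        ((Matrix.toEuclideanCLM (n := n) (𝕜 := ℂ) (π h : Matrix n n ℂ) :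
          EuclideanSpace ℂ n →L[ℂ] EuclideanSpace ℂ n) :
          EuclideanSpace ℂ n →ₗ[ℂ] EuclideanSpace ℂ n) := by
    intro g h
    rw [map_mul, Submonoid.coe_mul, map_mul]
    rfl
  refine ⟨⟨⟨fun g =>
        ((Matrix.toEuclideanCLM (n := n) (𝕜 := ℂ) (π g : Matrix n n ℂ) :
          EuclideanSpace ℂ n →L[ℂ] EuclideanSpace ℂ n) :
          EuclideanSpace ℂ n →ₗ[ℂ] EuclideanSpace ℂ n), hone⟩, hmul⟩, ?_, ?_⟩
  · intro g x y
    set A := Matrix.toEuclideanCLM (n := n) (𝕜 := ℂ) (π g : Matrix n n ℂ) with hA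
    have h1 : star A * A = 1 := by
      rw [hA, ← map_star, ← map_mul, Unitary.coe_star_mul_self, map_one]
    have h2 : inner ℂ (A x) (A y) = inner ℂ ((star A * A) x) y := by
      rw [ContinuousLinearMap.star_eq_adjoint]
      change inner ℂ (A x) (A y) = inner ℂ ((ContinuousLinearMap.adjoint A) (A x)) y
      rw [ContinuousLinearMap.adjoint_inner_left]
    change inner ℂ (A x) (A y) = inner ℂ x y
    rw [h2, h1]
    rfl
  · intro g x
    rfl

/-- matrices of a representation in an orthonormal basis (`LinearMap.toMatrixOrthonormal`) -/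
theorem matrix_of_rep {G V : Type} [Group G] [NormedAddCommGroup V] [InnerProductSpace ℂ V]
    (ρ : G →* (V →ₗ[ℂ] V)) (hρ : IsUnRep ρ) {n : Type} [Fintype n] [DecidableEq n]
    (b : OrthonormalBasis n ℂ V) :
    ∃ π : G →* unitary (Matrix n n ℂ), ∀ g x,
      (π g : Matrix n n ℂ).mulVec (WithLp.ofLp (b.repr x)) = WithLp.ofLp (b.repr (ρ g x)) := by
  classical
  have : FiniteDimensional ℂ V := b.toBasis.finiteDimensional_of_finite
  have hinv : ∀ g, ρ g * ρ g⁻¹ = 1 := fun g => by rw [← map_mul, mul_inv_cancel, map_one]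
  have hst : ∀ g, star (ρ g) * ρ g = 1 := by
    intro g
    rw [LinearMap.star_eq_adjoint]
    refine LinearMap.ext fun x => ?_
    refine ext_inner_right ℂ fun y => ?_
    change inner ℂ ((LinearMap.adjoint (ρ g)) (ρ g x)) y = inner ℂ x y
    rw [LinearMap.adjoint_inner_left]
    exact hρ g x y
  have hst2 : ∀ g, ρ g * star (ρ g) = 1 := by
    intro g
    have h1 : star (ρ g) = ρ g⁻¹ := by
      calc star (ρ g) = star (ρ g) * (ρ g * ρ g⁻¹) := by rw [hinv, mul_one]
        _ = (star (ρ g) * ρ g) * ρ g⁻¹ := (mul_assoc _ _ _).symm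
        _ = ρ g⁻¹ := by rw [hst, one_mul]
    rw [h1, hinv]
  have hmem : ∀ g, LinearMap.toMatrixOrthonormal b (ρ g) ∈ unitary (Matrix n n ℂ) := by
    intro g
    rw [Unitary.mem_iff, ← map_star, ← map_mul, ← map_mul, hst, hst2, map_one]
    exact ⟨rfl, rfl⟩
  refine ⟨⟨⟨fun g => ⟨LinearMap.toMatrixOrthonormal b (ρ g), hmem g⟩, ?_⟩, ?_⟩, ?_⟩
  · refine Subtype.ext ?_
    change LinearMap.toMatrixOrthonormal b (ρ 1) = 1
    rw [map_one, map_one]
  · intro g h
    refine Subtype.ext ?_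
    change LinearMap.toMatrixOrthonormal b (ρ (g * h))
      = LinearMap.toMatrixOrthonormal b (ρ g) * LinearMap.toMatrixOrthonormal b (ρ h)
    rw [map_mul, map_mul]
  · intro g x
    have h1 := LinearMap.toMatrix_mulVec_repr b.toBasis b.toBasis (ρ g) x
    have h2 : ∀ z : V, (b.toBasis.repr z : n → ℂ) = WithLp.ofLp (b.repr z) := by
      intro z
      funext i
      exact b.coe_toBasis_repr_apply z i
    rw [h2, h2] at h1
    exact h1

/-- a coefficient function in terms of a representation by linear maps -/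
theorem isUnRep_norm {G V : Type} [Group G] [NormedAddCommGroup V] [InnerProductSpace ℂ V]
    (ρ : G →* (V →ₗ[ℂ] V)) (hρ : IsUnRep ρ) (g : G) (x : V) : ‖ρ g x‖ = ‖x‖ := by
  have h1 := hρ g x x
  have h2 : ‖ρ g x‖ ^ 2 = ‖x‖ ^ 2 := by
    rw [← inner_self_eq_norm_sq (𝕜 := ℂ), ← inner_self_eq_norm_sq (𝕜 := ℂ), h1]
  exact (pow_left_inj₀ (norm_nonneg _) (norm_nonneg _) two_ne_zero).mp h2

end Pool.Agent.LibCSA98
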