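import Pool.Agent.LibCSA98.NearInvA
set_option autoImplicit false
namespace Pool.Agent.LibCSA98

/-- the vectors fixed by the elements of `K` -/
private def niFix {G V : Type} [Group G] [NormedAddCommGroup V] [InnerProductSpace ℂ V]
    (ρ : G →* (V →ₗ[ℂ] V)) (K : Subgroup G) : Submodule ℂ V where
  carrier := {x | ∀ k ∈ K, ρ k x = x}
  add_mem' := by
    intro a b ha hb k hk
    rw [map_add, ha k hk, hb k hk]
  zero_mem' := by
    intro k _
    rw [map_zero]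
  smul_mem' := by
    intro c x hx k hk
    rw [map_smul, hx k hk]

private theorem ni_mem {G V : Type} [Group G] [NormedAddCommGroup V] [InnerProductSpace ℂ V]
    (ρ : G →* (V →ₗ[ℂ] V)) (K : Subgroup G) (x : V) :
    x ∈ niFix ρ K ↔ ∀ k ∈ K, ρ k x = x := Iff.rfl

private theorem ni_mul {G V : Type} [Group G] [NormedAddCommGroup V] [InnerProductSpace ℂ V]
    (ρ : G →* (V →ₗ[ℂ] V)) (g h : G) (x : V) : ρ (g * h) x = ρ g (ρ h x) := by
  rw [map_mul]
  rfl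

private theorem ni_inv {G V : Type} [Group G] [NormedAddCommGroup V] [InnerProductSpace ℂ V]
    (ρ : G →* (V →ₗ[ℂ] V)) (g : G) (x : V) : ρ g (ρ g⁻¹ x) = x := by
  rw [← ni_mul, mul_inv_cancel, map_one]
  rfl

private theorem ni_fix_inv {G V : Type} [Group G] [NormedAddCommGroup V]
    [InnerProductSpace ℂ V] (ρ : G →* (V →ₗ[ℂ] V)) (K : Subgroup G) [K.Normal] (g : G) (x : V)
    (hx : x ∈ niFix ρ K) : ρ g x ∈ niFix ρ K := by
  rw [ni_mem] at hx ⊢
  intro k hk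
  have h1 : k * g = g * (g⁻¹ * k * g) := by group
  have h2 : g⁻¹ * k * g ∈ K := by
    have := (inferInstance : K.Normal).conj_mem k hk g⁻¹
    simpa using this
  rw [← ni_mul, h1, ni_mul, hx _ h2]

private theorem ni_perp_inv {G V : Type} [Group G] [NormedAddCommGroup V]
    [InnerProductSpace ℂ V] (ρ : G →* (V →ₗ[ℂ] V)) (hρ : IsUnRep ρ) (K : Subgroup G) [K.Normal]
    (g : G) (x : V) (hx : x ∈ (niFix ρ K)ᗮ) : ρ g x ∈ (niFix ρ K)ᗮ := by
  rw [Submodule.mem_orthogonal] at hx ⊢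
  intro u hu
  rw [← ni_inv ρ g u, hρ]
  exact hx _ (ni_fix_inv ρ K g⁻¹ u hu)

/-- Remove the vectors fixed by `K`: `E = {x | ∀ k ∈ K, ρ k x = x}` is invariant under `G` (`K` is normal), so its orthogonal complement is, too; restrict `ρ` to `Eᗮ` and take the
normalised orthogonal projection of `w` (the projection commutes with the `ρ s`; `‖P_E w‖ ^ 2 ≤ ε'` by the last property of `near_inv_a` for `e = P_E w / ‖P_E w‖`). -/
theorem near_inv {G : Type} [Group G] (hM : MAP G) (hR : Reiter G) (K : Subgroup G) [K.Normal]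
    [Infinite K] (S : Finset G) (ε : ℝ) (hε : 0 < ε) :
    ∃ (V : Type) (_ : NormedAddCommGroup V) (_ : InnerProductSpace ℂ V)
      (_ : FiniteDimensional ℂ V) (ρ : G →* (V →ₗ[ℂ] V)) (w : V), IsUnRep ρ ∧
      (∀ x : V, (∀ k ∈ K, ρ k x = x) → x = 0) ∧ ‖w‖ = 1 ∧ ∀ s ∈ S, ‖ρ s w - w‖ ^ 2 ≤ ε := by
  set ε' : ℝ := min (1 / 4) (ε / 2) with hε'
  have hε'0 : 0 < ε' := lt_min (by norm_num) (by linarith)
  have hε'1 : ε' ≤ 1 / 4 := min_le_left _ _
  have hε'2 : ε' ≤ ε / 2 := min_le_right _ _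
  obtain ⟨V, i1, i2, i3, ρ, w, hρ, hw1, hw2, hw3⟩ := near_inv_a hM hR K S ε' hε'0
  obtain ⟨e0, he0, w', hw', hsum⟩ := Submodule.exists_add_mem_mem_orthogonal (K := niFix ρ K) w
  have horth : inner ℂ e0 w' = 0 := (Submodule.mem_orthogonal _ _).1 hw' e0 he0
  have hpyth : ‖w‖ ^ 2 = ‖e0‖ ^ 2 + ‖w'‖ ^ 2 := by
    rw [hsum]
    have := norm_add_sq_eq_norm_sq_add_norm_sq_of_inner_eq_zero (𝕜 := ℂ) e0 w' horth
    nlinarith
  have he0le : ‖e0‖ ^ 2 ≤ ε' := by
    by_cases h0 : e0 = 0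
    · rw [h0, norm_zero]
      nlinarith
    · have hn : 0 < ‖e0‖ := norm_pos_iff.2 h0
      have h1 := hw3 (((‖e0‖⁻¹ : ℝ) : ℂ) • e0) (by
        rw [norm_smul, Complex.norm_real, norm_inv, norm_norm, inv_mul_cancel₀ hn.ne'])
        (by
          intro k hk
          rw [map_smul, he0 k hk])
      have h2 : inner ℂ (((‖e0‖⁻¹ : ℝ) : ℂ) • e0) w = ((‖e0‖ : ℝ) : ℂ) := by
        have h3 : inner ℂ e0 e0 = ((‖e0‖ ^ 2 : ℝ) : ℂ) := by
          rw [inner_self_eq_norm_sq_to_K]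
          norm_cast
        rw [inner_smul_left, hsum, inner_add_right, horth, add_zero, h3, Complex.conj_ofReal,
          ← Complex.ofReal_mul]
        congr 1
        field_simp
      rw [h2, Complex.norm_real, norm_norm] at h1
      exact h1
  have hw'ge : 1 / 2 ≤ ‖w'‖ ^ 2 := by
    have := (abs_le.1 hw1).1
    nlinarith
  have hw'pos : 0 < ‖w'‖ := by
    by_contra h
    have h1 : ‖w'‖ = 0 := le_antisymm (not_lt.1 h) (norm_nonneg _)
    rw [h1] at hw'ge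
    norm_num at hw'ge
  let ρ' : G →* (↥(niFix ρ K)ᗮ →ₗ[ℂ] ↥(niFix ρ K)ᗮ) :=
    { toFun := fun g => (ρ g).restrict (fun x hx => ni_perp_inv ρ hρ K g x hx)
      map_one' := by
        ext x
        show ρ 1 (x : V) = x
        rw [map_one]
        rfl
      map_mul' := by
        intro g h
        ext x
        show ρ (g * h) (x : V) = ρ g (ρ h x)
        exact ni_mul ρ g h x }
  have hρ'c : ∀ g (x : ↥(niFix ρ K)ᗮ), ((ρ' g x : ↥(niFix ρ K)ᗮ) : V) = ρ g x := fun g x => rfl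
  refine ⟨↥(niFix ρ K)ᗮ, inferInstance, inferInstance, inferInstance, ρ',
    ((‖w'‖⁻¹ : ℝ) : ℂ) • ⟨w', hw'⟩, ?_, ?_, ?_, ?_⟩
  · intro g x y
    rw [Submodule.coe_inner, Submodule.coe_inner, hρ'c, hρ'c]
    exact hρ g x y
  · intro x hx
    have h1 : (x : V) ∈ niFix ρ K := by
      intro k hk
      rw [← hρ'c, hx k hk]
    have h2 := (Submodule.mem_orthogonal _ _).1 x.2 x h1
    apply Subtype.ext
    exact inner_self_eq_zero.1 h2
  · rw [norm_smul, Complex.norm_real, norm_inv, norm_norm, Submodule.coe_norm]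
    exact inv_mul_cancel₀ hw'pos.ne'
  · intro s hs
    have h1 : ρ' s (((‖w'‖⁻¹ : ℝ) : ℂ) • ⟨w', hw'⟩) - ((‖w'‖⁻¹ : ℝ) : ℂ) • ⟨w', hw'⟩ =
        ((‖w'‖⁻¹ : ℝ) : ℂ) • (ρ' s ⟨w', hw'⟩ - ⟨w', hw'⟩) := by
      rw [map_smul, smul_sub]
    have h2 : ‖ρ' s ⟨w', hw'⟩ - ⟨w', hw'⟩‖ = ‖ρ s w' - w'‖ := rfl
    have h3 : ‖ρ s w' - w'‖ ^ 2 ≤ ε' := by
      refine le_trans ?_ (hw2 s hs)
      have h4 : ρ s w - w = (ρ s e0 - e0) + (ρ s w' - w') := by
        rw [hsum, map_add]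
        abel
      have h5 : inner ℂ (ρ s e0 - e0) (ρ s w' - w') = 0 := by
        refine (Submodule.mem_orthogonal (niFix ρ K) _).1 ?_ _ ?_
        · exact Submodule.sub_mem _ (ni_perp_inv ρ hρ K s w' hw') hw'
        · exact Submodule.sub_mem _ (ni_fix_inv ρ K s e0 he0) he0
      have h6 := norm_add_sq_eq_norm_sq_add_norm_sq_of_inner_eq_zero (𝕜 := ℂ) _ _ h5
      rw [h4]
      nlinarith [norm_nonneg (ρ s e0 - e0)]
    rw [h1, norm_smul, Complex.norm_real, norm_inv, norm_norm, mul_pow, h2, inv_pow]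
    have h7 : (‖w'‖ ^ 2)⁻¹ ≤ 2 := by
      rw [inv_le_comm₀ (by positivity) (by norm_num)]
      linarith
    calc (‖w'‖ ^ 2)⁻¹ * ‖ρ s w' - w'‖ ^ 2 ≤ 2 * ε' := by
          apply mul_le_mul h7 h3 (by positivity) (by norm_num)
      _ ≤ ε := by linarith

/-- the same with matrices: `matrix_of_rep` for an orthonormal basis indexed by `Fin n` (`stdOrthonormalBasis`) -/
theorem near_inv_matrix {G : Type} [Group G] (hM : MAP G) (hR : Reiter G) (K : Subgroup G)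
    [K.Normal] [Infinite K] (S : Finset G) (ε : ℝ) (hε : 0 < ε) :
    ∃ (n : ℕ) (π : G →* unitary (Matrix (Fin n) (Fin n) ℂ)) (w : Fin n → ℂ), NoFix K π ∧
      ∑ i, ‖w i‖ ^ 2 = 1 ∧
      ∀ s ∈ S, ∑ i, ‖((π s : Matrix (Fin n) (Fin n) ℂ).mulVec w - w) i‖ ^ 2 ≤ ε := by
  obtain ⟨V, i1, i2, i3, ρ, w, hρ, hfix, hw, hS⟩ := near_inv hM hR K S ε hε
  let b := stdOrthonormalBasis ℂ V
  obtain ⟨π, hπ⟩ := matrix_of_rep ρ hρ b
  refine ⟨_, π, WithLp.ofLp (b.repr w), ?_, ?_, ?_⟩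
  · intro x hx
    have h1 : b.repr.symm (WithLp.toLp 2 x) = 0 := by
      refine hfix _ (fun k hk => ?_)
      apply b.repr.injective
      apply WithLp.ofLp_injective 2
      rw [← hπ, LinearIsometryEquiv.apply_symm_apply]
      exact hx k hk
    have h2 : WithLp.toLp 2 x = 0 := by
      rw [← b.repr.apply_symm_apply (WithLp.toLp 2 x), h1, map_zero]
    have h3 := congrArg WithLp.ofLp h2
    exact h3
  · rw [← EuclideanSpace.norm_sq_eq, LinearIsometryEquiv.norm_map, hw, one_pow]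
  · intro s hs
    have h1 : ((π s : Matrix _ _ ℂ).mulVec (WithLp.ofLp (b.repr w)) - WithLp.ofLp (b.repr w)) =
        WithLp.ofLp (b.repr (ρ s w - w)) := by
      rw [hπ, map_sub]
      rfl
    rw [h1, ← EuclideanSpace.norm_sq_eq, LinearIsometryEquiv.norm_map]
    exact hS s hs

end Pool.Agent.LibCSA98
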