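import Pool.Agent.LibCSA98.Gap
import Pool.Agent.LibCSA98.NearInv
set_option autoImplicit false
namespace Pool.Agent.LibCSA98
open Pool.Agent.LibCS15 (CStarStable)

/-- Let `K` be a normal subgroup of the `C*`-stable group `G` whose elements have finite order in all finite-dimensional representations, and `G ⧸ M` an amenable maximally almost periodic
quotient.  Then the image of `K` is finite.  Otherwise apply `near_inv_matrix` to `G ⧸ M`, the image of `K` and the images of the elements of the set `S` of `gap`, and pull back the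
representation to `G`. -/
theorem finite_map_of_fo {G : Type} [Group G] [Countable G] (hG : CStarStable G) (K : Subgroup G)
    [K.Normal] (hK : ∀ a ∈ K, FO a) (M : Subgroup G) [M.Normal] (hM : MAP (G ⧸ M))
    (hR : Reiter (G ⧸ M)) : Finite (K.map (QuotientGroup.mk' M)) := by
  classical
  by_contra hfin
  have hinf : Infinite (K.map (QuotientGroup.mk' M)) := not_finite_iff_infinite.1 hfin
  have hnorm : (K.map (QuotientGroup.mk' M)).Normal :=
    Subgroup.Normal.map inferInstance _ (QuotientGroup.mk'_surjective M)
  obtain ⟨S, ε, hε, hS⟩ := gap hG K hK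
  obtain ⟨n, π, w, hNF, hw, hinv⟩ := near_inv_matrix hM hR (K.map (QuotientGroup.mk' M))
    (S.image (QuotientGroup.mk' M)) (ε / 2) (by linarith)
  have hNF' : NoFix K (π.comp (QuotientGroup.mk' M)) := by
    intro x hx
    refine hNF x fun k hk => ?_
    obtain ⟨k', hk', rfl⟩ := Subgroup.mem_map.1 hk
    exact hx k' hk'
  obtain ⟨s, hs, hle⟩ := hS n (π.comp (QuotientGroup.mk' M)) hNF' w hw
  have h2 := hinv (QuotientGroup.mk' M s) (Finset.mem_image_of_mem _ hs)
  have h3 : ε ≤ ε / 2 := hle.trans h2
  linarith

/-- the case `M = ⊥` (directly from `gap` and `near_inv_matrix` for `G`) -/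
theorem finite_of_fo {G : Type} [Group G] [Countable G] (hG : CStarStable G) (hM : MAP G)
    (hR : Reiter G) (K : Subgroup G) [K.Normal] (hK : ∀ a ∈ K, FO a) : Finite K := by
  by_contra hfin
  have hinf : Infinite K := not_finite_iff_infinite.1 hfin
  obtain ⟨S, ε, hε, hS⟩ := gap hG K hK
  obtain ⟨n, π, w, hNF, hw, hinv⟩ := near_inv_matrix hM hR K S (ε / 2) (by linarith)
  obtain ⟨s, hs, hle⟩ := hS n π hNF w hw
  have h2 := hinv s hs
  linarith

end Pool.Agent.LibCSA98
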