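import Mathlib
set_option autoImplicit false

/-!
# Amenable `C*`-stable groups: definitions

* `MF G`: matricial field groups (local form).
* `Folner G`: amenability (Folner's condition).
* `LEF G`: groups locally embeddable into finite groups.
* `MAP G`: the finite-dimensional unitary representations separate the elements of `G`.
* `Reiter G`: Reiter's condition (finitely supported form).
* `FO K`: in every finite-dimensional unitary representation of `G` the elements of `K` have finite order.
* `NoFix K π`: the representation `π` has no nonzero vector fixed by `K`.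
-/

namespace Pool.Agent.LibCSA98
open scoped Matrix.Norms.L2Operator

/-- MF groups: every `g ≠ 1` stays at distance at least `δ > 0` from `1` in finite-dimensional almost representations (operator norm) -/
def MF (G : Type) [Group G] : Prop :=
  ∀ g : G, g ≠ 1 → ∃ δ : ℝ, 0 < δ ∧ ∀ (F : Finset G) (ε : ℝ), 0 < ε →
    ∃ (n : ℕ) (φ : G → unitary (Matrix (Fin n) (Fin n) ℂ)),
      (∀ x ∈ F, ∀ y ∈ F, ‖(φ (x * y) : Matrix (Fin n) (Fin n) ℂ) -
        (φ x : Matrix (Fin n) (Fin n) ℂ) * (φ y : Matrix (Fin n) (Fin n) ℂ)‖ ≤ ε) ∧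
      δ ≤ ‖(φ g : Matrix (Fin n) (Fin n) ℂ) - 1‖

/-- Folner's condition -/
def Folner (G : Type) [Group G] : Prop :=
  ∀ (S : Finset G) (ε : ℝ), 0 < ε → ∃ F : Finset G, F.Nonempty ∧
    ∀ s ∈ S, (Set.ncard {x : G | x ∈ F ∧ s * x ∉ F} : ℝ) ≤ ε * F.card

/-- groups locally embeddable into finite groups -/
def LEF (G : Type) [Group G] : Prop :=
  ∀ F : Finset G, ∃ (P : Type) (_ : Group P) (_ : Finite P) (f : G → P),
    (∀ x ∈ F, ∀ y ∈ F, f (x * y) = f x * f y) ∧ Set.InjOn f (F : Set G)

/-- maximally almost periodic groups -/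
def MAP (G : Type) [Group G] : Prop :=
  ∀ g : G, g ≠ 1 → ∃ (n : ℕ) (π : G →* unitary (Matrix (Fin n) (Fin n) ℂ)), π g ≠ 1

/-- the `ℓ¹`-norm of a finitely supported function -/
noncomputable def l1 {X : Type} (f : X →₀ ℝ) : ℝ := f.sum fun _ t => |t|

/-- the square of the `ℓ²`-norm of a finitely supported function -/
noncomputable def l2 {X : Type} (f : X →₀ ℝ) : ℝ := f.sum fun _ t => t ^ 2

/-- Reiter's condition -/
def Reiter (G : Type) [Group G] : Prop :=
  ∀ (S : Finset G) (ε : ℝ), 0 < ε → ∃ f : G →₀ ℝ, (∀ x, 0 ≤ f x) ∧ l1 f = 1 ∧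
    ∀ s ∈ S, l1 (f.mapDomain (s * ·) - f) ≤ ε

/-- in every finite-dimensional unitary representation of `G` the element `a` has finite order -/
def FO {G : Type} [Group G] (a : G) : Prop :=
  ∀ (n : Type) [Fintype n] [DecidableEq n] (π : G →* unitary (Matrix n n ℂ)),
    ∃ k : ℕ, 0 < k ∧ (π a : Matrix n n ℂ) ^ k = 1

/-- no nonzero vector is fixed by all the elements of `K` -/
def NoFix {G : Type} [Group G] (K : Subgroup G) {n : Type} [Fintype n] [DecidableEq n]
    (π : G →* unitary (Matrix n n ℂ)) : Prop :=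
  ∀ x : n → ℂ, (∀ k ∈ K, (π k : Matrix n n ℂ).mulVec x = x) → x = 0

/-- every finite-dimensional unitary representation is commutative on a finite index subgroup -/
def VA (G : Type) [Group G] : Prop :=
  ∀ (n : Type) [Fintype n] [DecidableEq n] (π : G →* unitary (Matrix n n ℂ)),
    ∃ P : Subgroup G, P.FiniteIndex ∧ ∀ x ∈ P, ∀ y ∈ P, π x * π y = π y * π x

end Pool.Agent.LibCSA98
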