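import Pool.Agent.LibCSA98.Defs
set_option autoImplicit false
namespace Pool.Agent.LibCSA98

/-- disjoint translates of a finite set by elements of an infinite subgroup: choose the `κ i` one after the other, outside the finite sets
`{κ j * x * y⁻¹ | j < i, x, y ∈ A}` -/
theorem exists_disjoint {G : Type} [Group G] (K : Subgroup G) [Infinite K] (A : Finset G)
    (r : ℕ) : ∃ κ : Fin r → G, (∀ i, κ i ∈ K) ∧
      ∀ i j, i ≠ j → ∀ x ∈ A, ∀ y ∈ A, κ i * x ≠ κ j * y := by
  classical
  induction r with
  | zero => exact ⟨fun i => i.elim0, fun i => i.elim0, fun i => i.elim0⟩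
  | succ r ih =>
    obtain ⟨κ, h1, h2⟩ := ih
    have hinf : (K : Set G).Infinite := Set.infinite_coe_iff.mp (inferInstanceAs (Infinite K))
    obtain ⟨k, hk, hk'⟩ := hinf.exists_notMem_finset
      ((Finset.univ : Finset (Fin r)).biUnion fun j =>
        (A ×ˢ A).image fun p => κ j * p.1 * p.2⁻¹)
    have hne : ∀ j, ∀ x ∈ A, ∀ y ∈ A, κ j * x ≠ k * y := by
      intro j x hx y hy h
      apply hk'
      rw [Finset.mem_biUnion]
      refine ⟨j, Finset.mem_univ _, ?_⟩
      rw [Finset.mem_image]
      refine ⟨(x, y), Finset.mem_product.mpr ⟨hx, hy⟩, ?_⟩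
      simp only [h, mul_inv_cancel_right]
    refine ⟨Fin.cons k κ, ?_, ?_⟩
    · intro i
      refine Fin.cases ?_ (fun i => ?_) i
      · exact hk
      · simpa using h1 i
    · intro i j
      refine Fin.cases ?_ (fun i => ?_) i
      · refine Fin.cases ?_ (fun j => ?_) j
        · intro h
          exact absurd rfl h
        · intro _ x hx y hy
          simp only [Fin.cons_zero, Fin.cons_succ]
          exact (hne j y hy x hx).symm
      · refine Fin.cases ?_ (fun j => ?_) j
        · intro _ x hx y hy
          simp only [Fin.cons_zero, Fin.cons_succ]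
          exact hne i x hx y hy
        · intro h x hx y hy
          simp only [Fin.cons_succ]
          exact h2 i j (fun h0 => h (by rw [h0])) x hx y hy

private theorem disj_sum {X ι : Type} (g : X → ℝ → ℝ) (f : ι → X →₀ ℝ)
    (s : Finset ι) (hd : ∀ i ∈ s, ∀ j ∈ s, i ≠ j → Disjoint (f i).support (f j).support) :
    (∑ i ∈ s, f i).sum g = ∑ i ∈ s, (f i).sum g := by
  classical
  induction s using Finset.induction_on with
  | empty => simp
  | insert a s ha ih =>
    rw [Finset.sum_insert ha, Finset.sum_insert ha, Finsupp.sum_add_index_of_disjoint, ih]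
    · intro i hi j hj
      exact hd i (Finset.mem_insert_of_mem hi) j (Finset.mem_insert_of_mem hj)
    · refine Finset.disjoint_of_subset_right Finsupp.support_finsetSum ?_
      rw [Finset.disjoint_biUnion_right]
      intro j hj
      exact hd a (Finset.mem_insert_self a s) j (Finset.mem_insert_of_mem hj)
        (fun h => ha (h ▸ hj))

/-- the sum of disjoint translates: `b = ∑ i, a.mapDomain (κ i * ·)` has `l2 b = r` and `l1 b ≤ r * l1 a` -/
theorem l2_sum_translates {G : Type} [Group G] (a : G →₀ ℝ) (ha : l2 a = 1) {r : ℕ}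
    (κ : Fin r → G) (hκ : ∀ i j, i ≠ j → ∀ x ∈ a.support, ∀ y ∈ a.support, κ i * x ≠ κ j * y) :
    l2 (∑ i, a.mapDomain (κ i * ·)) = r ∧ l1 (∑ i, a.mapDomain (κ i * ·)) ≤ r * l1 a := by
  classical
  have hd : ∀ i ∈ (Finset.univ : Finset (Fin r)), ∀ j ∈ (Finset.univ : Finset (Fin r)), i ≠ j →
      Disjoint (a.mapDomain (κ i * ·)).support (a.mapDomain (κ j * ·)).support := by
    intro i _ j _ hij
    refine Finset.disjoint_of_subset_left Finsupp.mapDomain_support
      (Finset.disjoint_of_subset_right Finsupp.mapDomain_support ?_)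
    rw [Finset.disjoint_left]
    intro z hz hz'
    rw [Finset.mem_image] at hz hz'
    obtain ⟨x, hx, rfl⟩ := hz
    obtain ⟨y, hy, h⟩ := hz'
    exact hκ i j hij x hx y hy h.symm
  have hi : ∀ i, Function.Injective (fun x : G => κ i * x) := fun i => mul_right_injective (κ i)
  constructor
  · have h := disj_sum (fun _ t => t ^ 2) (fun i => a.mapDomain (κ i * ·)) Finset.univ hd
    unfold l2
    rw [h]
    have h2 : ∀ i ∈ (Finset.univ : Finset (Fin r)),
        (a.mapDomain (κ i * ·)).sum (fun _ t => t ^ 2) = 1 := by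
      intro i _
      rw [Finsupp.sum_mapDomain_index_inj (hi i)]
      exact ha
    rw [Finset.sum_congr rfl h2]
    simp
  · have h := disj_sum (fun _ t => |t|) (fun i => a.mapDomain (κ i * ·)) Finset.univ hd
    unfold l1
    rw [h]
    have h2 : ∀ i ∈ (Finset.univ : Finset (Fin r)),
        (a.mapDomain (κ i * ·)).sum (fun _ t => |t|) = a.sum fun _ t => |t| := by
      intro i _
      rw [Finsupp.sum_mapDomain_index_inj (hi i)]
    rw [Finset.sum_congr rfl h2]
    simp

end Pool.Agent.LibCSA98
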