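import Pool.Agent.LibCSA98.Defs
set_option autoImplicit false
namespace Pool.Agent.LibCSA98

private noncomputable def FT_phi (m : Type) [Fintype m] :
    Matrix m m ℂ ≃ₗ[ℝ] EuclideanSpace ℂ (m × m) where
  toFun M := WithLp.toLp 2 (fun p => M p.1 p.2)
  invFun v := Matrix.of (fun i j => v (i, j))
  map_add' _ _ := rfl
  map_smul' _ _ := rfl
  left_inv _ := rfl
  right_inv _ := rfl

private theorem FT_norm {m : Type} [Fintype m] (M : Matrix m m ℂ) :
    ‖FT_phi m M‖ ^ 2 = ((M.conjTranspose * M).trace).re := by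
  rw [EuclideanSpace.norm_sq_eq, Fintype.sum_prod_type, Finset.sum_comm, Matrix.trace,
    Complex.re_sum]
  refine Finset.sum_congr rfl fun j _ => ?_
  rw [Matrix.diag_apply, Matrix.mul_apply, Complex.re_sum]
  refine Finset.sum_congr rfl fun i _ => ?_
  have h1 : (FT_phi m M) (i, j) = M i j := rfl
  rw [h1, Matrix.conjTranspose_apply]
  have h2 : star (M i j) * M i j = ((‖M i j‖ ^ 2 : ℝ) : ℂ) := by
    rw [Complex.star_def, mul_comm, Complex.mul_conj, Complex.normSq_eq_norm_sq]
  rw [h2, Complex.ofReal_re]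

private theorem FT_iso {m : Type} [Fintype m] [DecidableEq m] (U : unitary (Matrix m m ℂ))
    (M : Matrix m m ℂ) : ‖FT_phi m ((U : Matrix m m ℂ) * M)‖ = ‖FT_phi m M‖ := by
  have h : ‖FT_phi m ((U : Matrix m m ℂ) * M)‖ ^ 2 = ‖FT_phi m M‖ ^ 2 := by
    rw [FT_norm, FT_norm, Matrix.conjTranspose_mul]
    have hU : (U : Matrix m m ℂ).conjTranspose * (U : Matrix m m ℂ) = 1 :=
      Unitary.coe_star_mul_self U
    rw [Matrix.mul_assoc, ← Matrix.mul_assoc _ (U : Matrix m m ℂ) M, hU, Matrix.one_mul]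
  exact (pow_left_inj₀ (norm_nonneg _) (norm_nonneg _) two_ne_zero).1 h

private theorem FT_mean {K : Type} [Group K] {m : Type} [Fintype m] [DecidableEq m]
    (ρ : K →* unitary (Matrix m m ℂ)) :
    ∃ X : Matrix m m ℂ, (∀ k, (ρ k : Matrix m m ℂ) * X = X) ∧
      ∀ (L : Matrix m m ℂ →ₗ[ℝ] ℂ) (c : ℂ), (∀ k, L (ρ k : Matrix m m ℂ) = c) → L X = c := by
  let S : Set (EuclideanSpace ℂ (m × m)) := Set.range (fun k => FT_phi m (ρ k : Matrix m m ℂ))
  let C : Set (EuclideanSpace ℂ (m × m)) := closure (convexHull ℝ S)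
  have hSC : S ⊆ C := (subset_convexHull ℝ S).trans subset_closure
  have hne : C.Nonempty := ⟨_, hSC ⟨1, rfl⟩⟩
  have hconv : Convex ℝ C := (convex_convexHull ℝ S).closure
  have hcomp : IsComplete C := isClosed_closure.isComplete
  have hmin : ∀ D : Set (EuclideanSpace ℂ (m × m)), IsClosed D → Convex ℝ D → S ⊆ D → C ⊆ D :=
    fun D h1 h2 h3 => closure_minimal (convexHull_min h3 h2) h1
  obtain ⟨v, hvC, hv⟩ := exists_norm_eq_iInf_of_complete_convex hne hcomp hconv 0
  have hin := (norm_eq_iInf_iff_real_inner_le_zero hconv hvC).1 hv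
  have huniq : ∀ w ∈ C, ‖w‖ = ‖v‖ → w = v := by
    intro w hw hwn
    have h1 := hin w hw
    rw [zero_sub, inner_neg_left, inner_sub_right, real_inner_self_eq_norm_sq] at h1
    have h2 : ‖w - v‖ ^ 2 = ‖w‖ ^ 2 - 2 * inner ℝ w v + ‖v‖ ^ 2 := norm_sub_sq_real w v
    rw [real_inner_comm, hwn] at h2
    have h3 : ‖w - v‖ ^ 2 ≤ 0 := by linarith
    have h4 : ‖w - v‖ = 0 := by
      have := sq_nonneg ‖w - v‖
      exact pow_eq_zero_iff (two_ne_zero) |>.1 (le_antisymm h3 this)
    exact sub_eq_zero.1 (norm_eq_zero.1 h4)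
  refine ⟨(FT_phi m).symm v, fun k => ?_, fun L c hL => ?_⟩
  · let T : EuclideanSpace ℂ (m × m) →ₗ[ℝ] EuclideanSpace ℂ (m × m) :=
      (FT_phi m).toLinearMap ∘ₗ (LinearMap.mulLeft ℝ (ρ k : Matrix m m ℂ)) ∘ₗ
        (FT_phi m).symm.toLinearMap
    have hT : ∀ w, T w = FT_phi m ((ρ k : Matrix m m ℂ) * (FT_phi m).symm w) := fun w => rfl
    have hTc : Continuous T := T.continuous_of_finiteDimensional
    have hTC : C ⊆ T ⁻¹' C := by
      refine hmin _ (isClosed_closure.preimage hTc) (hconv.linear_preimage T) ?_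
      rintro _ ⟨l, rfl⟩
      refine hSC ⟨k * l, ?_⟩
      show FT_phi m (ρ (k * l) : Matrix m m ℂ) = T _
      rw [hT]
      simp only [LinearEquiv.symm_apply_apply, map_mul]
      rfl
    have hnorm : ‖T v‖ = ‖v‖ := by
      rw [hT, FT_iso, LinearEquiv.apply_symm_apply]
    have h := huniq (T v) (hTC hvC) hnorm
    rw [hT] at h
    have h' := congrArg (FT_phi m).symm h
    rwa [LinearEquiv.symm_apply_apply] at h'
  · let L' : EuclideanSpace ℂ (m × m) →ₗ[ℝ] ℂ := L ∘ₗ (FT_phi m).symm.toLinearMap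
    have hL' : ∀ w, L' w = L ((FT_phi m).symm w) := fun w => rfl
    have hLc : Continuous L' := L'.continuous_of_finiteDimensional
    have hLC : C ⊆ L' ⁻¹' {c} := by
      refine hmin _ (isClosed_singleton.preimage hLc)
        ((convex_singleton c).linear_preimage L') ?_
      rintro _ ⟨l, rfl⟩
      show L' _ = c
      rw [hL']
      simp only [LinearEquiv.symm_apply_apply]
      exact hL l
    exact hLC hvC

/-- The minimum norm element.  Let `C` be the closed convex hull, in the Hilbert space `EuclideanSpace ℂ (n × n) × ...` (or any other Hilbert space norm on pairs of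
matrices for which the left and right multiplications by the pairs `(β k, μ k)` are isometries), of the pairs `(β k, μ k)`, and `(A, B)` its unique element of minimal norm
(`exists_norm_eq_iInf_of_complete_convex` and uniqueness by strict convexity).  Left and right multiplications by `(β k, μ k)` preserve `C` and the norm, so they fix
`(A, B)`.  Functions which are continuous and (real) affine and agree at all the `(β k, μ k)` agree at `(A, B)`: the traces, and `M ↦ M x` for a vector fixed by all the `μ k`; and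
`M * B = B` for all `M` in the second projection of `C`, so `B * B = B`. -/
theorem exists_mean {K : Type} [Group K] {n : Type} [Fintype n] [DecidableEq n]
    (β μ : K →* unitary (Matrix n n ℂ))
    (htr : ∀ k, (β k : Matrix n n ℂ).trace = (μ k : Matrix n n ℂ).trace) :
    ∃ A B : Matrix n n ℂ, (∀ k, (β k : Matrix n n ℂ) * A = A) ∧ (∀ k, (μ k : Matrix n n ℂ) * B = B) ∧
      A.trace = B.trace ∧ B * B = B ∧
      ∀ x : n → ℂ, (∀ k, (μ k : Matrix n n ℂ).mulVec x = x) → B.mulVec x = x := by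
  have hU : ∀ k, Matrix.fromBlocks (β k : Matrix n n ℂ) 0 0 (μ k : Matrix n n ℂ) ∈
      unitary (Matrix (n ⊕ n) (n ⊕ n) ℂ) := by
    intro k
    have e1 : (β k : Matrix n n ℂ).conjTranspose * (β k : Matrix n n ℂ) = 1 :=
      Unitary.coe_star_mul_self (β k)
    have e2 : (μ k : Matrix n n ℂ).conjTranspose * (μ k : Matrix n n ℂ) = 1 :=
      Unitary.coe_star_mul_self (μ k)
    have e3 : (β k : Matrix n n ℂ) * (β k : Matrix n n ℂ).conjTranspose = 1 :=
      Unitary.coe_mul_star_self (β k)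
    have e4 : (μ k : Matrix n n ℂ) * (μ k : Matrix n n ℂ).conjTranspose = 1 :=
      Unitary.coe_mul_star_self (μ k)
    rw [Unitary.mem_iff, Matrix.star_eq_conjTranspose, Matrix.fromBlocks_conjTranspose]
    simp only [Matrix.fromBlocks_multiply, Matrix.conjTranspose_zero, Matrix.mul_zero,
      Matrix.zero_mul, add_zero, zero_add, e1, e2, e3, e4, Matrix.fromBlocks_one, and_self]
  let ρ : K →* unitary (Matrix (n ⊕ n) (n ⊕ n) ℂ) :=
    { toFun := fun k => ⟨_, hU k⟩
      map_one' := by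
        apply Subtype.ext
        show Matrix.fromBlocks (β 1 : Matrix n n ℂ) 0 0 (μ 1 : Matrix n n ℂ) = 1
        rw [map_one, map_one]
        exact Matrix.fromBlocks_one
      map_mul' := fun k l => by
        apply Subtype.ext
        show Matrix.fromBlocks (β (k * l) : Matrix n n ℂ) 0 0 (μ (k * l) : Matrix n n ℂ) =
          Matrix.fromBlocks (β k : Matrix n n ℂ) 0 0 (μ k : Matrix n n ℂ) *
          Matrix.fromBlocks (β l : Matrix n n ℂ) 0 0 (μ l : Matrix n n ℂ)
        rw [map_mul, map_mul, Matrix.fromBlocks_multiply]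
        simp }
  have hρ : ∀ k, (ρ k : Matrix (n ⊕ n) (n ⊕ n) ℂ) =
      Matrix.fromBlocks (β k : Matrix n n ℂ) 0 0 (μ k : Matrix n n ℂ) := fun k => rfl
  obtain ⟨X, hX, hL⟩ := FT_mean ρ
  have hXb : X = Matrix.fromBlocks X.toBlocks₁₁ X.toBlocks₁₂ X.toBlocks₂₁ X.toBlocks₂₂ :=
    (Matrix.fromBlocks_toBlocks X).symm
  have hA : ∀ k, (β k : Matrix n n ℂ) * X.toBlocks₁₁ = X.toBlocks₁₁ := by
    intro k
    have h := hX k
    rw [hρ] at h
    conv_lhs at h => rw [hXb, Matrix.fromBlocks_multiply]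
    have h' := congrArg Matrix.toBlocks₁₁ h
    rw [Matrix.toBlocks_fromBlocks₁₁] at h'
    simpa using h'
  have hB : ∀ k, (μ k : Matrix n n ℂ) * X.toBlocks₂₂ = X.toBlocks₂₂ := by
    intro k
    have h := hX k
    rw [hρ] at h
    conv_lhs at h => rw [hXb, Matrix.fromBlocks_multiply]
    have h' := congrArg Matrix.toBlocks₂₂ h
    rw [Matrix.toBlocks_fromBlocks₂₂] at h'
    simpa using h'
  refine ⟨X.toBlocks₁₁, X.toBlocks₂₂, hA, hB, ?_, ?_, ?_⟩
  · let L : Matrix (n ⊕ n) (n ⊕ n) ℂ →ₗ[ℝ] ℂ :=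
      { toFun := fun M => M.toBlocks₁₁.trace - M.toBlocks₂₂.trace
        map_add' := fun M N => by
          show (M.toBlocks₁₁ + N.toBlocks₁₁).trace - (M.toBlocks₂₂ + N.toBlocks₂₂).trace = _
          rw [Matrix.trace_add, Matrix.trace_add]
          ring
        map_smul' := fun c M => by
          show (c • M.toBlocks₁₁).trace - (c • M.toBlocks₂₂).trace = _
          rw [Matrix.trace_smul, Matrix.trace_smul, RingHom.id_apply, smul_sub] }
    have h := hL L 0 (fun k => by
      show Matrix.trace (ρ k : Matrix (n ⊕ n) (n ⊕ n) ℂ).toBlocks₁₁ -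
        Matrix.trace (ρ k : Matrix (n ⊕ n) (n ⊕ n) ℂ).toBlocks₂₂ = 0
      rw [hρ, Matrix.toBlocks_fromBlocks₁₁, Matrix.toBlocks_fromBlocks₂₂, htr k, sub_self])
    exact sub_eq_zero.1 h
  · ext i j
    let L : Matrix (n ⊕ n) (n ⊕ n) ℂ →ₗ[ℝ] ℂ :=
      { toFun := fun M => (M.toBlocks₂₂ * X.toBlocks₂₂) i j
        map_add' := fun M N => by
          show ((M.toBlocks₂₂ + N.toBlocks₂₂) * X.toBlocks₂₂) i j = _
          rw [Matrix.add_mul]
          rfl
        map_smul' := fun c M => by
          show ((c • M.toBlocks₂₂) * X.toBlocks₂₂) i j = _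
          rw [Matrix.smul_mul]
          rfl }
    exact hL L (X.toBlocks₂₂ i j) (fun k => by
      show ((ρ k : Matrix (n ⊕ n) (n ⊕ n) ℂ).toBlocks₂₂ * X.toBlocks₂₂) i j = _
      rw [hρ, Matrix.toBlocks_fromBlocks₂₂, hB k])
  · intro x hx
    funext i
    let L : Matrix (n ⊕ n) (n ⊕ n) ℂ →ₗ[ℝ] ℂ :=
      { toFun := fun M => (M.toBlocks₂₂.mulVec x) i
        map_add' := fun M N => by
          show ((M.toBlocks₂₂ + N.toBlocks₂₂).mulVec x) i = _
          rw [Matrix.add_mulVec]
          rfl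
        map_smul' := fun c M => by
          show ((c • M.toBlocks₂₂).mulVec x) i = _
          rw [Matrix.smul_mulVec]
          rfl }
    exact hL L (x i) (fun k => by
      show ((ρ k : Matrix (n ⊕ n) (n ⊕ n) ℂ).toBlocks₂₂.mulVec x) i = _
      rw [hρ, Matrix.toBlocks_fromBlocks₂₂, hx k])

/-- Representations with the same character: if `β` has no fixed vector then `μ` has none.  By `exists_mean`: the columns of `A` are fixed by `β`, so `A = 0`, so `B.trace = 0`; the
trace of an idempotent matrix is its rank (`LinearMap.IsIdempotentElem`, `LinearMap.IsProj.trace`, `Matrix.trace_eq...`), so `B = 0` and `x = B x = 0`. -/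
theorem fixed_contra {K : Type} [Group K] {n : Type} [Fintype n] [DecidableEq n]
    (β μ : K →* unitary (Matrix n n ℂ))
    (htr : ∀ k, (β k : Matrix n n ℂ).trace = (μ k : Matrix n n ℂ).trace)
    (hβ : ∀ x : n → ℂ, (∀ k, (β k : Matrix n n ℂ).mulVec x = x) → x = 0)
    (x : n → ℂ) (hx : ∀ k, (μ k : Matrix n n ℂ).mulVec x = x) : x = 0 := by
  obtain ⟨A, B, hA, hB, hAB, hBB, hBx⟩ := exists_mean β μ htr
  have hA0 : A = 0 := by
    apply Matrix.ext_of_mulVec_single
    intro j
    rw [Matrix.zero_mulVec]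
    apply hβ
    intro k
    rw [Matrix.mulVec_mulVec, hA k]
  have hB0 : B.trace = 0 := by
    rw [← hAB, hA0, Matrix.trace_zero]
  have hid : IsIdempotentElem (Matrix.toLin' B) := by
    show Matrix.toLin' B * Matrix.toLin' B = Matrix.toLin' B
    rw [Module.End.mul_eq_comp, ← Matrix.toLin'_mul, hBB]
  have h0 : Matrix.toLin' B = 0 := by
    apply LinearMap.IsIdempotentElem.eq_zero_of_trace_eq_zero hid
    rw [Matrix.trace_toLin'_eq, hB0]
  have hBz : B = 0 := by
    apply Matrix.toLin'.injective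
    rw [h0, map_zero]
  have := hBx x hx
  rw [hBz, Matrix.zero_mulVec] at this
  exact this.symm

end Pool.Agent.LibCSA98
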