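import Pool.Agent.LibCSA98.Defs
import Pool.Agent.LibCS44.Rigid
set_option autoImplicit false
namespace Pool.Agent.LibCSA98
open scoped Matrix.Norms.L2Operator
open Pool.Agent.LibCS44 (Flat)

/-- as `Pool.Agent.LibCS44.finite_order` (LibCS44/Rigid), with the subgroup `P` given by `hVA` -/
theorem fo_of_flat {G : Type} [Group G] (hVA : VA G) {N : Subgroup G} (hN : Flat N) :
    ∀ a ∈ N, FO a := by
  intro a ha n _ _ π
  obtain ⟨P, hP, hcomm⟩ := hVA n π
  obtain ⟨j, hj0, -, hj⟩ := Subgroup.exists_pow_mem_of_index_ne_zero hP.index_ne_zero a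
  obtain ⟨k, hk, hk2⟩ := Pool.Agent.LibCS44.exists_pow_mem_commutator (⟨a ^ j, hj⟩ : P)
    (fun b hb => hN P hP b hb ⟨a ^ j, hj⟩ (N.pow_mem ha j))
  have hker : commutator P ≤ (π.comp P.subtype).ker := by
    rw [commutator_def, Subgroup.commutator_le]
    intro x _ y _
    rw [MonoidHom.mem_ker, map_commutatorElement, commutatorElement_eq_one_iff_mul_comm]
    exact hcomm x x.2 y y.2
  have h1 := MonoidHom.mem_ker.1 (hker hk2)
  rw [map_pow] at h1
  have h2 : (π.comp P.subtype) (⟨a ^ j, hj⟩ : P) = π a ^ j := map_pow π a j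
  rw [h2, ← pow_mul] at h1
  refine ⟨j * k, Nat.mul_pos hj0 hk, ?_⟩
  have h3 := congrArg (fun u : unitary (Matrix n n ℂ) => (u : Matrix n n ℂ)) h1
  exact h3

/-- elements of finite order -/
theorem fo_of_isOfFinOrder {G : Type} [Group G] {a : G} (ha : IsOfFinOrder a) : FO a := by
  intro n _ _ π
  obtain ⟨k, hk, hk2⟩ := isOfFinOrder_iff_pow_eq_one.1 ha
  refine ⟨k, hk, ?_⟩
  have h1 : π a ^ k = 1 := by rw [← map_pow, hk2, map_one]
  exact congrArg (fun u : unitary (Matrix n n ℂ) => (u : Matrix n n ℂ)) h1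

end Pool.Agent.LibCSA98
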