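import Pool.Agent.LibCSA98.Defs
import Pool.Agent.LibCS44.PathVar
import Pool.Agent.LibCS44.Rigid
set_option autoImplicit false
namespace Pool.Agent.LibCSA98
open Topology Filter
open scoped Matrix.Norms.L2Operator
open Pool.Agent.LibCS15 (CStarStable)

/-- asymptotically equal representations of a `C*`-stable group are joined by paths of representations: `Pool.Agent.LibCS44.path_var` for the straight line
`v m g s = (1 - s) • β m g + s • μ m g`, for which `‖v (g h) - v g * v h‖ ≤ ‖β (g h) - μ (g h)‖ + ‖β g - μ g‖ + ‖β h - μ h‖` or similar -/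
theorem path_unitary {G : Type} [Group G] [Countable G] (hG : CStarStable G) (n : ℕ → Type)
    [∀ m, Fintype (n m)] [∀ m, DecidableEq (n m)] [∀ m, Nonempty (n m)]
    (β μ : ∀ m, G →* unitary (Matrix (n m) (n m) ℂ))
    (h : ∀ g, Tendsto (fun m => ‖(β m g : Matrix (n m) (n m) ℂ) -
      (μ m g : Matrix (n m) (n m) ℂ)‖) atTop (𝓝 0)) :
    ∃ (m₀ : ℕ) (R : ∀ m, G →* unitary C(unitInterval, Matrix (n m) (n m) ℂ)),
      ∀ m, m₀ ≤ m → ∀ g,
        (R m g : C(unitInterval, Matrix (n m) (n m) ℂ)) 0 = (β m g : Matrix (n m) (n m) ℂ) ∧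
        (R m g : C(unitInterval, Matrix (n m) (n m) ℂ)) 1 = (μ m g : Matrix (n m) (n m) ℂ) := by
  classical
  let v : ∀ m, G → C(unitInterval, Matrix (n m) (n m) ℂ) := fun m g =>
    ⟨fun s => (β m g : Matrix (n m) (n m) ℂ) +
      (s : ℝ) • ((μ m g : Matrix (n m) (n m) ℂ) - (β m g : Matrix (n m) (n m) ℂ)),
      continuous_const.add (continuous_subtype_val.smul continuous_const)⟩
  have hv : ∀ m g (s : unitInterval), v m g s = (β m g : Matrix (n m) (n m) ℂ) +
      (s : ℝ) • ((μ m g : Matrix (n m) (n m) ℂ) - (β m g : Matrix (n m) (n m) ℂ)) :=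
    fun _ _ _ => rfl
  have hnβ : ∀ m g, ‖(β m g : Matrix (n m) (n m) ℂ)‖ = 1 := fun m g =>
    CStarRing.norm_coe_unitary _
  have hnμ : ∀ m g, ‖(μ m g : Matrix (n m) (n m) ℂ)‖ = 1 := fun m g =>
    CStarRing.norm_coe_unitary _
  have hs0 : ∀ s : unitInterval, ‖(s : ℝ)‖ ≤ 1 := fun s => by
    rw [Real.norm_eq_abs, abs_of_nonneg s.2.1]
    exact s.2.2
  have hv0 : ∀ m g, v m g 0 = (β m g : Matrix (n m) (n m) ℂ) := by
    intro m g
    rw [hv]
    simp
  have hv1 : ∀ m g, v m g 1 = (μ m g : Matrix (n m) (n m) ℂ) := by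
    intro m g
    rw [hv]
    simp
  have hone : ∀ m, v m 1 = 1 := by
    intro m
    ext1 s
    rw [hv, map_one, map_one]
    simp
  have hstar : ∀ m g, v m g⁻¹ = star (v m g) := by
    intro m g
    ext1 s
    show v m g⁻¹ s = star (v m g s)
    rw [hv, hv, map_inv, map_inv, ← Unitary.star_eq_inv, ← Unitary.star_eq_inv, Unitary.coe_star,
      Unitary.coe_star, star_add, star_smul, star_sub, star_trivial (s : ℝ)]
  have hbd : ∀ m g h, ‖v m (g * h) - v m g * v m h‖ ≤
      ‖(β m (g * h) : Matrix (n m) (n m) ℂ) - (μ m (g * h) : Matrix (n m) (n m) ℂ)‖ +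
      ‖(β m h : Matrix (n m) (n m) ℂ) - (μ m h : Matrix (n m) (n m) ℂ)‖ +
      ‖(β m g : Matrix (n m) (n m) ℂ) - (μ m g : Matrix (n m) (n m) ℂ)‖ +
      ‖(β m g : Matrix (n m) (n m) ℂ) - (μ m g : Matrix (n m) (n m) ℂ)‖ *
        ‖(β m h : Matrix (n m) (n m) ℂ) - (μ m h : Matrix (n m) (n m) ℂ)‖ := by
    intro m g h
    rw [ContinuousMap.norm_le _ (by positivity)]
    intro s
    show ‖v m (g * h) s - v m g s * v m h s‖ ≤ _
    rw [hv, hv, hv, map_mul (β m)]
    have hab : ((β m g * β m h : unitary (Matrix (n m) (n m) ℂ)) : Matrix (n m) (n m) ℂ) =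
      (β m g : Matrix (n m) (n m) ℂ) * (β m h : Matrix (n m) (n m) ℂ) := rfl
    rw [hab]
    have ha := hnβ m g
    have hb := hnβ m h
    have hs := hs0 s
    generalize (β m g : Matrix (n m) (n m) ℂ) = a at *
    generalize (β m h : Matrix (n m) (n m) ℂ) = b at *
    generalize (μ m g : Matrix (n m) (n m) ℂ) = c at *
    generalize (μ m h : Matrix (n m) (n m) ℂ) = d at *
    generalize (μ m (g * h) : Matrix (n m) (n m) ℂ) = e at *
    generalize (s : ℝ) = t at *
    have key : a * b + t • (e - a * b) - (a + t • (c - a)) * (b + t • (d - b)) =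
        t • (e - a * b) - t • (a * (d - b)) - t • ((c - a) * b) -
          t • (t • ((c - a) * (d - b))) := by
      simp only [add_mul, mul_add, smul_mul_assoc, mul_smul_comm, smul_add]
      abel
    rw [key]
    have hsm : ∀ X : Matrix (n m) (n m) ℂ, ‖t • X‖ ≤ ‖X‖ := fun X => by
      rw [norm_smul]
      exact mul_le_of_le_one_left (norm_nonneg _) hs
    have n1 : ‖t • (e - a * b)‖ ≤ ‖a * b - e‖ := by
      rw [norm_sub_rev (a * b) e]
      exact hsm _
    have n2 : ‖t • (a * (d - b))‖ ≤ ‖b - d‖ := by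
      refine (hsm _).trans ((norm_mul_le _ _).trans ?_)
      rw [ha, one_mul, norm_sub_rev]
    have n3 : ‖t • ((c - a) * b)‖ ≤ ‖a - c‖ := by
      refine (hsm _).trans ((norm_mul_le _ _).trans ?_)
      rw [hb, mul_one, norm_sub_rev]
    have n4 : ‖t • (t • ((c - a) * (d - b)))‖ ≤ ‖a - c‖ * ‖b - d‖ := by
      refine (hsm _).trans ((hsm _).trans ((norm_mul_le _ _).trans ?_))
      rw [norm_sub_rev c a, norm_sub_rev d b]
    calc ‖t • (e - a * b) - t • (a * (d - b)) - t • ((c - a) * b) -
          t • (t • ((c - a) * (d - b)))‖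
        ≤ ‖t • (e - a * b)‖ + ‖t • (a * (d - b))‖ + ‖t • ((c - a) * b)‖ +
          ‖t • (t • ((c - a) * (d - b)))‖ := by
          refine (norm_sub_le _ _).trans (add_le_add ?_ le_rfl)
          refine (norm_sub_le _ _).trans (add_le_add ?_ le_rfl)
          exact norm_sub_le _ _
      _ ≤ _ := add_le_add (add_le_add (add_le_add n1 n2) n3) n4
  obtain ⟨m₀, R, hR⟩ := Pool.Agent.LibCS44.path_var hG n v
    (fun g => ⟨3, fun m => by
      rw [ContinuousMap.norm_le _ (by norm_num)]
      intro s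
      rw [hv]
      refine (norm_add_le _ _).trans ?_
      have h1 : ‖(s : ℝ) • ((μ m g : Matrix (n m) (n m) ℂ) - (β m g : Matrix (n m) (n m) ℂ))‖ ≤
          2 := by
        rw [norm_smul]
        refine (mul_le_of_le_one_left (norm_nonneg _) (hs0 s)).trans ?_
        refine (norm_sub_le _ _).trans ?_
        rw [hnβ, hnμ]
        norm_num
      rw [hnβ]
      linarith⟩)
    (fun m => by rw [hone]; rfl)
    (fun m => by rw [hone]; rfl)
    (by
      simp only [hone, sub_self, norm_zero]
      exact tendsto_const_nhds)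
    (fun m g h => by rw [hv0, hv0, hv0, map_mul]; rfl)
    (fun m g h => by rw [hv1, hv1, hv1, map_mul]; rfl)
    (fun g h' => by
      have t1 := (((h (g * h')).add (h h')).add (h g)).add ((h g).mul (h h'))
      simp only [add_zero, mul_zero] at t1
      exact squeeze_zero (fun m => norm_nonneg _) (fun m => hbd m g h') t1)
    (fun m g => by rw [hstar]; rfl)
    (fun m g => by rw [hstar]; rfl)
    (fun g => by
      simp only [hstar, sub_self, norm_zero]
      exact tendsto_const_nhds)
  refine ⟨m₀, R, fun m hm g => ?_⟩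
  have h2 := hR m hm g
  rw [hv0, hv1] at h2
  exact h2

/-- the trace of an element which has finite order in all finite-dimensional representations is constant along paths (as in `rigid`, LibCS44/Rigid:
`evalRep`, `countable_traces`, `const_of_countable`) -/
theorem trace_const {G : Type} [Group G] {n : Type} [Fintype n] [DecidableEq n]
    (R : G →* unitary C(unitInterval, Matrix n n ℂ)) (a : G) (ha : FO a) :
    ((R a : C(unitInterval, Matrix n n ℂ)) 0).trace =
      ((R a : C(unitInterval, Matrix n n ℂ)) 1).trace := by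
  have hcont : Continuous fun s : unitInterval =>
      ((R a : C(unitInterval, Matrix n n ℂ)) s).trace :=
    (R a : C(unitInterval, Matrix n n ℂ)).continuous.matrix_trace
  exact (Pool.Agent.LibCS44.const_of_countable ⟨_, hcont⟩ _
    Pool.Agent.LibCS44.countable_traces (fun s => by
    obtain ⟨k, hk, hk2⟩ := ha n (Pool.Agent.LibCS44.evalRep R s)
    exact ⟨_, k, hk, hk2, rfl⟩) 1).symm

end Pool.Agent.LibCSA98
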