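import Pool.Agent.LibCSA98.ToBlock
import Pool.Agent.LibCSA98.Compress
import Pool.Agent.LibCSA98.PathU
import Pool.Agent.LibCSA98.FixTrace
set_option autoImplicit false
namespace Pool.Agent.LibCSA98
open Topology Filter
open scoped Matrix.Norms.L2Operator
open Pool.Agent.LibCS15 (CStarStable)

/-- The spectral gap.  Otherwise, with an enumeration of `G` (`exists_surjective_nat`), there are `π m`, `w m` without `K`-fixed vectors and with
`∑ i, ‖(π m s w - w) i‖ ^ 2 < 1 / (m + 1)` for the first `m` elements `s`; `to_block`, `compress`, `path_unitary`, `trace_const` and `fixed_contra` (for the restrictions of `β m` and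
`μ m` to `K`, `m ≥ m₀`, and the vector `Sum.elim 1 0`). -/
theorem gap {G : Type} [Group G] [Countable G] (hG : CStarStable G) (K : Subgroup G)
    (hK : ∀ a ∈ K, FO a) :
    ∃ (S : Finset G) (ε : ℝ), 0 < ε ∧
      ∀ (n : ℕ) (π : G →* unitary (Matrix (Fin n) (Fin n) ℂ)), NoFix K π →
        ∀ w : Fin n → ℂ, ∑ i, ‖w i‖ ^ 2 = 1 →
          ∃ s ∈ S, ε ≤ ∑ i, ‖((π s : Matrix (Fin n) (Fin n) ℂ).mulVec w - w) i‖ ^ 2 := by
  classical
  by_contra hcon
  push Not at hcon
  obtain ⟨f, hf⟩ := exists_surjective_nat G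
  have h1 : ∀ m : ℕ, ∃ (n : ℕ) (π : G →* unitary (Matrix (Fin n) (Fin n) ℂ)) (w : Fin n → ℂ),
      NoFix K π ∧ ∑ i, ‖w i‖ ^ 2 = 1 ∧ ∀ s ∈ (Finset.range (m + 1)).image f,
        ∑ i, ‖((π s : Matrix (Fin n) (Fin n) ℂ).mulVec w - w) i‖ ^ 2 < 1 / ((m : ℝ) + 1) := by
    intro m
    obtain ⟨n, π, hπ, w, hw, h⟩ := hcon ((Finset.range (m + 1)).image f) (1 / ((m : ℝ) + 1))
      (by positivity)
    exact ⟨n, π, w, hπ, hw, h⟩
  choose n π w hπ hw hs using h1
  have h2 := fun m => to_block K (n m) (π m) (hπ m) (w m) (hw m)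
  choose k β hβ hβ' using h2
  have h3 : ∀ g, Tendsto (fun m => ‖(β m g : Matrix (Unit ⊕ Fin (k m + 1)) (Unit ⊕ Fin (k m + 1)) ℂ) *
      Matrix.fromBlocks 1 0 0 0 - Matrix.fromBlocks 1 0 0 0‖) atTop (𝓝 0) := by
    intro g
    obtain ⟨j, rfl⟩ := hf g
    have h4 : Tendsto (fun m : ℕ => Real.sqrt (1 / ((m : ℝ) + 1))) atTop (𝓝 0) := by
      have := (tendsto_one_div_add_atTop_nhds_zero_nat (𝕜 := ℝ)).sqrt
      simpa using this
    refine squeeze_zero' (Eventually.of_forall fun m => norm_nonneg _) ?_ h4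
    filter_upwards [eventually_ge_atTop j] with m hm
    apply Real.le_sqrt_of_sq_le
    refine (hβ' m (f j)).trans (hs m (f j) ?_).le
    exact Finset.mem_image_of_mem f (Finset.mem_range.mpr (by omega))
  obtain ⟨μ, hμ, hμ'⟩ := compress hG k β h3
  obtain ⟨m₀, R, hR⟩ := path_unitary hG (fun m => Unit ⊕ Fin (k m + 1)) β μ hμ'
  have h5 := fixed_contra (K := K) ((β m₀).comp K.subtype) ((μ m₀).comp K.subtype)
    (fun a => by
      have h6 := trace_const (R m₀) (a : G) (hK a a.2)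
      rw [(hR m₀ le_rfl a).1, (hR m₀ le_rfl a).2] at h6
      exact h6)
    (fun x hx => hβ m₀ x fun a ha => hx ⟨a, ha⟩)
    (Sum.elim (fun _ => 1) (fun _ => 0)) (fun a => hμ m₀ a)
  have h7 := congrFun h5 (Sum.inl ())
  simp at h7

end Pool.Agent.LibCSA98
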