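import Pool.Agent.LibCSA98.Defs
import Pool.Agent.LibCS44.PathVar
set_option autoImplicit false
namespace Pool.Agent.LibCSA98
open Topology Filter
open scoped Matrix.Norms.L2Operator
open Pool.Agent.LibCS15 (CStarStable)

/-- `Pool.Agent.LibCS44.lifting_var` for `D m = Matrix (n m) (n m) ℂ`, `K m = Set.univ` (see the proof of `approx_extend` in LibCS44/PathVarB) -/
theorem lift_contr {G : Type} [Group G] [Countable G] (hG : CStarStable G) (n : ℕ → Type)
    [∀ m, Fintype (n m)] [∀ m, DecidableEq (n m)] [∀ m, Nonempty (n m)]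
    (v : ∀ m, G → Matrix (n m) (n m) ℂ) (hb : ∀ m g, ‖v m g‖ ≤ 1) (h1 : ∀ m, v m 1 = 1)
    (hmul : ∀ g h, Tendsto (fun m => ‖v m (g * h) - v m g * v m h‖) atTop (𝓝 0))
    (hstar : ∀ m g, v m g⁻¹ = star (v m g)) :
    ∃ π : ∀ m, G →* unitary (Matrix (n m) (n m) ℂ),
      ∀ g, Tendsto (fun m => ‖(π m g : Matrix (n m) (n m) ℂ) - v m g‖) atTop (𝓝 0) := by
  obtain ⟨m₀, π, -, hπ⟩ := Pool.Agent.LibCS44.lifting_var hG (fun m => Matrix (n m) (n m) ℂ)
    (fun m => Set.univ) (fun m => ⟨isClosed_univ, trivial, fun _ _ _ _ => trivial,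
      fun _ _ _ => trivial, fun _ _ _ => trivial, fun _ _ _ => trivial, fun _ _ => trivial⟩) v
    (fun g => ⟨1, fun m => hb m g⟩)
    (fun m => trivial)
    (by
      simp only [h1, sub_self, norm_zero]
      exact tendsto_const_nhds)
    (fun m g h => trivial)
    hmul
    (fun m g => trivial)
    (fun g => by
      simp only [hstar, sub_self, norm_zero]
      exact tendsto_const_nhds)
  exact ⟨π, hπ⟩

/-- the same for maps to the unitary groups: `φ m 1` is close to `1` since `‖φ m 1 - φ m 1 * φ m 1‖ = ‖1 - φ m 1‖`, and `φ m g⁻¹` is close to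
`star (φ m g)` since `φ m g * φ m g⁻¹` is close to `φ m 1` -/
theorem lift_almost {G : Type} [Group G] [Countable G] (hG : CStarStable G) (n : ℕ → Type)
    [∀ m, Fintype (n m)] [∀ m, DecidableEq (n m)] [∀ m, Nonempty (n m)]
    (φ : ∀ m, G → unitary (Matrix (n m) (n m) ℂ))
    (hmul : ∀ g h, Tendsto (fun m => ‖(φ m (g * h) : Matrix (n m) (n m) ℂ) -
      (φ m g : Matrix (n m) (n m) ℂ) * (φ m h : Matrix (n m) (n m) ℂ)‖) atTop (𝓝 0)) :
    ∃ π : ∀ m, G →* unitary (Matrix (n m) (n m) ℂ),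
      ∀ g, Tendsto (fun m => ‖(π m g : Matrix (n m) (n m) ℂ) -
        (φ m g : Matrix (n m) (n m) ℂ)‖) atTop (𝓝 0) := by
  have h1 : Tendsto (fun m => ‖(φ m 1 : Matrix (n m) (n m) ℂ) - 1‖) atTop (𝓝 0) := by
    refine (hmul 1 1).congr (fun m => ?_)
    have h2 : (φ m (1 * 1) : Matrix (n m) (n m) ℂ) -
        (φ m 1 : Matrix (n m) (n m) ℂ) * (φ m 1 : Matrix (n m) (n m) ℂ) =
        (φ m 1 : Matrix (n m) (n m) ℂ) * (1 - (φ m 1 : Matrix (n m) (n m) ℂ)) := by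
      rw [mul_one (1 : G), mul_sub, mul_one]
    rw [h2, CStarRing.norm_coe_unitary_mul, norm_sub_rev]
  have h3 : ∀ g, Tendsto (fun m => ‖(φ m g⁻¹ : Matrix (n m) (n m) ℂ) -
      star (φ m g : Matrix (n m) (n m) ℂ)‖) atTop (𝓝 0) := by
    intro g
    have h4 : Tendsto (fun m => ‖(φ m (g * g⁻¹) : Matrix (n m) (n m) ℂ) -
        (φ m g : Matrix (n m) (n m) ℂ) * (φ m g⁻¹ : Matrix (n m) (n m) ℂ)‖ +
        ‖(φ m 1 : Matrix (n m) (n m) ℂ) - 1‖) atTop (𝓝 0) := by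
      have := (hmul g g⁻¹).add h1
      rwa [add_zero] at this
    refine squeeze_zero (fun m => norm_nonneg _) (fun m => ?_) h4
    have h5 : ‖(φ m g⁻¹ : Matrix (n m) (n m) ℂ) - star (φ m g : Matrix (n m) (n m) ℂ)‖ =
        ‖(φ m g : Matrix (n m) (n m) ℂ) * (φ m g⁻¹ : Matrix (n m) (n m) ℂ) - 1‖ := by
      rw [← CStarRing.norm_coe_unitary_mul (φ m g) ((φ m g⁻¹ : Matrix (n m) (n m) ℂ) -
        star (φ m g : Matrix (n m) (n m) ℂ)), mul_sub, Unitary.mul_star_self_of_mem (φ m g).2]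
    rw [h5, mul_inv_cancel g]
    have h6 : (φ m g : Matrix (n m) (n m) ℂ) * (φ m g⁻¹ : Matrix (n m) (n m) ℂ) - 1 =
        -((φ m 1 : Matrix (n m) (n m) ℂ) -
          (φ m g : Matrix (n m) (n m) ℂ) * (φ m g⁻¹ : Matrix (n m) (n m) ℂ)) +
        ((φ m 1 : Matrix (n m) (n m) ℂ) - 1) := by abel
    rw [h6]
    refine (norm_add_le _ _).trans ?_
    rw [norm_neg]
  obtain ⟨m₀, π, -, hπ⟩ := Pool.Agent.LibCS44.lifting_var hG (fun m => Matrix (n m) (n m) ℂ)
    (fun m => Set.univ) (fun m => ⟨isClosed_univ, trivial, fun _ _ _ _ => trivial,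
      fun _ _ _ => trivial, fun _ _ _ => trivial, fun _ _ _ => trivial, fun _ _ => trivial⟩)
    (fun m g => (φ m g : Matrix (n m) (n m) ℂ))
    (fun g => ⟨1, fun m => (CStarRing.norm_coe_unitary _).le⟩)
    (fun m => trivial)
    h1
    (fun m g h => trivial)
    hmul
    (fun m g => trivial)
    h3
  exact ⟨π, hπ⟩

end Pool.Agent.LibCSA98
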