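import Pool.Agent.LibCSA98.LiftU
set_option autoImplicit false
namespace Pool.Agent.LibCSA98
open Topology Filter
open scoped Matrix.Norms.L2Operator
open Pool.Agent.LibCS15 (CStarStable)

/-- A `C*`-stable MF group is maximally almost periodic.  Let `g ≠ 1` and `δ` be as in the definition of `MF`; enumerate `G` (`exists_surjective_nat`), let `F m` be the
finite set of the first `m` elements and `ε m = 1 / (m + 1)`; `lift_almost` gives representations `π m` with `‖π m g - φ m g‖ → 0`, so `π m g ≠ 1` for large `m`.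
(`n m ≠ 0` because `δ ≤ ‖φ g - 1‖`; use `n m = Fin (k m)` with `k m ≠ 0`.) -/
theorem map_of_mf {G : Type} [Group G] [Countable G] (hG : CStarStable G) (hMF : MF G) :
    MAP G := by
  classical
  intro g hg
  obtain ⟨δ, hδ, hφ⟩ := hMF g hg
  obtain ⟨e, he⟩ := exists_surjective_nat G
  have hex : ∀ m : ℕ, ∃ (n : ℕ) (φ : G → unitary (Matrix (Fin n) (Fin n) ℂ)),
      (∀ x ∈ (Finset.range (m + 1)).image e, ∀ y ∈ (Finset.range (m + 1)).image e,
        ‖(φ (x * y) : Matrix (Fin n) (Fin n) ℂ) -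
          (φ x : Matrix (Fin n) (Fin n) ℂ) * (φ y : Matrix (Fin n) (Fin n) ℂ)‖ ≤
            1 / ((m : ℝ) + 1)) ∧
      δ ≤ ‖(φ g : Matrix (Fin n) (Fin n) ℂ) - 1‖ := fun m =>
    hφ _ _ (by positivity)
  choose n φ hmul hdist using hex
  have hne : ∀ m, Nonempty (Fin (n m)) := by
    intro m
    by_contra hcon
    have : IsEmpty (Fin (n m)) := not_nonempty_iff.mp hcon
    have h0 : ((φ m g : Matrix (Fin (n m)) (Fin (n m)) ℂ) - 1) = 0 := Subsingleton.elim _ _
    have h1 := hdist m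
    rw [h0, norm_zero] at h1
    linarith
  have hlim : ∀ g h, Tendsto (fun m => ‖(φ m (g * h) : Matrix (Fin (n m)) (Fin (n m)) ℂ) -
      (φ m g : Matrix (Fin (n m)) (Fin (n m)) ℂ) *
        (φ m h : Matrix (Fin (n m)) (Fin (n m)) ℂ)‖) atTop (𝓝 0) := by
    intro x y
    obtain ⟨i, rfl⟩ := he x
    obtain ⟨j, rfl⟩ := he y
    refine squeeze_zero' (Eventually.of_forall fun m => norm_nonneg _) ?_
      (tendsto_one_div_add_atTop_nhds_zero_nat (𝕜 := ℝ))
    filter_upwards [eventually_ge_atTop (max i j)] with m hm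
    apply hmul m
    · exact Finset.mem_image_of_mem e (Finset.mem_range.mpr (by omega))
    · exact Finset.mem_image_of_mem e (Finset.mem_range.mpr (by omega))
  obtain ⟨π, hπ⟩ := lift_almost hG (fun m => Fin (n m)) φ hlim
  have h2 := hπ g
  have h3 : ∀ᶠ m in atTop, ‖(π m g : Matrix (Fin (n m)) (Fin (n m)) ℂ) -
      (φ m g : Matrix (Fin (n m)) (Fin (n m)) ℂ)‖ < δ := h2.eventually_lt_const hδ
  obtain ⟨m, hm⟩ := h3.exists
  refine ⟨n m, π m, fun h4 => ?_⟩
  rw [h4] at hm
  have h5 := hdist m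
  rw [OneMemClass.coe_one, norm_sub_rev] at hm
  linarith

end Pool.Agent.LibCSA98
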