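import Pool.Agent.LibCSA98.Defs
set_option autoImplicit false
namespace Pool.Agent.LibCSA98
open scoped Matrix.Norms.L2Operator

/-- the matrix of the left translation by `p` -/
private noncomputable def mlM {P : Type} [Group P] {n : ℕ} (e : P ≃ Fin n) (p : P) :
    Matrix (Fin n) (Fin n) ℂ :=
  open scoped Classical in Matrix.of fun i j => if e.symm i = p * e.symm j then 1 else 0

private lemma mlM_mul {P : Type} [Group P] {n : ℕ} (e : P ≃ Fin n) (p q : P) :
    mlM e (p * q) = mlM e p * mlM e q := by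
  classical
  ext i j
  rw [Matrix.mul_apply]
  simp only [mlM, Matrix.of_apply]
  rw [Finset.sum_eq_single (e (q * e.symm j))]
  · simp only [Equiv.symm_apply_apply, if_true, mul_one, mul_assoc]
  · intro k _ hk
    have h1 : e.symm k ≠ q * e.symm j := by
      intro h
      exact hk (by rw [← h, Equiv.apply_symm_apply])
    rw [if_neg h1, mul_zero]
  · intro h
    exact absurd (Finset.mem_univ _) h

private lemma mlM_one {P : Type} [Group P] {n : ℕ} (e : P ≃ Fin n) : mlM e 1 = 1 := by
  classical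
  ext i j
  simp only [mlM, Matrix.of_apply, one_mul, Matrix.one_apply, EmbeddingLike.apply_eq_iff_eq]

private lemma mlM_star {P : Type} [Group P] {n : ℕ} (e : P ≃ Fin n) (p : P) :
    star (mlM e p) = mlM e p⁻¹ := by
  classical
  ext i j
  simp only [mlM, Matrix.star_apply, Matrix.of_apply]
  have h : (e.symm j = p * e.symm i) ↔ (e.symm i = p⁻¹ * e.symm j) := by
    constructor
    · intro h
      rw [h, inv_mul_cancel_left]
    · intro h
      rw [h, mul_inv_cancel_left]
  by_cases h1 : e.symm j = p * e.symm i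
  · rw [if_pos h1, if_pos (h.1 h1), star_one]
  · rw [if_neg h1, if_neg (fun h2 => h1 (h.2 h2)), star_zero]

private lemma mlM_mem {P : Type} [Group P] {n : ℕ} (e : P ≃ Fin n) (p : P) :
    mlM e p ∈ unitary (Matrix (Fin n) (Fin n) ℂ) := by
  rw [Unitary.mem_iff, mlM_star, ← mlM_mul, ← mlM_mul]
  simp [mlM_one]

private lemma mlM_norm {P : Type} [Group P] {n : ℕ} (e : P ≃ Fin n) (p : P) (hp : p ≠ 1) :
    1 ≤ ‖mlM e p - 1‖ := by
  classical
  set v : EuclideanSpace ℂ (Fin n) := EuclideanSpace.single (e 1) 1 with hv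
  have h1 := Matrix.l2_opNorm_mulVec (mlM e p - 1) v
  have h2 : ‖v‖ = 1 := by rw [hv]; simp
  rw [h2, mul_one] at h1
  refine le_trans ?_ (le_trans (PiLp.norm_apply_le ((EuclideanSpace.equiv (Fin n) ℂ).symm
    ((mlM e p - 1).mulVec v.ofLp)) (e p)) h1)
  have h4 : ((EuclideanSpace.equiv (Fin n) ℂ).symm ((mlM e p - 1).mulVec v.ofLp)) (e p) = 1 := by
    show ((mlM e p - 1).mulVec v.ofLp) (e p) = 1
    have h5 : v.ofLp = Pi.single (e 1) (1 : ℂ) := by
      rw [hv]
      rfl
    rw [h5, Matrix.mulVec_single_one]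
    simp only [Matrix.col_apply, Matrix.sub_apply, mlM, Matrix.of_apply, Equiv.symm_apply_apply,
      mul_one, if_true]
    rw [Matrix.one_apply_ne (fun h => hp (e.injective h)), sub_zero]
  rw [h4, norm_one]

/-- LEF groups are MF: for `g ≠ 1` and `F` take `f : G → P` for the set `F ∪ F * F ∪ {1, g}` and the regular representation of `P` (permutation matrices, reindexed by `Fin (Nat.card P)`); `f 1 = 1`
because `f 1 * f 1 = f 1`, so `f g ≠ 1` and `‖λ (f g) - 1‖ ≥ 1` (look at the entry of the column `1` and the row `f g`), `δ = 1` -/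
theorem mf_of_lef {G : Type} [Group G] (h : LEF G) : MF G := by
  classical
  intro g hg
  refine ⟨1, one_pos, fun F ε hε => ?_⟩
  obtain ⟨P, _, _, f, hf, hinj⟩ := h (insert 1 (insert g F))
  have m1 : (1 : G) ∈ insert 1 (insert g F) := Finset.mem_insert_self _ _
  have mg : g ∈ insert 1 (insert g F) := Finset.mem_insert_of_mem (Finset.mem_insert_self _ _)
  have mF : ∀ x ∈ F, x ∈ insert 1 (insert g F) := fun x hx =>
    Finset.mem_insert_of_mem (Finset.mem_insert_of_mem hx)
  have h1 : f 1 = 1 := by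
    have := hf 1 m1 1 m1
    rw [mul_one] at this
    exact (mul_eq_left (a := f 1) (b := f 1)).1 this.symm
  have h2 : f g ≠ 1 := by
    intro h3
    exact hg (hinj (Finset.mem_coe.2 mg) (Finset.mem_coe.2 m1) (by rw [h3, h1]))
  have e := Finite.equivFin P
  refine ⟨Nat.card P, fun x => ⟨mlM e (f x), mlM_mem e _⟩, ?_, ?_⟩
  · intro x hx y hy
    show ‖mlM e (f (x * y)) - mlM e (f x) * mlM e (f y)‖ ≤ ε
    rw [hf x (mF x hx) y (mF y hy), mlM_mul, sub_self, norm_zero]
    exact hε.le
  · exact mlM_norm e _ h2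

end Pool.Agent.LibCSA98
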