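import Pool.Agent.LibCSA98.Defs
set_option autoImplicit false
namespace Pool.Agent.LibCSA98

private theorem rc_l1_eq {X : Type} (f : X →₀ ℝ) (s : Finset X) (hs : f.support ⊆ s) :
    l1 f = ∑ x ∈ s, |f x| :=
  Finsupp.sum_of_support_subset f hs _ (by simp)

private theorem rc_l1_zero {X : Type} : l1 (0 : X →₀ ℝ) = 0 := by
  simp [l1]

private theorem rc_l1_add {X : Type} (f g : X →₀ ℝ) : l1 (f + g) ≤ l1 f + l1 g := by
  classical
  have h1 : (f + g).support ⊆ f.support ∪ g.support := Finsupp.support_add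
  rw [rc_l1_eq (f + g) (f.support ∪ g.support) h1,
    rc_l1_eq f (f.support ∪ g.support) Finset.subset_union_left,
    rc_l1_eq g (f.support ∪ g.support) Finset.subset_union_right, ← Finset.sum_add_distrib]
  exact Finset.sum_le_sum fun x _ => by simpa using abs_add_le (f x) (g x)

private theorem rc_l1_smul {X : Type} (c : ℝ) (f : X →₀ ℝ) : l1 (c • f) = |c| * l1 f := by
  rw [rc_l1_eq (c • f) f.support Finsupp.support_smul, rc_l1_eq f f.support subset_rfl,
    Finset.mul_sum]
  exact Finset.sum_congr rfl fun x _ => by simp [abs_mul]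

private theorem rc_l1_neg {X : Type} (f : X →₀ ℝ) : l1 (-f) = l1 f := by
  have := rc_l1_smul (-1) f
  simpa using this

private theorem rc_l1_sub {X : Type} (f g : X →₀ ℝ) : l1 (f - g) ≤ l1 f + l1 g := by
  rw [sub_eq_add_neg]
  exact (rc_l1_add _ _).trans (by rw [rc_l1_neg])

private theorem rc_l1_sum {X ι : Type} (s : Finset ι) (g : ι → X →₀ ℝ) :
    l1 (∑ i ∈ s, g i) ≤ ∑ i ∈ s, l1 (g i) := by
  classical
  induction s using Finset.induction_on with
  | empty => simp [rc_l1_zero]
  | insert a s ha ih =>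
    rw [Finset.sum_insert ha, Finset.sum_insert ha]
    exact (rc_l1_add _ _).trans (by linarith)

private theorem rc_l1_single {X : Type} (x : X) (c : ℝ) : l1 (Finsupp.single x c) = |c| := by
  simp [l1, Finsupp.sum_single_index]

private theorem rc_l1_map {X Y : Type} (φ : X → Y) (f : X →₀ ℝ) :
    l1 (f.mapDomain φ) ≤ l1 f := by
  refine (rc_l1_sum f.support fun x => Finsupp.single (φ x) (f x)).trans ?_
  rw [rc_l1_eq f f.support subset_rfl]
  exact Finset.sum_le_sum fun x _ => by rw [rc_l1_single]

private noncomputable def rc_tot {X : Type} : (X →₀ ℝ) →ₗ[ℝ] ℝ :=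
  Finsupp.linearCombination ℝ fun _ => (1 : ℝ)

private theorem rc_tot_eq {X : Type} (f : X →₀ ℝ) (hf : ∀ x, 0 ≤ f x) : rc_tot f = l1 f := by
  rw [rc_tot, Finsupp.linearCombination_apply, l1]
  exact Finset.sum_congr rfl fun x _ => by simp [abs_of_nonneg (hf x)]

private theorem rc_tot_map {X Y : Type} (φ : X → Y) (f : X →₀ ℝ) :
    rc_tot (f.mapDomain φ) = rc_tot f := by
  rw [rc_tot, rc_tot, Finsupp.linearCombination_mapDomain]
  rfl

private theorem rc_map_nonneg {X Y : Type} (φ : X → Y) (f : X →₀ ℝ) (hf : ∀ x, 0 ≤ f x)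
    (y : Y) : 0 ≤ f.mapDomain φ y := by
  classical
  rw [Finsupp.mapDomain, Finsupp.sum_apply]
  refine Finset.sum_nonneg fun n _ => ?_
  change 0 ≤ (Finsupp.single (φ n) (f n)) y
  rw [Finsupp.single_apply]
  split_ifs
  · exact hf n
  · exact le_rfl

/-- the uniform function on a nonempty finite set -/
theorem reiter_of_folner {G : Type} [Group G] (h : Folner G) : Reiter G := by
  classical
  intro S ε hε
  obtain ⟨F, hF, hFS⟩ := h S (ε / 2) (half_pos hε)
  have hc : (0 : ℝ) < F.card := by exact_mod_cast hF.card_pos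
  let c : ℝ := (F.card : ℝ)⁻¹
  have hc0 : 0 < c := inv_pos.2 hc
  let f : G →₀ ℝ := ∑ x ∈ F, Finsupp.single x c
  have hf0 : ∀ x, 0 ≤ f x := by
    intro x
    simp only [f]
    rw [Finsupp.finsetSum_apply]
    refine Finset.sum_nonneg fun y _ => ?_
    rw [Finsupp.single_apply]
    split_ifs
    · exact hc0.le
    · exact le_rfl
  refine ⟨f, hf0, ?_, ?_⟩
  · rw [← rc_tot_eq f hf0]
    simp only [f, map_sum]
    have : ∀ x ∈ F, rc_tot (Finsupp.single x c) = c := by
      intro x _
      simp [rc_tot, Finsupp.linearCombination_single]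
    rw [Finset.sum_congr rfl this, Finset.sum_const, nsmul_eq_mul]
    exact mul_inv_cancel₀ hc.ne'
  · intro s hs
    have e1 : f.mapDomain (s * ·) = ∑ x ∈ F, Finsupp.single (s * x) c := by
      have := map_sum (Finsupp.lmapDomain ℝ ℝ (s * · : G → G)) (fun x => Finsupp.single x c) F
      simp only [Finsupp.lmapDomain_apply, Finsupp.mapDomain_single] at this
      exact this
    have e2 : ∑ x ∈ F.filter (fun x => s * x ∈ F), Finsupp.single (s * x) c =
        ∑ y ∈ F.filter (fun y => s⁻¹ * y ∈ F), Finsupp.single y c := by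
      refine Finset.sum_bij (fun x _ => s * x) ?_ ?_ ?_ ?_
      · intro x hx
        rw [Finset.mem_filter] at hx ⊢
        exact ⟨hx.2, by simpa using hx.1⟩
      · intro x _ y _ hxy
        exact mul_left_cancel hxy
      · intro y hy
        rw [Finset.mem_filter] at hy
        exact ⟨s⁻¹ * y, Finset.mem_filter.2 ⟨hy.2, by simpa using hy.1⟩, by simp⟩
      · intro x _
        rfl
    have e3 : f.mapDomain (s * ·) - f =
        (∑ x ∈ F.filter (fun x => ¬ s * x ∈ F), Finsupp.single (s * x) c) -
        ∑ y ∈ F.filter (fun y => ¬ s⁻¹ * y ∈ F), Finsupp.single y c := by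
      rw [e1]
      simp only [f]
      rw [← Finset.sum_filter_add_sum_filter_not F (fun x => s * x ∈ F)
        (fun x => Finsupp.single (s * x) c),
        ← Finset.sum_filter_add_sum_filter_not F (fun y => s⁻¹ * y ∈ F)
        (fun y => Finsupp.single y c), e2]
      abel
    have hcard : (F.filter (fun x => s * x ∈ F)).card =
        (F.filter (fun y => s⁻¹ * y ∈ F)).card := by
      refine Finset.card_bij (fun x _ => s * x) ?_ ?_ ?_
      · intro x hx
        rw [Finset.mem_filter] at hx ⊢
        exact ⟨hx.2, by simpa using hx.1⟩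
      · intro x _ y _ hxy
        exact mul_left_cancel hxy
      · intro y hy
        rw [Finset.mem_filter] at hy
        exact ⟨s⁻¹ * y, Finset.mem_filter.2 ⟨hy.2, by simpa using hy.1⟩, by simp⟩
    have hcard2 : (F.filter (fun y => ¬ s⁻¹ * y ∈ F)).card =
        (F.filter (fun x => ¬ s * x ∈ F)).card := by
      have h1 := Finset.card_filter_add_card_filter_not (s := F) (fun x => s * x ∈ F)
      have h2 := Finset.card_filter_add_card_filter_not (s := F) (fun y => s⁻¹ * y ∈ F)
      omega
    have hset : Set.ncard {x : G | x ∈ F ∧ s * x ∉ F} =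
        (F.filter (fun x => ¬ s * x ∈ F)).card := by
      rw [← Set.ncard_coe_finset]
      congr 1
      ext x
      simp
    have hb := hFS s hs
    rw [hset] at hb
    have b1 : l1 (∑ x ∈ F.filter (fun x => ¬ s * x ∈ F), Finsupp.single (s * x) c) ≤
        (F.filter (fun x => ¬ s * x ∈ F)).card * c := by
      refine (rc_l1_sum _ _).trans ?_
      rw [Finset.sum_congr rfl (fun x _ => by rw [rc_l1_single, abs_of_pos hc0]),
        Finset.sum_const, nsmul_eq_mul]
    have b2 : l1 (∑ y ∈ F.filter (fun y => ¬ s⁻¹ * y ∈ F), Finsupp.single y c) ≤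
        (F.filter (fun x => ¬ s * x ∈ F)).card * c := by
      refine (rc_l1_sum _ _).trans ?_
      rw [Finset.sum_congr rfl (fun x _ => by rw [rc_l1_single, abs_of_pos hc0]),
        Finset.sum_const, nsmul_eq_mul, hcard2]
    rw [e3]
    refine (rc_l1_sub _ _).trans ?_
    have b3 : ((F.filter (fun x => ¬ s * x ∈ F)).card : ℝ) * c ≤ ε / 2 := by
      have := mul_le_mul_of_nonneg_right hb hc0.le
      calc ((F.filter (fun x => ¬ s * x ∈ F)).card : ℝ) * c ≤ ε / 2 * F.card * c := this
        _ = ε / 2 := by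
          rw [mul_assoc, mul_inv_cancel₀ hc.ne', mul_one]
    linarith

theorem folner_of_finite {G : Type} [Group G] [Finite G] : Folner G := by
  classical
  have := Fintype.ofFinite G
  intro S ε hε
  refine ⟨Finset.univ, ⟨1, Finset.mem_univ _⟩, fun s _ => ?_⟩
  have : {x : G | x ∈ (Finset.univ : Finset G) ∧ s * x ∉ (Finset.univ : Finset G)} = ∅ := by
    ext x
    simp
  rw [this, Set.ncard_empty, Nat.cast_zero]
  positivity

/-- Abelian groups.  For `S = {s₁, ..., s_r}` take the product (convolution) of the uniform distributions on `{s_i ^ j | 0 ≤ j < L}`, i.e. the image of the uniform distribution on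
`Fin r → Fin L` (or `S → Fin L`) under `j ↦ ∏ i, s_i ^ (j i)`: translation by `s_i` changes it by at most `2 / L` in the `ℓ¹`-norm. -/
theorem reiter_of_comm {G : Type} [Group G] (h : ∀ a b : G, a * b = b * a) : Reiter G := by
  classical
  intro S
  induction S using Finset.induction_on with
  | empty =>
    intro ε _
    exact ⟨Finsupp.single 1 1, fun x => by
      rw [Finsupp.single_apply]
      split_ifs
      · exact zero_le_one
      · exact le_rfl, by rw [rc_l1_single, abs_one], by simp⟩
  | insert a S ha ih =>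
    intro ε hε
    obtain ⟨f, hf0, hf1, hfS⟩ := ih ε hε
    obtain ⟨L, hL⟩ := exists_nat_gt (2 / ε)
    have hL0 : (0 : ℝ) < L := lt_trans (by positivity) hL
    let T : G → (G →₀ ℝ) →ₗ[ℝ] (G →₀ ℝ) := fun s => Finsupp.lmapDomain ℝ ℝ (s * ·)
    have hT : ∀ s u, T s u = u.mapDomain (s * ·) := fun s u => rfl
    have hTT : ∀ s t u, T s (T t u) = T (s * t) u := by
      intro s t u
      rw [hT, hT, hT, ← Finsupp.mapDomain_comp]
      congr 1
      funext x
      exact (mul_assoc s t x).symm
    have hTle : ∀ s u, l1 (T s u) ≤ l1 u := fun s u => rc_l1_map _ _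
    let g : G →₀ ℝ := (L : ℝ)⁻¹ • ∑ j ∈ Finset.range L, T (a ^ j) f
    have hg0 : ∀ x, 0 ≤ g x := by
      intro x
      simp only [g]
      rw [Finsupp.smul_apply, Finsupp.finsetSum_apply, smul_eq_mul]
      refine mul_nonneg (inv_nonneg.2 hL0.le) (Finset.sum_nonneg fun j _ => ?_)
      exact rc_map_nonneg _ _ hf0 x
    refine ⟨g, hg0, ?_, ?_⟩
    · rw [← rc_tot_eq g hg0]
      simp only [g, map_smul, map_sum]
      have : ∀ j ∈ Finset.range L, rc_tot (T (a ^ j) f) = 1 := by
        intro j _
        rw [hT, rc_tot_map, rc_tot_eq f hf0, hf1]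
      rw [Finset.sum_congr rfl this, Finset.sum_const, Finset.card_range, nsmul_eq_mul, mul_one,
        smul_eq_mul]
      exact inv_mul_cancel₀ hL0.ne'
    · intro s hs
      rw [← hT]
      have e0 : T s g - g = (L : ℝ)⁻¹ • ∑ j ∈ Finset.range L, (T (a ^ j) (T s f - f)) := by
        simp only [g, map_smul, map_sum]
        rw [← smul_sub, ← Finset.sum_sub_distrib]
        congr 1
        refine Finset.sum_congr rfl fun j _ => ?_
        rw [map_sub, hTT, hTT, h s (a ^ j)]
      rcases Finset.mem_insert.1 hs with rfl | hs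
      · have e1 : ∑ j ∈ Finset.range L, (T (s ^ j) (T s f - f)) = T (s ^ L) f - T 1 f := by
          have e2 : ∀ j ∈ Finset.range L, T (s ^ j) (T s f - f) =
              T (s ^ (j + 1)) f - T (s ^ j) f := by
            intro j _
            rw [map_sub, hTT, pow_succ]
          rw [Finset.sum_congr rfl e2, Finset.sum_range_sub (fun j => T (s ^ j) f), pow_zero]
        rw [e0, e1, rc_l1_smul, abs_of_pos (inv_pos.2 hL0)]
        have b1 : l1 (T (s ^ L) f - T 1 f) ≤ 2 := by
          refine (rc_l1_sub _ _).trans ?_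
          have := hTle (s ^ L) f
          have := hTle 1 f
          linarith
        calc (L : ℝ)⁻¹ * l1 (T (s ^ L) f - T 1 f) ≤ (L : ℝ)⁻¹ * 2 :=
              mul_le_mul_of_nonneg_left b1 (inv_nonneg.2 hL0.le)
          _ ≤ ε := by
            rw [inv_mul_le_iff₀ hL0]
            rw [div_lt_iff₀ hε] at hL
            linarith
      · rw [e0, rc_l1_smul, abs_of_pos (inv_pos.2 hL0)]
        have b1 : l1 (∑ j ∈ Finset.range L, (T (a ^ j) (T s f - f))) ≤ L * ε := by
          refine (rc_l1_sum _ _).trans ?_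
          refine (Finset.sum_le_sum fun j _ => (hTle _ _).trans (hfS s hs)).trans ?_
          rw [Finset.sum_const, Finset.card_range, nsmul_eq_mul]
        calc (L : ℝ)⁻¹ * l1 (∑ j ∈ Finset.range L, (T (a ^ j) (T s f - f))) ≤
              (L : ℝ)⁻¹ * (L * ε) := mul_le_mul_of_nonneg_left b1 (inv_nonneg.2 hL0.le)
          _ = ε := by rw [← mul_assoc, inv_mul_cancel₀ hL0.ne', one_mul]

end Pool.Agent.LibCSA98
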