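import Pool.Agent.LibCSA98.ReiterExt
import Pool.Agent.LibCSA98.ReiterComm
import Pool.Agent.LibCS15.DefsEA
set_option autoImplicit false
namespace Pool.Agent.LibCSA98

private theorem REA_l1_map {X Y : Type} (φ : X → Y) (hφ : Function.Injective φ) (f : X →₀ ℝ) :
    l1 (f.mapDomain φ) = l1 f := by
  unfold l1
  rw [Finsupp.sum_mapDomain_index_inj hφ]

private theorem REA_union {G : Type} [Group G] (ι : Type) (K : ι → Subgroup G)
    (hdir : ∀ i j, ∃ k, K i ≤ K k ∧ K j ≤ K k) (htop : ∀ g : G, ∃ i, g ∈ K i)
    (hK : ∀ i, Reiter (K i)) : Reiter G := by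
  classical
  intro S ε hε
  have hS : ∃ i, ∀ s ∈ S, s ∈ K i := by
    induction S using Finset.induction_on with
    | empty =>
      obtain ⟨i, -⟩ := htop 1
      exact ⟨i, by simp⟩
    | insert a T _ ih =>
      obtain ⟨i, hi⟩ := ih
      obtain ⟨j, hj⟩ := htop a
      obtain ⟨k, hik, hjk⟩ := hdir i j
      refine ⟨k, fun s hs => ?_⟩
      rcases Finset.mem_insert.1 hs with h | h
      · rw [h]; exact hjk hj
      · exact hik (hi s h)
  obtain ⟨i, hi⟩ := hS
  obtain ⟨f, hf0, hf1, hf2⟩ := hK i (S.subtype (· ∈ K i)) ε hε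
  have hinj : Function.Injective ((K i).subtype) := (K i).subtype_injective
  refine ⟨f.mapDomain (K i).subtype, ?_, ?_, ?_⟩
  · intro x
    by_cases hx : x ∈ Set.range ((K i).subtype)
    · obtain ⟨y, rfl⟩ := hx
      rw [Finsupp.mapDomain_apply hinj]
      exact hf0 y
    · rw [Finsupp.mapDomain_notin_range _ _ hx]
  · rw [REA_l1_map _ hinj, hf1]
  · intro s hs
    have hsK : s ∈ K i := hi s hs
    have e1 : (f.mapDomain (K i).subtype).mapDomain (s * ·) =
        (f.mapDomain ((⟨s, hsK⟩ : K i) * ·)).mapDomain (K i).subtype := by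
      rw [← Finsupp.mapDomain_comp, ← Finsupp.mapDomain_comp]
      rfl
    have e2 : (f.mapDomain ((⟨s, hsK⟩ : K i) * ·)).mapDomain (K i).subtype -
        f.mapDomain (K i).subtype =
        (f.mapDomain ((⟨s, hsK⟩ : K i) * ·) - f).mapDomain (K i).subtype := by
      have := (Finsupp.mapDomain.addMonoidHom (M := ℝ) (K i).subtype).map_sub
        (f.mapDomain ((⟨s, hsK⟩ : K i) * ·)) f
      exact this.symm
    rw [e1, e2, REA_l1_map _ hinj]
    exact hf2 ⟨s, hsK⟩ (by simpa using hs)

/-- elementary amenable groups satisfy Reiter's condition: induction on `ElementaryAmenable`; for a directed union, a finite set is contained in one of the subgroups `K i`; push the Reiter function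
forward by the inclusion -/
theorem reiter_of_ea {G : Type} [Group G] (h : Pool.Agent.LibCS15.ElementaryAmenable G) :
    Reiter G := by
  induction h with
  | of_finite G => exact reiter_of_folner folner_of_finite
  | of_comm G h => exact reiter_of_comm h
  | of_extension G K _ _ ih1 ih2 => exact reiter_ext K ih1 ih2
  | of_union G ι K hdir htop _ ih => exact REA_union ι K hdir htop ih

end Pool.Agent.LibCSA98
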