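import Pool.Agent.LibCSA98.Conv
import Pool.Agent.LibCS15.NearEA
set_option autoImplicit false
namespace Pool.Agent.LibCSA98
open scoped Matrix.Norms.L2Operator

private theorem vaea_finiteIndex {G : Type} [Group G] {α : Type} (P : Subgroup G) (F : G → α)
    (hF : (Set.range F).Finite) (h : ∀ a b, F a = F b → a⁻¹ * b ∈ P) : P.FiniteIndex := by
  have : Finite (Set.range F) := hF.to_subtype
  have hfin : Finite (G ⧸ P) := by
    refine Finite.of_injective (fun q : G ⧸ P => (⟨F q.out, q.out, rfl⟩ : Set.range F)) ?_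
    intro p q hpq
    have h1 : F p.out = F q.out := congrArg Subtype.val hpq
    have h2 := h _ _ h1
    rw [← p.out_eq, ← q.out_eq]
    exact QuotientGroup.eq.2 h2
  exact Subgroup.finiteIndex_of_finite_quotient

/-- unitary matrices of an elementary amenable group within `1/4` of `1` commute -/
theorem near_commute_ea {G : Type} [Group G] (h : Pool.Agent.LibCS15.ElementaryAmenable G)
    {n : Type} [Fintype n] [DecidableEq n] (π : G →* unitary (Matrix n n ℂ)) (a b : G)
    (ha : ‖(π a : Matrix n n ℂ) - 1‖ < 1 / 4) (hb : ‖(π b : Matrix n n ℂ) - 1‖ < 1 / 4) :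
    π a * π b = π b * π a := by
  classical
  let Φ := Matrix.toEuclideanCLM (n := n) (𝕜 := ℂ)
  let π' : G →* unitary (EuclideanSpace ℂ n →L[ℂ] EuclideanSpace ℂ n) := 
    { toFun := fun g => ⟨Φ (π g : Matrix n n ℂ), Unitary.map_mem Φ (π g).2⟩
      map_one' := by
        apply Subtype.ext
        show Φ (π 1 : Matrix n n ℂ) = 1
        rw [map_one π]
        exact map_one Φ
      map_mul' := fun a b => by
        apply Subtype.ext
        show Φ (π (a * b) : Matrix n n ℂ) = Φ (π a : Matrix n n ℂ) * Φ (π b : Matrix n n ℂ)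
        rw [map_mul π]
        exact map_mul Φ _ _ }
  have hπ' : ∀ g, ((π' g : unitary (EuclideanSpace ℂ n →L[ℂ] EuclideanSpace ℂ n)) : EuclideanSpace ℂ n →L[ℂ] EuclideanSpace ℂ n) = Φ (π g : Matrix n n ℂ) := fun g => rfl
  have hnorm : ∀ A : Matrix n n ℂ, ‖Φ A‖ = ‖A‖ := fun A => (Matrix.l2_opNorm_def A).symm
  have h1 := Pool.Agent.LibCS15.ea_near_commute h π' a b
      (by rw [hπ', ← map_one Φ, ← map_sub, hnorm]; exact ha)
      (by rw [hπ', ← map_one Φ, ← map_sub, hnorm]; exact hb)
  have h2 := congrArg (fun u : unitary (EuclideanSpace ℂ n →L[ℂ] EuclideanSpace ℂ n) =>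
      (u : EuclideanSpace ℂ n →L[ℂ] EuclideanSpace ℂ n)) h1
  have h3 : Φ ((π a : Matrix n n ℂ) * (π b : Matrix n n ℂ)) =
        Φ ((π b : Matrix n n ℂ) * (π a : Matrix n n ℂ)) := by
      rw [map_mul, map_mul]
      exact h2
  apply Subtype.ext
  exact Φ.injective h3

/-- if the elements within `1/4` of `1` commute then the image is virtually abelian -/
theorem va_of_near {G : Type} [Group G] {n : Type} [Fintype n] [DecidableEq n]
    (π : G →* unitary (Matrix n n ℂ))
    (h : ∀ a b, ‖(π a : Matrix n n ℂ) - 1‖ < 1 / 4 → ‖(π b : Matrix n n ℂ) - 1‖ < 1 / 4 →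
      π a * π b = π b * π a) :
    ∃ P : Subgroup G, P.Normal ∧ P.FiniteIndex ∧ ∀ x ∈ P, ∀ y ∈ P, π x * π y = π y * π x := by
  classical
  let T : Set G := {g | ‖(π g : Matrix n n ℂ) - 1‖ < 1 / 4}
  have hT : ∀ a ∈ T, ∀ b ∈ T, π a * π b = π b * π a := fun a ha b hb => h a b ha hb
  have hconj : ∀ a ∈ T, ∀ g : G, g * a * g⁻¹ ∈ T := by
    intro a ha g
    show ‖(π (g * a * g⁻¹) : Matrix n n ℂ) - 1‖ < 1 / 4
    have h0 : (π g : Matrix n n ℂ) * (π g⁻¹ : Matrix n n ℂ) = 1 := by
      have := congrArg (fun u : unitary (Matrix n n ℂ) => (u : Matrix n n ℂ))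
        (show π g * π g⁻¹ = 1 by rw [← map_mul]; simp)
      exact this
    have h1 : (π (g * a * g⁻¹) : Matrix n n ℂ) - 1 =
        (π g : Matrix n n ℂ) * (((π a : Matrix n n ℂ) - 1) * (π g⁻¹ : Matrix n n ℂ)) := by
      rw [sub_mul, mul_sub, one_mul, h0, ← mul_assoc, map_mul, map_mul]
      rfl
    rw [h1, CStarRing.norm_coe_unitary_mul, CStarRing.norm_mul_coe_unitary]
    exact ha
  refine ⟨Subgroup.closure T, ⟨fun x hx g => ?_⟩, ?_, ?_⟩
  · induction hx using Subgroup.closure_induction with
    | mem b hb => exact Subgroup.subset_closure (hconj b hb g)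
    | one => rw [mul_one, mul_inv_cancel]; exact Subgroup.one_mem _
    | mul b c _ _ hb hc =>
      have : g * (b * c) * g⁻¹ = (g * b * g⁻¹) * (g * c * g⁻¹) := by group
      rw [this]; exact Subgroup.mul_mem _ hb hc
    | inv b _ hb =>
      have : g * b⁻¹ * g⁻¹ = (g * b * g⁻¹)⁻¹ := by group
      rw [this]; exact Subgroup.inv_mem _ hb
  · have htb : TotallyBounded (Metric.closedBall (0 : Matrix n n ℂ) ‖(1 : Matrix n n ℂ)‖) :=
      (ProperSpace.isCompact_closedBall _ _).totallyBounded
    rw [Metric.totallyBounded_iff] at htb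
    obtain ⟨t, ht, hcov⟩ := htb (1 / 8) (by norm_num)
    have hex : ∀ g : G, ∃ y ∈ t, dist (π g : Matrix n n ℂ) y < 1 / 8 := by
      intro g
      have h1 : (π g : Matrix n n ℂ) ∈ Metric.closedBall (0 : Matrix n n ℂ) ‖(1 : Matrix n n ℂ)‖ := by
        rw [mem_closedBall_zero_iff]
        have h0 := CStarRing.norm_coe_unitary_mul (π g) (1 : Matrix n n ℂ)
        rw [mul_one] at h0
        exact h0.le
      have h2 := hcov h1
      simp only [Set.mem_iUnion, Metric.mem_ball] at h2
      obtain ⟨y, hy, hd⟩ := h2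
      exact ⟨y, hy, hd⟩
    choose F hFt hFd using hex
    refine vaea_finiteIndex _ F (ht.subset ?_) ?_
    · rintro _ ⟨g, rfl⟩
      exact hFt g
    · intro a b hab
      apply Subgroup.subset_closure
      show ‖(π (a⁻¹ * b) : Matrix n n ℂ) - 1‖ < 1 / 4
      have h1 : (π (a⁻¹ * b) : Matrix n n ℂ) - 1 =
          (π a⁻¹ : Matrix n n ℂ) * ((π b : Matrix n n ℂ) - (π a : Matrix n n ℂ)) := by
        rw [mul_sub]
        have h2 : (π a⁻¹ : Matrix n n ℂ) * (π a : Matrix n n ℂ) = 1 := by
          have := congrArg (fun u : unitary (Matrix n n ℂ) => (u : Matrix n n ℂ))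
            (show π a⁻¹ * π a = 1 by rw [← map_mul]; simp)
          exact this
        rw [h2, map_mul]
        rfl
      rw [h1, CStarRing.norm_coe_unitary_mul (π a⁻¹), ← dist_eq_norm]
      have h3 := hFd a
      have h4 := hFd b
      rw [← hab] at h4
      have h5 := dist_triangle_right (π b : Matrix n n ℂ) (π a : Matrix n n ℂ) (F a)
      linarith
  · intro x hx y hy
    have hc : ∀ a ∈ T, ∀ y ∈ Subgroup.closure T, π a * π y = π y * π a := by
      intro a ha y hy
      induction hy using Subgroup.closure_induction with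
      | mem b hb => exact hT a ha b hb
      | one => rw [map_one, mul_one, one_mul]
      | mul b c _ _ hb hc => rw [map_mul, ← mul_assoc, hb, mul_assoc, hc, mul_assoc]
      | inv b _ hb =>
        rw [map_inv]
        exact (Commute.inv_right (show Commute (π a) (π b) from hb)).eq
    induction hx using Subgroup.closure_induction with
    | mem a ha => exact hc a ha y hy
    | one => rw [map_one, mul_one, one_mul]
    | mul b c _ _ hb hc' => rw [map_mul, mul_assoc, hc', ← mul_assoc, hb, mul_assoc]
    | inv b _ hb =>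
      rw [map_inv]
      exact (Commute.inv_left (show Commute (π b) (π y) from hb)).eq

/-- Finite-dimensional unitary representations of elementary amenable groups have virtually abelian images.  Let `T = {g | ‖π g - 1‖ < 1 / 4}`: by
`Pool.Agent.LibCS15.ea_near_commute` (transport `π` to `unitary (E →L[ℂ] E)`, `E = EuclideanSpace ℂ n`, by the `*`-isomorphism `Matrix.toEuclideanCLM`, which is isometric:
`Matrix.l2_opNorm_def`) the `π g`, `g ∈ T`, commute, so the elements of `P = Subgroup.closure T` have commuting images.  `P` has finite index: the set of the `π g` is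
totally bounded (bounded in a finite-dimensional space); cover it by finitely many sets of diameter `< 1 / 4`; if `π g`, `π h` are in the same set then
`‖π (g⁻¹ h) - 1‖ = ‖π h - π g‖ < 1 / 4`, so `g⁻¹ h ∈ T` (compare `vaa_finiteIndex` in LibCS44/VAa2). -/
theorem va_of_ea {G : Type} [Group G] (h : Pool.Agent.LibCS15.ElementaryAmenable G) : VA G := by
  intro n _ _ π
  obtain ⟨P, -, hP, hc⟩ := va_of_near π (fun a b => near_commute_ea h π a b)
  exact ⟨P, hP, hc⟩

end Pool.Agent.LibCSA98
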