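import Pool.Agent.LibCSA98.VaEA
set_option autoImplicit false
namespace Pool.Agent.LibCSA98
open scoped Matrix.Norms.L2Operator

private theorem VaI_mem {n : Type} [Fintype n] [DecidableEq n] {N : ℕ} (e : n ≃ Fin N)
    (u : unitary (Matrix n n ℂ)) :
    (u : Matrix n n ℂ).submatrix e.symm e.symm ∈ unitary (Matrix (Fin N) (Fin N) ℂ) := by
  rw [Unitary.mem_iff, Matrix.star_eq_conjTranspose, Matrix.conjTranspose_submatrix,
    Matrix.submatrix_mul_equiv, Matrix.submatrix_mul_equiv, ← Matrix.star_eq_conjTranspose,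
    (Unitary.mem_iff.1 u.2).1, (Unitary.mem_iff.1 u.2).2]
  exact ⟨Matrix.submatrix_one_equiv _, Matrix.submatrix_one_equiv _⟩

private noncomputable def VaI_re {n : Type} [Fintype n] [DecidableEq n] {N : ℕ} (e : n ≃ Fin N) :
    unitary (Matrix n n ℂ) →* unitary (Matrix (Fin N) (Fin N) ℂ) where
  toFun u := ⟨(u : Matrix n n ℂ).submatrix e.symm e.symm, VaI_mem e u⟩
  map_one' := Subtype.ext (Matrix.submatrix_one_equiv _)
  map_mul' u v := Subtype.ext (by
    change ((u : Matrix n n ℂ) * (v : Matrix n n ℂ)).submatrix e.symm e.symm =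
      (u : Matrix n n ℂ).submatrix e.symm e.symm * (v : Matrix n n ℂ).submatrix e.symm e.symm
    rw [Matrix.submatrix_mul_equiv])

private theorem VaI_inj {n : Type} [Fintype n] [DecidableEq n] {N : ℕ} (e : n ≃ Fin N) :
    Function.Injective (VaI_re e) := by
  intro u v h
  have h1 : (u : Matrix n n ℂ).submatrix e.symm e.symm = (v : Matrix n n ℂ).submatrix e.symm e.symm :=
    congrArg Subtype.val h
  apply Subtype.ext
  ext a b
  have h2 := congrFun (congrFun h1 (e a)) (e b)
  simpa using h2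

/-- if all the finite-dimensional unitary images are elementary amenable then they are virtually abelian: reindex `n` by `Fin (Fintype.card n)` and apply
`va_of_ea` to the group `π.range` and the inclusion `π.range →* unitary (Matrix _ _ ℂ)`; pull back the subgroup to `G` (`Subgroup.comap π.rangeRestrict`) -/
theorem va_of_images {G : Type} [Group G]
    (h : ∀ (n : ℕ) (π : G →* unitary (Matrix (Fin n) (Fin n) ℂ)),
      Pool.Agent.LibCS15.ElementaryAmenable π.range) : VA G := by
  intro n _ _ π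
  let e : n ≃ Fin (Fintype.card n) := Fintype.equivFin n
  let π' : G →* unitary (Matrix (Fin (Fintype.card n)) (Fin (Fintype.card n)) ℂ) := (VaI_re e).comp π
  obtain ⟨P, hP, hc⟩ := va_of_ea (h _ π') (Fin (Fintype.card n)) π'.range.subtype
  refine ⟨P.comap π'.rangeRestrict, ?_, ?_⟩
  · refine ⟨?_⟩
    rw [Subgroup.index_comap_of_surjective P π'.rangeRestrict_surjective]
    exact hP.index_ne_zero
  · intro x hx y hy
    apply VaI_inj e
    rw [map_mul, map_mul]
    exact hc _ (Subgroup.mem_comap.1 hx) _ (Subgroup.mem_comap.1 hy)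

private theorem VaI_mem2 {n : Type} [Fintype n] [DecidableEq n] (u : unitary (Matrix n n ℂ)) :
    Matrix.toEuclideanCLM (n := n) (𝕜 := ℂ) (u : Matrix n n ℂ) ∈
      unitary (EuclideanSpace ℂ n →L[ℂ] EuclideanSpace ℂ n) := by
  rw [Unitary.mem_iff, ← map_star, ← map_mul, ← map_mul, (Unitary.mem_iff.1 u.2).1,
    (Unitary.mem_iff.1 u.2).2, map_one]
  exact ⟨rfl, rfl⟩

private noncomputable def VaI_eu (n : Type) [Fintype n] [DecidableEq n] :
    unitary (Matrix n n ℂ) →* unitary (EuclideanSpace ℂ n →L[ℂ] EuclideanSpace ℂ n) where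
  toFun u := ⟨Matrix.toEuclideanCLM (n := n) (𝕜 := ℂ) (u : Matrix n n ℂ), VaI_mem2 u⟩
  map_one' := Subtype.ext (map_one _)
  map_mul' u v := Subtype.ext (map_mul _ _ _)

private theorem VaI_norm {n : Type} [Fintype n] [DecidableEq n] (u : unitary (Matrix n n ℂ)) :
    ‖((VaI_eu n u : unitary (EuclideanSpace ℂ n →L[ℂ] EuclideanSpace ℂ n)) :
      EuclideanSpace ℂ n →L[ℂ] EuclideanSpace ℂ n) - 1‖ = ‖(u : Matrix n n ℂ) - 1‖ := by
  change ‖Matrix.toEuclideanCLM (n := n) (𝕜 := ℂ) (u : Matrix n n ℂ) - 1‖ = _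
  rw [← map_one (Matrix.toEuclideanCLM (n := n) (𝕜 := ℂ)), ← map_sub, Matrix.l2_opNorm_toEuclideanCLM]

private theorem VaI_inj2 {n : Type} [Fintype n] [DecidableEq n] : Function.Injective (VaI_eu n) := by
  intro u v h
  have h1 : Matrix.toEuclideanCLM (n := n) (𝕜 := ℂ) (u : Matrix n n ℂ) =
    Matrix.toEuclideanCLM (n := n) (𝕜 := ℂ) (v : Matrix n n ℂ) := congrArg Subtype.val h
  exact Subtype.ext ((Matrix.toEuclideanCLM (n := n) (𝕜 := ℂ)).injective h1)

/-- virtually abelian groups are elementary amenable -/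
private theorem VaI_ea {G : Type} [Group G] (P : Subgroup G) (hP : P.FiniteIndex)
    (hc : ∀ x ∈ P, ∀ y ∈ P, x * y = y * x) : Pool.Agent.LibCS15.ElementaryAmenable G := by
  haveI := hP
  haveI : P.normalCore.FiniteIndex := inferInstance
  haveI : Finite (G ⧸ P.normalCore) := Subgroup.finite_quotient_of_finiteIndex
  refine Pool.Agent.LibCS15.ElementaryAmenable.of_extension G P.normalCore ?_ ?_
  · refine Pool.Agent.LibCS15.ElementaryAmenable.of_comm _ ?_
    rintro ⟨x, hx⟩ ⟨y, hy⟩
    exact Subtype.ext (hc x (P.normalCore_le hx) y (P.normalCore_le hy))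
  · exact Pool.Agent.LibCS15.ElementaryAmenable.of_finite _

/-- virtually abelian groups are elementary amenable (`of_extension` for the normal core of `P`), so the elements of `G` whose images are within `1/4` of `1` in a finite-dimensional representation have
commuting images: `Pool.Agent.LibCS15.ea_near_commute` for the group `π.range` and its inclusion (transported by `Matrix.toEuclideanCLM` as in `va_of_ea`) -/
theorem near_commute_of_va {G : Type} [Group G] (h : VA G) (n : Type) [Fintype n]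
    [DecidableEq n] (π : G →* unitary (Matrix n n ℂ)) (a b : G)
    (ha : ‖(π a : Matrix n n ℂ) - 1‖ < 1 / 4) (hb : ‖(π b : Matrix n n ℂ) - 1‖ < 1 / 4) :
    π a * π b = π b * π a := by
  obtain ⟨P, hP, hc⟩ := h n π
  haveI := hP
  have hfin : (P.map π.rangeRestrict).FiniteIndex := by
    refine ⟨?_⟩
    have h1 := Subgroup.index_map_dvd P (f := π.rangeRestrict) π.rangeRestrict_surjective
    intro h0
    rw [h0] at h1
    exact hP.index_ne_zero (Nat.eq_zero_of_zero_dvd h1)
  have hea : Pool.Agent.LibCS15.ElementaryAmenable π.range := by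
    refine VaI_ea (P.map π.rangeRestrict) hfin ?_
    rintro _ ⟨x, hx, rfl⟩ _ ⟨y, hy, rfl⟩
    exact Subtype.ext (hc x hx y hy)
  have h1 := Pool.Agent.LibCS15.ea_near_commute hea ((VaI_eu n).comp π.range.subtype)
    (π.rangeRestrict a) (π.rangeRestrict b) ?_ ?_
  · apply VaI_inj2
    rw [map_mul, map_mul]
    exact h1
  · change ‖((VaI_eu n (π a) : unitary (EuclideanSpace ℂ n →L[ℂ] EuclideanSpace ℂ n)) :
      EuclideanSpace ℂ n →L[ℂ] EuclideanSpace ℂ n) - 1‖ < 1 / 4
    rw [VaI_norm]
    exact ha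
  · change ‖((VaI_eu n (π b) : unitary (EuclideanSpace ℂ n →L[ℂ] EuclideanSpace ℂ n)) :
      EuclideanSpace ℂ n →L[ℂ] EuclideanSpace ℂ n) - 1‖ < 1 / 4
    rw [VaI_norm]
    exact hb

end Pool.Agent.LibCSA98
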