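import Mathlib
set_option autoImplicit false
namespace Pool.Agent.LibCSA98

/-- The centralizer `C` of the finite normal subgroup `N` has finite index (kernel of the action of `G` on `N` by conjugation, `MulAut.conjNormal`); `S = H ⊓ C` is solvable: its
commutators are in `N ⊓ C`, which is central in `S`. -/
theorem virt_solvable {G : Type} [Group G] (H N : Subgroup G) [H.FiniteIndex] [N.Normal]
    [Finite N] (hc : ∀ x ∈ H, ∀ y ∈ H, x * y * x⁻¹ * y⁻¹ ∈ N) :
    ∃ S : Subgroup G, S.FiniteIndex ∧ Group.IsSolvable S := by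
  have hfin : Finite (MulAut N) :=
    Finite.of_injective (fun e : MulAut N => (e : N → N)) fun a b h => MulEquiv.ext (congrFun h)
  have hC : ((MulAut.conjNormal : G →* MulAut N).ker).FiniteIndex := inferInstance
  refine ⟨H ⊓ (MulAut.conjNormal : G →* MulAut N).ker, inferInstance, ⟨⟨2, ?_⟩⟩⟩
  set S : Subgroup G := H ⊓ (MulAut.conjNormal : G →* MulAut N).ker with hS
  have hcent : ∀ s ∈ S, ∀ m ∈ N, s * m = m * s := by
    intro s hs m hm
    have h1 : (MulAut.conjNormal : G →* MulAut N) s = 1 := hs.2
    have h2 : ((MulAut.conjNormal s ⟨m, hm⟩ : N) : G) = m := by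
      rw [h1]
      rfl
    rw [MulAut.conjNormal_apply] at h2
    have h3 : s * m * s⁻¹ = m := h2
    rw [mul_inv_eq_iff_eq_mul] at h3
    exact h3
  have h1 : derivedSeries S 1 ≤ N.comap S.subtype := by
    rw [derivedSeries_succ, derivedSeries_zero, Subgroup.commutator_le]
    intro x _ y _
    exact hc x x.2.1 y y.2.1
  rw [derivedSeries_succ, Subgroup.commutator_eq_bot_iff_le_centralizer]
  intro x hx
  rw [Subgroup.mem_centralizer_iff]
  intro y _
  exact Subtype.ext (hcent y y.2 x (h1 hx))

end Pool.Agent.LibCSA98
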