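import Pool.Agent.LibCSA98.Core
import Pool.Agent.LibCSA98.MapOfMF
import Pool.Agent.LibCSA98.VaImages
import Pool.Agent.LibCSA98.VaEA
import Pool.Agent.LibCSA98.FlatFO
import Pool.Agent.LibCSA98.Betti
import Pool.Agent.LibCSA98.VirtSolv
import Pool.Agent.LibCSA98.ReiterEA
import Pool.Agent.LibCSA98.MfLef
import Pool.Agent.LibCS44.Main
set_option autoImplicit false
namespace Pool.Agent.LibCSA98
open Pool.Agent.LibCS15 (CStarStable ElementaryAmenable)

/-- `exists_flat`, `fo_of_flat`, `finite_of_fo`, `virt_solvable`, `Pool.Agent.LibCS44.virt_cyclic` -/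
theorem main_aux {G : Type} [Group G] [Countable G] (hG : CStarStable G) (hMF : MF G)
    (hR : Reiter G) (hVA : VA G) (hd : Betti1 G) :
    ∃ z : G, (Subgroup.zpowers z).FiniteIndex := by
  obtain ⟨H, N, hHn, hHf, hNn, hNH, hflat, hcomm⟩ := exists_flat hd
  have hMAP : MAP G := map_of_mf hG hMF
  have hfin : Finite N := finite_of_fo hG hMAP hR N (fo_of_flat hVA hflat)
  obtain ⟨S, hSf, hSs⟩ := virt_solvable H N hcomm
  exact Pool.Agent.LibCS44.virt_cyclic hG S hSs

theorem main_ea {G : Type} [Group G] [Countable G] (hG : CStarStable G) (hMF : MF G)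
    (hE : ElementaryAmenable G) : ∃ z : G, (Subgroup.zpowers z).FiniteIndex :=
  main_aux hG hMF (reiter_of_ea hE) (va_of_ea hE) (betti_ea hG hE)

theorem main_torsion {G : Type} [Group G] [Countable G] (hG : CStarStable G) (hMF : MF G)
    (hF : Folner G) (hT : ∀ g : G, IsOfFinOrder g) : Finite G := by
  have h1 : Finite (⊤ : Subgroup G) :=
    finite_of_fo hG (map_of_mf hG hMF) (reiter_of_folner hF) ⊤
      (fun a _ => fo_of_isOfFinOrder (hT a))
  exact Finite.of_equiv _ Subgroup.topEquiv.toEquiv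

theorem main_quot {G : Type} [Group G] [Countable G] (hG : CStarStable G) (T : Subgroup G)
    [T.Normal] (hT : ∀ g ∈ T, IsOfFinOrder g) (M : Subgroup G) [M.Normal] (hM : MAP (G ⧸ M))
    (hF : Folner (G ⧸ M)) : Finite (T.map (QuotientGroup.mk' M)) :=
  finite_map_of_fo hG T (fun a ha => fo_of_isOfFinOrder (hT a ha)) M hM (reiter_of_folner hF)

end Pool.Agent.LibCSA98
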