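import Pool.Agent.LibCSA98.Defs
set_option autoImplicit false
namespace Pool.Agent.LibCSA98

private theorem rl2_l1_eq {X : Type} (f : X →₀ ℝ) (T : Finset X) (hT : f.support ⊆ T) :
    l1 f = ∑ x ∈ T, |f x| := by
  unfold l1
  exact Finsupp.sum_of_support_subset f hT _ (by simp)

private theorem rl2_l2_eq {X : Type} (f : X →₀ ℝ) (T : Finset X) (hT : f.support ⊆ T) :
    l2 f = ∑ x ∈ T, (f x) ^ 2 := by
  unfold l2
  exact Finsupp.sum_of_support_subset f hT _ (by simp)

private theorem rl2_sqrt {p q : ℝ} (hp : 0 ≤ p) (hq : 0 ≤ q) :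
    (Real.sqrt p - Real.sqrt q) ^ 2 ≤ |p - q| := by
  have h1 : p - q = (Real.sqrt p - Real.sqrt q) * (Real.sqrt p + Real.sqrt q) := by
    have hp2 := Real.mul_self_sqrt hp
    have hq2 := Real.mul_self_sqrt hq
    linear_combination -hp2 + hq2
  have hp0 := Real.sqrt_nonneg p
  have hq0 := Real.sqrt_nonneg q
  rw [h1, abs_mul, ← sq_abs, sq]
  apply mul_le_mul_of_nonneg_left _ (abs_nonneg _)
  rw [abs_of_nonneg (add_nonneg hp0 hq0), abs_le]
  constructor <;> linarith

/-- the square root of a Reiter function: `a = f.mapRange Real.sqrt`, `(√p - √q) ^ 2 ≤ |p - q|`; `(f.mapDomain (s * ·)) x = f (s⁻¹ * x)` -/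
theorem reiter_l2 {G : Type} [Group G] (hR : Reiter G) (S : Finset G) (ε : ℝ) (hε : 0 < ε) :
    ∃ a : G →₀ ℝ, (∀ x, 0 ≤ a x) ∧ l2 a = 1 ∧ ∀ s ∈ S, l2 (a.mapDomain (s * ·) - a) ≤ ε := by
  classical
  obtain ⟨f, hf0, hf1, hfS⟩ := hR S ε hε
  have hav : ∀ x, (f.mapRange Real.sqrt Real.sqrt_zero) x = Real.sqrt (f x) := by
    intro x
    rw [Finsupp.mapRange_apply]
  refine ⟨f.mapRange Real.sqrt Real.sqrt_zero, ?_, ?_, ?_⟩
  · intro x
    rw [hav]
    exact Real.sqrt_nonneg _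
  · rw [rl2_l2_eq _ f.support Finsupp.support_mapRange, ← hf1, rl2_l1_eq f f.support subset_rfl]
    apply Finset.sum_congr rfl
    intro x _
    rw [hav, Real.sq_sqrt (hf0 x), abs_of_nonneg (hf0 x)]
  · intro s hs
    refine le_trans ?_ (hfS s hs)
    have hmd : ∀ (g : G →₀ ℝ) (x : G), (g.mapDomain (s * ·)) x = g (s⁻¹ * x) := by
      intro g x
      have h := Finsupp.mapDomain_apply (mul_right_injective s) g (s⁻¹ * x)
      have h2 : s * (s⁻¹ * x) = x := by group
      rw [h2] at h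
      exact h
    set a : G →₀ ℝ := f.mapRange Real.sqrt Real.sqrt_zero with ha
    set T : Finset G := (a.mapDomain (s * ·) - a).support ∪ (f.mapDomain (s * ·) - f).support
      with hT
    rw [rl2_l2_eq _ T Finset.subset_union_left, rl2_l1_eq _ T Finset.subset_union_right]
    apply Finset.sum_le_sum
    intro x _
    rw [Finsupp.sub_apply, Finsupp.sub_apply, hmd, hmd, hav, hav]
    exact rl2_sqrt (hf0 _) (hf0 _)

end Pool.Agent.LibCSA98
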