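import Pool.Agent.LibCSA98.SmallCoeff
import Pool.Agent.LibCSA98.ReiterL2
import Pool.Agent.LibCSA98.Comb
import Pool.Agent.LibCSA98.Disj
set_option autoImplicit false
namespace Pool.Agent.LibCSA98

private noncomputable def nia_Phi {G V : Type} [Group G] [NormedAddCommGroup V] [InnerProductSpace ℂ V]
    (ρ : G →* (V →ₗ[ℂ] V)) (v : V) (b : G →₀ ℝ) : V := b.sum fun x t => (t : ℂ) • ρ x v

private theorem nia_Phi_sub {G V : Type} [Group G] [NormedAddCommGroup V] [InnerProductSpace ℂ V]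
    (ρ : G →* (V →ₗ[ℂ] V)) (v : V) (b c : G →₀ ℝ) :
    nia_Phi ρ v (b - c) = nia_Phi ρ v b - nia_Phi ρ v c := by
  unfold nia_Phi
  apply Finsupp.sum_sub_index
  intro x t u
  rw [Complex.ofReal_sub, sub_smul]

private theorem nia_Phi_sum {G V : Type} [Group G] [NormedAddCommGroup V] [InnerProductSpace ℂ V]
    (ρ : G →* (V →ₗ[ℂ] V)) (v : V) {ι : Type} (s : Finset ι) (b : ι → G →₀ ℝ) :
    nia_Phi ρ v (∑ i ∈ s, b i) = ∑ i ∈ s, nia_Phi ρ v (b i) := by
  unfold nia_Phi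
  rw [Finsupp.sum_finsetSum_index]
  · intro x
    rw [Complex.ofReal_zero, zero_smul]
  · intro x t u
    rw [Complex.ofReal_add, add_smul]

private theorem nia_Phi_map {G V : Type} [Group G] [NormedAddCommGroup V] [InnerProductSpace ℂ V]
    (ρ : G →* (V →ₗ[ℂ] V)) (v : V) (b : G →₀ ℝ) (s : G) :
    nia_Phi ρ v (b.mapDomain (s * ·)) = ρ s (nia_Phi ρ v b) := by
  unfold nia_Phi
  rw [Finsupp.sum_mapDomain_index]
  · rw [map_finsuppSum]
    apply Finsupp.sum_congr
    intro x _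
    rw [map_smul, map_mul, Module.End.mul_apply]
  · intro x
    rw [Complex.ofReal_zero, zero_smul]
  · intro x t u
    rw [Complex.ofReal_add, add_smul]

private theorem nia_l1_eq {X : Type} (f : X →₀ ℝ) (s : Finset X) (h : f.support ⊆ s) :
    l1 f = ∑ x ∈ s, |f x| := by
  unfold l1
  exact Finsupp.sum_of_support_subset f h _ (fun x _ => abs_zero)

private theorem nia_l1_nonneg {X : Type} (f : X →₀ ℝ) : 0 ≤ l1 f := by
  rw [nia_l1_eq f f.support subset_rfl]
  exact Finset.sum_nonneg fun x _ => abs_nonneg _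

private theorem nia_l1_sub_le {X : Type} (f g : X →₀ ℝ) : l1 (f - g) ≤ l1 f + l1 g := by
  classical
  have h1 : (f - g).support ⊆ f.support ∪ g.support := Finsupp.support_sub
  rw [nia_l1_eq (f - g) _ h1, nia_l1_eq f _ Finset.subset_union_left,
    nia_l1_eq g _ Finset.subset_union_right, ← Finset.sum_add_distrib]
  apply Finset.sum_le_sum
  intro x _
  rw [Finsupp.sub_apply]
  exact abs_sub _ _

private theorem nia_l1_map {G : Type} [Group G] (f : G →₀ ℝ) (s : G) :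
    l1 (f.mapDomain (s * ·)) = l1 f := by
  unfold l1
  exact Finsupp.sum_mapDomain_index_inj (mul_right_injective s)

/-- Almost invariant vectors almost orthogonal to the vectors fixed by the infinite subgroup `K`.  Take `a` from `reiter_l2`, `r` with `1 / r ≤ ε / 2`, `κ` from `exists_disjoint` for the support of
`a`, and let `T` be a finite set containing the supports of `a`, of the `a.mapDomain (s * ·)`, `s ∈ S`, and of the `a.mapDomain (κ i * ·)`.  Let `η > 0` be small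
(compared to `ε / (4 * (1 + l1 a) ^ 2)` etc.), `f` from `small_coeff` for `F = {x⁻¹ * y | x, y ∈ T, x ≠ y}`; `V = EuclideanSpace ℂ n`, `ρ` from `rep_of_matrix`, `v` the vector
of `f` and `w = a.sum fun x t => t • ρ x v`.  Then `ρ s w = (a.mapDomain (s * ·)).sum fun x t => t • ρ x v`, so `comb_norm` for `a`, for
`a.mapDomain (s * ·) - a` (`l1 ≤ 2 * l1 a`) and for `b = ∑ i, a.mapDomain (κ i * ·)` gives the three estimates; for the last one
`r * inner e w = ∑ i, inner (ρ (κ i) e) (ρ (κ i) w) = inner e (b.sum ...)`. -/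
theorem near_inv_a {G : Type} [Group G] (hM : MAP G) (hR : Reiter G) (K : Subgroup G)
    [Infinite K] (S : Finset G) (ε : ℝ) (hε : 0 < ε) :
    ∃ (V : Type) (_ : NormedAddCommGroup V) (_ : InnerProductSpace ℂ V)
      (_ : FiniteDimensional ℂ V) (ρ : G →* (V →ₗ[ℂ] V)) (w : V), IsUnRep ρ ∧
      |‖w‖ ^ 2 - 1| ≤ ε ∧ (∀ s ∈ S, ‖ρ s w - w‖ ^ 2 ≤ ε) ∧
      ∀ e : V, ‖e‖ ≤ 1 → (∀ k ∈ K, ρ k e = e) → ‖inner ℂ e w‖ ^ 2 ≤ ε := by
  classical
  obtain ⟨a, ha0, ha2, haS⟩ := reiter_l2 hR S (ε / 2) (by positivity)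
  obtain ⟨r, hr⟩ := exists_nat_gt (2 / ε)
  have hr0 : (0 : ℝ) < r := lt_trans (by positivity) hr
  have hrε : 2 < r * ε := by
    rwa [div_lt_iff₀ hε] at hr
  obtain ⟨κ, hκK, hκ⟩ := exists_disjoint K a.support r
  obtain ⟨hb2, hb1⟩ := l2_sum_translates a ha2 κ hκ
  set b : G →₀ ℝ := ∑ i, a.mapDomain (κ i * ·) with hbdef
  have hA : 0 ≤ l1 a := nia_l1_nonneg a
  set A : ℝ := l1 a with hAdef
  obtain ⟨η, hη0, hη⟩ : ∃ η : ℝ, 0 < η ∧ η * (8 * (1 + A) ^ 2) = ε :=
    ⟨ε / (8 * (1 + A) ^ 2), by positivity, by field_simp⟩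
  have hηA : η * (8 * A ^ 2) ≤ ε := by
    rw [← hη]
    apply mul_le_mul_of_nonneg_left _ hη0.le
    nlinarith
  let T : Finset G := a.support ∪ S.biUnion (fun s => (a.mapDomain (s * ·)).support) ∪
    Finset.univ.biUnion (fun i => (a.mapDomain (κ i * ·)).support)
  have hTa : a.support ⊆ T := fun x hx =>
    Finset.mem_union_left _ (Finset.mem_union_left _ hx)
  have hTs : ∀ s ∈ S, (a.mapDomain (s * ·)).support ⊆ T := fun s hs x hx =>
    Finset.mem_union_left _ (Finset.mem_union_right _ (Finset.mem_biUnion.mpr ⟨s, hs, hx⟩))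
  have hTκ : ∀ i, (a.mapDomain (κ i * ·)).support ⊆ T := fun i x hx =>
    Finset.mem_union_right _ (Finset.mem_biUnion.mpr ⟨i, Finset.mem_univ i, hx⟩)
  have hTb : b.support ⊆ T := by
    intro x hx
    have h1 := Finsupp.support_finsetSum hx
    obtain ⟨i, _, hi⟩ := Finset.mem_biUnion.mp h1
    exact hTκ i hi
  obtain ⟨f, hf, hfF⟩ := small_coeff hM (((T ×ˢ T).image fun p => p.1⁻¹ * p.2).erase 1)
    (Finset.notMem_erase _ _) η hη0
  obtain ⟨n, _, _, π, v, hv, hfv⟩ := hf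
  obtain ⟨ρ, hρ, hρπ⟩ := rep_of_matrix π
  let v' : EuclideanSpace ℂ n := WithLp.toLp 2 v
  have hin : ∀ g, inner ℂ v' (ρ g v') = f g := by
    intro g
    rw [hfv g, EuclideanSpace.inner_eq_star_dotProduct, hρπ g v']
    exact dotProduct_comm _ _
  have hv1 : ‖v'‖ = 1 := by
    have h1 : inner ℂ v' v' = (1 : ℂ) := by
      rw [EuclideanSpace.inner_eq_star_dotProduct]
      rw [← hv]
      exact dotProduct_comm _ _
    have h2 := inner_self_eq_norm_sq_to_K (𝕜 := ℂ) v'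
    rw [h1] at h2
    have h3 : ‖v'‖ ^ 2 = 1 := by
      have h4 : (1 : ℂ) = ((‖v'‖ ^ 2 : ℝ) : ℂ) := by
        rw [h2]
        push_cast
        rfl
      exact_mod_cast h4.symm
    nlinarith [norm_nonneg v']
  have hcomb : ∀ c : G →₀ ℝ, c.support ⊆ T →
      |‖nia_Phi ρ v' c‖ ^ 2 - l2 c| ≤ η * l1 c ^ 2 := by
    intro c hc
    apply comb_norm ρ hρ v' hv1 c η hη0.le
    intro x hx y hy hxy
    rw [hin]
    apply hfF
    rw [Finset.mem_erase]
    refine ⟨fun h => hxy ?_, Finset.mem_image.mpr ⟨(x, y), ?_, rfl⟩⟩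
    · exact (inv_mul_eq_one.mp h)
    · exact Finset.mem_product.mpr ⟨hc hx, hc hy⟩
  refine ⟨EuclideanSpace ℂ n, inferInstance, inferInstance, inferInstance, ρ, nia_Phi ρ v' a, hρ,
    ?_, ?_, ?_⟩
  · have h1 := hcomb a hTa
    rw [ha2] at h1
    refine h1.trans ?_
    nlinarith [mul_nonneg hη0.le (sq_nonneg A)]
  · intro s hs
    rw [← nia_Phi_map, ← nia_Phi_sub]
    have hsupp : (a.mapDomain (s * ·) - a).support ⊆ T :=
      Finsupp.support_sub.trans (Finset.union_subset (hTs s hs) hTa)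
    have h1 := hcomb _ hsupp
    have h2 : l1 (a.mapDomain (s * ·) - a) ≤ 2 * A := by
      have h3 := nia_l1_sub_le (a.mapDomain (s * ·)) a
      rw [nia_l1_map] at h3
      linarith
    have h4 : l1 (a.mapDomain (s * ·) - a) ^ 2 ≤ (2 * A) ^ 2 :=
      pow_le_pow_left₀ (nia_l1_nonneg _) h2 2
    have h5 := haS s hs
    have h6 := (abs_le.mp h1).2
    have h7 := mul_le_mul_of_nonneg_left h4 hη0.le
    nlinarith
  · intro e he heK
    have h1 : inner ℂ e (nia_Phi ρ v' b) = (r : ℂ) * inner ℂ e (nia_Phi ρ v' a) := by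
      rw [hbdef, nia_Phi_sum, inner_sum]
      have h2 : ∀ i ∈ (Finset.univ : Finset (Fin r)),
          inner ℂ e (nia_Phi ρ v' (a.mapDomain (κ i * ·))) = inner ℂ e (nia_Phi ρ v' a) := by
        intro i _
        rw [nia_Phi_map]
        have h3 := hρ (κ i) e (nia_Phi ρ v' a)
        rwa [heK (κ i) (hκK i)] at h3
      rw [Finset.sum_congr rfl h2, Finset.sum_const, Finset.card_univ, Fintype.card_fin,
        nsmul_eq_mul]
    have h4 := hcomb b hTb
    rw [hb2] at h4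
    have h5 := (abs_le.mp h4).2
    have h6 : l1 b ^ 2 ≤ (r * A) ^ 2 := pow_le_pow_left₀ (nia_l1_nonneg _) hb1 2
    have h7 := mul_le_mul_of_nonneg_left h6 hη0.le
    have h8 : ‖inner ℂ e (nia_Phi ρ v' b)‖ ≤ ‖nia_Phi ρ v' b‖ := by
      refine (norm_inner_le_norm _ _).trans ?_
      have := mul_le_mul_of_nonneg_right he (norm_nonneg (nia_Phi ρ v' b))
      linarith
    rw [h1, norm_mul, Complex.norm_natCast] at h8
    have h9 := pow_le_pow_left₀ (by positivity) h8 2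
    have h10 : (r : ℝ) ^ 2 * ‖inner ℂ e (nia_Phi ρ v' a)‖ ^ 2 ≤ r + η * (r * A) ^ 2 := by
      rw [mul_pow] at h9
      linarith
    have h11 : (r : ℝ) ^ 2 * ‖inner ℂ e (nia_Phi ρ v' a)‖ ^ 2 ≤ (r : ℝ) ^ 2 * ε := by
      refine h10.trans ?_
      have h12 : η * (r * A) ^ 2 ≤ (r : ℝ) ^ 2 * (ε / 8) := by
        have : η * (r * A) ^ 2 = (r : ℝ) ^ 2 * (η * (8 * A ^ 2)) / 8 := by ring
        rw [this]
        have h13 := mul_le_mul_of_nonneg_left hηA (sq_nonneg (r : ℝ))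
        linarith
      have h14 : (r : ℝ) ≤ (r : ℝ) ^ 2 * (ε / 2) := by
        have : (r : ℝ) ^ 2 * (ε / 2) = r * (r * ε) / 2 := by ring
        rw [this]
        nlinarith
      have h15 : 0 ≤ (r : ℝ) ^ 2 * ε := by positivity
      linarith
    exact le_of_mul_le_mul_left h11 (by positivity)

end Pool.Agent.LibCSA98
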