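import Pool.Agent.LibCSA98.Defs
set_option autoImplicit false
namespace Pool.Agent.LibCSA98

private theorem l1_eq {X : Type} (f : X →₀ ℝ) (s : Finset X) (hs : f.support ⊆ s) :
    l1 f = ∑ x ∈ s, |f x| :=
  Finsupp.sum_of_support_subset f hs _ (by simp)

private theorem l1_nn {X : Type} (f : X →₀ ℝ) : 0 ≤ l1 f :=
  Finset.sum_nonneg fun _ _ => abs_nonneg _

private theorem l1_zero' {X : Type} : l1 (0 : X →₀ ℝ) = 0 := by
  simp [l1]

private theorem l1_add_le' {X : Type} (f g : X →₀ ℝ) : l1 (f + g) ≤ l1 f + l1 g := by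
  classical
  have h1 : (f + g).support ⊆ f.support ∪ g.support := Finsupp.support_add
  rw [l1_eq (f + g) (f.support ∪ g.support) h1,
    l1_eq f (f.support ∪ g.support) Finset.subset_union_left,
    l1_eq g (f.support ∪ g.support) Finset.subset_union_right, ← Finset.sum_add_distrib]
  exact Finset.sum_le_sum fun x _ => by simpa using abs_add_le (f x) (g x)

private theorem l1_smul' {X : Type} (c : ℝ) (f : X →₀ ℝ) : l1 (c • f) = |c| * l1 f := by
  rw [l1_eq (c • f) f.support Finsupp.support_smul, l1_eq f f.support subset_rfl,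
    Finset.mul_sum]
  exact Finset.sum_congr rfl fun x _ => by simp [abs_mul]

private theorem l1_sum_le' {X ι : Type} (s : Finset ι) (g : ι → X →₀ ℝ) :
    l1 (∑ i ∈ s, g i) ≤ ∑ i ∈ s, l1 (g i) := by
  classical
  induction s using Finset.induction_on with
  | empty => simp [l1_zero']
  | insert a s ha ih =>
    rw [Finset.sum_insert ha, Finset.sum_insert ha]
    exact (l1_add_le' _ _).trans (by linarith)

private theorem l1_single' {X : Type} (x : X) (c : ℝ) : l1 (Finsupp.single x c) = |c| := by
  simp [l1, Finsupp.sum_single_index]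

private theorem l1_mapDomain_le' {X Y : Type} (φ : X → Y) (f : X →₀ ℝ) :
    l1 (f.mapDomain φ) ≤ l1 f := by
  refine (l1_sum_le' f.support fun x => Finsupp.single (φ x) (f x)).trans ?_
  rw [l1_eq f f.support subset_rfl]
  exact Finset.sum_le_sum fun x _ => by rw [l1_single']

private theorem l1_lc_le {X Y : Type} (v : X → Y →₀ ℝ) (u : X →₀ ℝ) (C : ℝ)
    (hv : ∀ x ∈ u.support, l1 (v x) ≤ C) :
    l1 (Finsupp.linearCombination ℝ v u) ≤ l1 u * C := by
  rw [Finsupp.linearCombination_apply]
  refine (l1_sum_le' u.support fun x => u x • v x).trans ?_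
  rw [l1_eq u u.support subset_rfl, Finset.sum_mul]
  refine Finset.sum_le_sum fun x hx => ?_
  rw [l1_smul']
  exact mul_le_mul_of_nonneg_left (hv x hx) (abs_nonneg _)

/-- total mass -/
private noncomputable def tot {X : Type} : (X →₀ ℝ) →ₗ[ℝ] ℝ :=
  Finsupp.linearCombination ℝ fun _ => (1 : ℝ)

private theorem tot_eq {X : Type} (f : X →₀ ℝ) (hf : ∀ x, 0 ≤ f x) : tot f = l1 f := by
  rw [tot, Finsupp.linearCombination_apply, l1]
  exact Finset.sum_congr rfl fun x _ => by simp [abs_of_nonneg (hf x)]

private theorem tot_mapDomain {X Y : Type} (φ : X → Y) (f : X →₀ ℝ) :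
    tot (f.mapDomain φ) = tot f := by
  rw [tot, tot, Finsupp.linearCombination_mapDomain]
  rfl

/-- Extensions.  Let `σ = Quotient.out`, `f` a Reiter function on `G ⧸ N` for the images of `S` and `ε / 2`.  For `s ∈ S` and `q` in the support of `f`, `s * σ q = σ (s q) * ν s q` with `ν s q ∈ N`.  Let `h` be a
Reiter function on `N` for the finite set of these `ν s q` (or their inverses) and `ε / 2`.  `F = ∑ q, f q • (h.mapDomain (fun n => σ q * n))`; `l1 F = 1` (positivity) and
`l1 (F.mapDomain (s * ·) - F) ≤ ∑ q, f q * l1 (translate of h by ν s q - h) + l1 (f.mapDomain (s * ·) - f) ≤ ε`. -/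
theorem reiter_ext {G : Type} [Group G] (N : Subgroup G) [N.Normal] (hN : Reiter N)
    (hQ : Reiter (G ⧸ N)) : Reiter G := by
  classical
  intro S ε hε
  obtain ⟨f, hf0, hf1, hfS⟩ := hQ (S.image (QuotientGroup.mk : G → G ⧸ N)) (ε / 2) (half_pos hε)
  let σ : G ⧸ N → G := Quotient.out
  have hσ : ∀ q : G ⧸ N, (QuotientGroup.mk (σ q) : G ⧸ N) = q := fun q => Quotient.out_eq' q
  have hν : ∀ (s : G) (q : G ⧸ N), (σ ((s : G ⧸ N) * q))⁻¹ * (s * σ q) ∈ N := by
    intro s q
    rw [← QuotientGroup.eq, hσ, QuotientGroup.mk_mul, hσ]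
  let ν : G → G ⧸ N → N := fun s q => ⟨_, hν s q⟩
  have hν' : ∀ (s : G) (q : G ⧸ N), σ ((s : G ⧸ N) * q) * (ν s q : G) = s * σ q := by
    intro s q
    simp [ν]
  obtain ⟨h, hh0, hh1, hhS⟩ := hN ((S ×ˢ f.support).image fun p => ν p.1 p.2) (ε / 2)
    (half_pos hε)
  let v : G ⧸ N → G →₀ ℝ := fun q => h.mapDomain fun n : N => σ q * (n : G)
  have hv1 : ∀ q, l1 (v q) ≤ 1 := fun q => (l1_mapDomain_le' _ _).trans hh1.le
  have hnn : ∀ x, 0 ≤ (Finsupp.linearCombination ℝ v f) x := by
    intro x
    rw [Finsupp.linearCombination_apply, Finsupp.sum, Finsupp.finsetSum_apply]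
    refine Finset.sum_nonneg fun q _ => ?_
    rw [Finsupp.smul_apply, smul_eq_mul]
    refine mul_nonneg (hf0 q) ?_
    simp only [v]
    rw [Finsupp.mapDomain, Finsupp.sum_apply]
    refine Finset.sum_nonneg fun n _ => ?_
    change 0 ≤ (Finsupp.single (σ q * (n : G)) (h n)) x
    rw [Finsupp.single_apply]
    split_ifs
    · exact hh0 n
    · exact le_rfl
  refine ⟨Finsupp.linearCombination ℝ v f, hnn, ?_, ?_⟩
  · rw [← tot_eq _ hnn, Finsupp.linearCombination_apply, map_finsuppSum]
    have h2 : ∀ q c, tot (c • v q) = c := by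
      intro q c
      rw [map_smul, smul_eq_mul]
      simp only [v]
      rw [tot_mapDomain, tot_eq h hh0, hh1, mul_one]
    rw [← hf1, l1]
    exact Finset.sum_congr rfl fun q _ => (h2 q (f q)).trans (abs_of_nonneg (hf0 q)).symm
  · intro s hs
    let w : G ⧸ N → G →₀ ℝ := fun q => v ((s : G ⧸ N) * q)
    have e1 : (Finsupp.linearCombination ℝ v f).mapDomain (s * ·) =
        Finsupp.linearCombination ℝ (fun q => (v q).mapDomain (s * ·)) f := by
      rw [Finsupp.linearCombination_apply, Finsupp.linearCombination_apply]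
      have := map_finsuppSum (Finsupp.lmapDomain ℝ ℝ (s * · : G → G)) f fun q c => c • v q
      simpa [Finsupp.lmapDomain_apply, Finsupp.mapDomain_smul] using this
    have e2 : Finsupp.linearCombination ℝ v (f.mapDomain ((s : G ⧸ N) * ·)) =
        Finsupp.linearCombination ℝ w f := by
      rw [Finsupp.linearCombination_mapDomain]
      rfl
    have e3 : (Finsupp.linearCombination ℝ v f).mapDomain (s * ·) -
        Finsupp.linearCombination ℝ v f =
        Finsupp.linearCombination ℝ (fun q => (v q).mapDomain (s * ·) - w q) f +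
        Finsupp.linearCombination ℝ v (f.mapDomain ((s : G ⧸ N) * ·) - f) := by
      rw [map_sub, e1, e2]
      have : Finsupp.linearCombination ℝ (fun q => (v q).mapDomain (s * ·) - w q) f =
          Finsupp.linearCombination ℝ (fun q => (v q).mapDomain (s * ·)) f -
            Finsupp.linearCombination ℝ w f := by
        simp only [Finsupp.linearCombination_apply, smul_sub, Finsupp.sum_sub]
      rw [this]
      abel
    rw [e3]
    refine (l1_add_le' _ _).trans ?_
    have b1 : l1 (Finsupp.linearCombination ℝ (fun q => (v q).mapDomain (s * ·) - w q) f) ≤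
        l1 f * (ε / 2) := by
      refine l1_lc_le _ _ _ fun q hq => ?_
      have e4 : (v q).mapDomain (s * ·) - w q =
          (h.mapDomain (ν s q * ·) - h).mapDomain
            fun n : N => σ ((s : G ⧸ N) * q) * (n : G) := by
        have e5 := map_sub (Finsupp.lmapDomain ℝ ℝ
          (fun n : N => σ ((s : G ⧸ N) * q) * (n : G))) (h.mapDomain (ν s q * ·)) h
        simp only [Finsupp.lmapDomain_apply] at e5
        rw [e5]
        congr 1
        simp only [v]
        rw [← Finsupp.mapDomain_comp, ← Finsupp.mapDomain_comp]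
        congr 1
        funext n
        simp only [Function.comp, Subgroup.coe_mul]
        rw [← mul_assoc, ← mul_assoc, hν']
      rw [e4]
      exact (l1_mapDomain_le' _ _).trans (hhS _ (Finset.mem_image.2
        ⟨(s, q), Finset.mem_product.2 ⟨hs, hq⟩, rfl⟩))
    have b2 : l1 (Finsupp.linearCombination ℝ v (f.mapDomain ((s : G ⧸ N) * ·) - f)) ≤
        l1 (f.mapDomain ((s : G ⧸ N) * ·) - f) * 1 := l1_lc_le _ _ _ fun q _ => hv1 q
    have b3 := hfS (s : G ⧸ N) (Finset.mem_image_of_mem _ hs)
    rw [hf1] at b1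
    linarith

end Pool.Agent.LibCSA98
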