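import Pool.Agent.LibCSA98.Coeff
set_option autoImplicit false
namespace Pool.Agent.LibCSA98
open scoped Matrix

/-- if `U ≠ 1` is unitary then some unit vector `v` has `star v ⬝ᵥ U v ≠ 1` (otherwise `‖U v - v‖ ^ 2 = 2 - 2 Re (star v ⬝ᵥ U v) = 0` for all unit vectors) -/
theorem exists_unit_ne {n : Type} [Fintype n] [DecidableEq n] (U : unitary (Matrix n n ℂ))
    (hU : U ≠ 1) : ∃ v : n → ℂ, star v ⬝ᵥ v = 1 ∧ star v ⬝ᵥ (U : Matrix n n ℂ).mulVec v ≠ 1 := by
  by_contra hcon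
  push Not at hcon
  apply hU
  have hstar : ∀ i : n, star (Pi.single i (1 : ℂ) : n → ℂ) = Pi.single i (1 : ℂ) := by
    intro i
    funext j
    by_cases hj : j = i
    · subst hj
      simp
    · simp [Pi.single_apply, hj]
  have hdiag : ∀ i, (U : Matrix n n ℂ) i i = 1 := by
    intro i
    have h1 := hcon (Pi.single i 1) (by rw [hstar]; simp)
    rw [hstar] at h1
    simpa using h1
  have hcol : ∀ i, ∑ j, Complex.normSq ((U : Matrix n n ℂ) j i) = 1 := by
    intro i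
    have h1 : star (U : Matrix n n ℂ) * (U : Matrix n n ℂ) = 1 := Unitary.star_mul_self_of_mem U.2
    have h2 := congrFun (congrFun h1 i) i
    rw [Matrix.mul_apply, Matrix.one_apply_eq] at h2
    have h3 : ((∑ j, Complex.normSq ((U : Matrix n n ℂ) j i) : ℝ) : ℂ) = 1 := by
      rw [← h2, Complex.ofReal_sum]
      refine Finset.sum_congr rfl fun j _ => ?_
      rw [Matrix.star_apply, Complex.normSq_eq_conj_mul_self]
      rfl
    exact_mod_cast h3
  apply Subtype.ext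
  ext j i
  by_cases hji : j = i
  · subst hji
    rw [hdiag]
    simp
  · have h1 := hcol i
    rw [← Finset.add_sum_erase Finset.univ _ (Finset.mem_univ i), hdiag, Complex.normSq_one] at h1
    have h2 : ∑ j ∈ Finset.univ.erase i, Complex.normSq ((U : Matrix n n ℂ) j i) = 0 := by
      linarith
    rw [Finset.sum_eq_zero_iff_of_nonneg (fun _ _ => Complex.normSq_nonneg _)] at h2
    have h3 := h2 j (Finset.mem_erase.2 ⟨hji, Finset.mem_univ _⟩)
    rw [Complex.normSq_eq_zero.1 h3]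
    simp [Matrix.one_apply_ne hji]

private theorem sc_norm_lt {z : ℂ} (hz : ‖z‖ ≤ 1) (hz1 : z ≠ 1) : ‖(1 + z) / 2‖ < 1 := by
  have h1 : z.re < 1 := by
    refine lt_of_le_of_ne ((Complex.re_le_norm z).trans hz) fun h => hz1 ?_
    have h2 : Complex.normSq z ≤ 1 := by
      rw [Complex.normSq_eq_norm_sq]
      exact pow_le_one₀ (norm_nonneg _) hz
    rw [Complex.normSq_apply, h] at h2
    have h3 : z.im = 0 := by nlinarith
    exact Complex.ext h h3
  have h2 : Complex.normSq z ≤ 1 := by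
    rw [Complex.normSq_eq_norm_sq]
    exact pow_le_one₀ (norm_nonneg _) hz
  have h3 : Complex.normSq (1 + z) < 2 ^ 2 := by
    rw [Complex.normSq_apply] at h2 ⊢
    simp only [Complex.add_re, Complex.one_re, Complex.add_im, Complex.one_im]
    nlinarith
  rw [Complex.normSq_eq_norm_sq] at h3
  have h4 : ‖1 + z‖ < 2 := lt_of_pow_lt_pow_left₀ 2 two_pos.le h3
  rw [norm_div, Complex.norm_ofNat]
  linarith

/-- Small coefficients: for `g ≠ 1` there is a coefficient `f` with `f g ≠ 1`, `‖f g‖ ≤ 1`, so that `‖(1 + f g) / 2‖ < 1`; take a high power of the product over `g ∈ F` -/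
theorem small_coeff {G : Type} [Group G] (hM : MAP G) (F : Finset G) (h1 : (1 : G) ∉ F) (η : ℝ)
    (hη : 0 < η) : ∃ f : G → ℂ, IsCoeff f ∧ ∀ g ∈ F, ‖f g‖ ≤ η := by
  have hex : ∀ g : G, ∃ f : G → ℂ, IsCoeff f ∧ (g ∈ F → ‖f g‖ < 1) := by
    intro g
    by_cases hg : g ∈ F
    · obtain ⟨n, π, hπ⟩ := hM g (fun h => h1 (h ▸ hg))
      obtain ⟨v, hv, hv1⟩ := exists_unit_ne (π g) hπ
      have hc : IsCoeff (fun x : G => star v ⬝ᵥ (π x : Matrix (Fin n) (Fin n) ℂ).mulVec v) :=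
        ⟨Fin n, inferInstance, inferInstance, π, v, hv, fun _ => rfl⟩
      exact ⟨_, isCoeff_avg hc, fun _ => sc_norm_lt (norm_isCoeff_le hc g) hv1⟩
    · exact ⟨_, isCoeff_one, fun h => absurd h hg⟩
  choose f hf hf1 using hex
  have hk : ∀ g : G, ∃ k : ℕ, g ∈ F → ‖f g g‖ ^ k < η := by
    intro g
    by_cases hg : g ∈ F
    · obtain ⟨k, hk⟩ := exists_pow_lt_of_lt_one hη (hf1 g hg)
      exact ⟨k, fun _ => hk⟩
    · exact ⟨0, fun h => absurd h hg⟩
  choose k hk using hk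
  refine ⟨_, isCoeff_prod_pow F f (fun i _ => hf i) (F.sup k), fun g hg => ?_⟩
  classical
  show ‖∏ i ∈ F, f i g ^ (F.sup k)‖ ≤ η
  rw [← Finset.mul_prod_erase F _ hg, norm_mul]
  have h2 : ‖f g g ^ (F.sup k)‖ ≤ η := by
    rw [norm_pow]
    exact (pow_le_pow_of_le_one (norm_nonneg _) (hf1 g hg).le (Finset.le_sup hg)).trans
      (hk g hg).le
  have h3 : ‖∏ i ∈ F.erase g, f i g ^ (F.sup k)‖ ≤ 1 := by
    rw [norm_prod]
    refine Finset.prod_le_one (fun _ _ => norm_nonneg _) fun i _ => ?_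
    rw [norm_pow]
    exact pow_le_one₀ (norm_nonneg _) (norm_isCoeff_le (hf i) g)
  calc ‖f g g ^ (F.sup k)‖ * ‖∏ i ∈ F.erase g, f i g ^ (F.sup k)‖ ≤ η * 1 :=
        mul_le_mul h2 h3 (norm_nonneg _) hη.le
    _ = η := mul_one _

end Pool.Agent.LibCSA98
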