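import Pool.Agent.LibCSA98.Conv
set_option autoImplicit false
namespace Pool.Agent.LibCSA98
open scoped Matrix.Norms.L2Operator

/-- `π ⊕ π` -/
private noncomputable def tbRep {G : Type} [Group G] (n : ℕ)
    (π : G →* unitary (Matrix (Fin n) (Fin n) ℂ)) :
    G →* unitary (Matrix (Fin n ⊕ Fin n) (Fin n ⊕ Fin n) ℂ) where
  toFun g := ⟨Matrix.fromBlocks (π g : Matrix (Fin n) (Fin n) ℂ) 0 0 (π g), by
    have h1 : star (π g : Matrix (Fin n) (Fin n) ℂ) * (π g : Matrix (Fin n) (Fin n) ℂ) = 1 :=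
      Unitary.coe_star_mul_self (π g)
    have h2 : (π g : Matrix (Fin n) (Fin n) ℂ) * star (π g : Matrix (Fin n) (Fin n) ℂ) = 1 :=
      Unitary.coe_mul_star_self (π g)
    rw [Matrix.star_eq_conjTranspose] at h1 h2
    rw [Unitary.mem_iff, Matrix.star_eq_conjTranspose, Matrix.fromBlocks_conjTranspose,
      Matrix.fromBlocks_multiply, Matrix.fromBlocks_multiply]
    simp [h1, h2]⟩
  map_one' := by
    apply Subtype.ext
    show Matrix.fromBlocks ((π 1 : unitary _) : Matrix (Fin n) (Fin n) ℂ) 0 0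
      ((π 1 : unitary _) : Matrix (Fin n) (Fin n) ℂ) = 1
    rw [map_one]
    exact Matrix.fromBlocks_one
  map_mul' := by
    intro g h
    apply Subtype.ext
    show Matrix.fromBlocks ((π (g * h) : unitary _) : Matrix (Fin n) (Fin n) ℂ) 0 0
        ((π (g * h) : unitary _) : Matrix (Fin n) (Fin n) ℂ) =
      Matrix.fromBlocks (π g : Matrix (Fin n) (Fin n) ℂ) 0 0 (π g : Matrix (Fin n) (Fin n) ℂ) *
        Matrix.fromBlocks (π h : Matrix (Fin n) (Fin n) ℂ) 0 0 (π h : Matrix (Fin n) (Fin n) ℂ)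
    rw [Matrix.fromBlocks_multiply, map_mul]
    simp

private theorem tbRep_coe {G : Type} [Group G] (n : ℕ)
    (π : G →* unitary (Matrix (Fin n) (Fin n) ℂ)) (g : G) :
    (tbRep n π g : Matrix (Fin n ⊕ Fin n) (Fin n ⊕ Fin n) ℂ) =
      Matrix.fromBlocks (π g : Matrix (Fin n) (Fin n) ℂ) 0 0 (π g) := rfl

/-- a matrix with one nonzero column -/
private theorem tb_norm {m : Type} [Fintype m] [DecidableEq m] (i0 : m) (A : Matrix m m ℂ)
    (hA : ∀ i j, j ≠ i0 → A i j = 0) : ‖A‖ ^ 2 ≤ ∑ i, ‖A i i0‖ ^ 2 := by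
  have hnn : 0 ≤ ∑ i, ‖A i i0‖ ^ 2 := Finset.sum_nonneg fun i _ => by positivity
  have h1 : ‖A‖ ≤ Real.sqrt (∑ i, ‖A i i0‖ ^ 2) := by
    rw [Matrix.l2_opNorm_def]
    refine ContinuousLinearMap.opNorm_le_bound _ (Real.sqrt_nonneg _) (fun x => ?_)
    have h2 : ‖(LinearMap.toContinuousLinearMap (Matrix.toEuclideanLin A)) x‖ ^ 2 ≤
        (Real.sqrt (∑ i, ‖A i i0‖ ^ 2) * ‖x‖) ^ 2 := by
      rw [EuclideanSpace.norm_sq_eq, mul_pow, Real.sq_sqrt hnn, Finset.sum_mul]
      refine Finset.sum_le_sum fun i _ => ?_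
      have h3 : ((LinearMap.toContinuousLinearMap (Matrix.toEuclideanLin A)) x) i =
          A i i0 * x i0 := by
        show (A.mulVec (WithLp.ofLp x)) i = _
        rw [Matrix.mulVec, dotProduct, Finset.sum_eq_single i0]
        · intro j _ hj
          rw [hA i j hj, zero_mul]
        · intro h
          exact absurd (Finset.mem_univ _) h
      rw [h3, norm_mul, mul_pow]
      refine mul_le_mul_of_nonneg_left ?_ (by positivity)
      rw [EuclideanSpace.norm_sq_eq]
      exact Finset.single_le_sum (f := fun i => ‖x i‖ ^ 2) (fun i _ => by positivity)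
        (Finset.mem_univ i0)
    exact le_of_sq_le_sq h2 (by positivity)
  calc ‖A‖ ^ 2 ≤ (Real.sqrt (∑ i, ‖A i i0‖ ^ 2)) ^ 2 := by
        exact pow_le_pow_left₀ (norm_nonneg _) h1 2
    _ = _ := Real.sq_sqrt hnn

/-- Doubling and change of basis: `V = EuclideanSpace ℂ (Fin n ⊕ Fin n)` with the representation `π ⊕ π` (`Matrix.fromBlocks (π g) 0 0 (π g)`), an orthonormal basis of `V`
indexed by `Unit ⊕ Fin (k + 1)` (`2 * n = k + 2`, `n > 0` by `hw`) whose first vector is `(w, 0)` (`Orthonormal.exists_orthonormalBasis_extension_of_card_eq`) and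
`matrix_of_rep`.  `‖A * P‖`, for `P = fromBlocks 1 0 0 0`, is at most the norm of the first column of `A`. -/
theorem to_block {G : Type} [Group G] (K : Subgroup G) (n : ℕ)
    (π : G →* unitary (Matrix (Fin n) (Fin n) ℂ)) (hK : NoFix K π) (w : Fin n → ℂ)
    (hw : ∑ i, ‖w i‖ ^ 2 = 1) :
    ∃ (k : ℕ) (β : G →* unitary (Matrix (Unit ⊕ Fin (k + 1)) (Unit ⊕ Fin (k + 1)) ℂ)),
      NoFix K β ∧ ∀ g, ‖(β g : Matrix (Unit ⊕ Fin (k + 1)) (Unit ⊕ Fin (k + 1)) ℂ) *
          Matrix.fromBlocks 1 0 0 0 - Matrix.fromBlocks 1 0 0 0‖ ^ 2 ≤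
        ∑ i, ‖((π g : Matrix (Fin n) (Fin n) ℂ).mulVec w - w) i‖ ^ 2 := by
  have hn : 0 < n := by
    rcases Nat.eq_zero_or_pos n with h | h
    · subst h
      simp at hw
    · exact h
  obtain ⟨ρ, hρ, hρm⟩ := rep_of_matrix (tbRep n π)
  obtain ⟨k, hk⟩ : ∃ k, n + n = k + 2 := ⟨n + n - 2, by omega⟩
  let v0 : EuclideanSpace ℂ (Fin n ⊕ Fin n) := WithLp.toLp 2 (Sum.elim w 0)
  have hv0 : ‖v0‖ = 1 := by
    have h1 : ‖v0‖ ^ 2 = 1 := by
      rw [EuclideanSpace.norm_sq_eq, Fintype.sum_sum_type]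
      show ∑ i, ‖w i‖ ^ 2 + ∑ i : Fin n, ‖(0 : ℂ)‖ ^ 2 = 1
      rw [hw]
      simp
    exact (pow_eq_one_iff_of_nonneg (norm_nonneg _) two_ne_zero).1 h1
  have hcard : Module.finrank ℂ (EuclideanSpace ℂ (Fin n ⊕ Fin n)) =
      Fintype.card (Unit ⊕ Fin (k + 1)) := by
    rw [finrank_euclideanSpace, Fintype.card_sum, Fintype.card_sum, Fintype.card_fin,
      Fintype.card_fin, Fintype.card_unit]
    omega
  have horth : Orthonormal ℂ (({Sum.inl ()} : Set (Unit ⊕ Fin (k + 1))).restrict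
      (fun _ => v0)) := by
    constructor
    · intro i
      exact hv0
    · intro i j hij
      exact absurd (Subsingleton.elim i j) hij
  obtain ⟨b, hb⟩ := Orthonormal.exists_orthonormalBasis_extension_of_card_eq hcard horth
  have hb0 : b (Sum.inl ()) = v0 := hb _ (Set.mem_singleton _)
  obtain ⟨β, hβ⟩ := matrix_of_rep ρ hρ b
  refine ⟨k, β, ?_, ?_⟩
  · intro x hx
    set y := b.repr.symm (WithLp.toLp 2 x) with hy
    have h1 : ∀ g ∈ K, ρ g y = y := by
      intro g hg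
      apply b.repr.injective
      apply WithLp.ofLp_injective 2
      rw [← hβ, hy, LinearIsometryEquiv.apply_symm_apply]
      exact hx g hg
    have h2 : ∀ g ∈ K, (π g : Matrix (Fin n) (Fin n) ℂ).mulVec
        (WithLp.ofLp y ∘ Sum.inl) = WithLp.ofLp y ∘ Sum.inl := by
      intro g hg
      have h3 := congrArg WithLp.ofLp (h1 g hg)
      rw [hρm, tbRep_coe, Matrix.fromBlocks_mulVec] at h3
      funext i
      have h4 := congrFun h3 (Sum.inl i)
      simpa using h4
    have h2' : ∀ g ∈ K, (π g : Matrix (Fin n) (Fin n) ℂ).mulVec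
        (WithLp.ofLp y ∘ Sum.inr) = WithLp.ofLp y ∘ Sum.inr := by
      intro g hg
      have h3 := congrArg WithLp.ofLp (h1 g hg)
      rw [hρm, tbRep_coe, Matrix.fromBlocks_mulVec] at h3
      funext i
      have h4 := congrFun h3 (Sum.inr i)
      simpa using h4
    have h5 := hK _ h2
    have h6 := hK _ h2'
    have h7 : y = 0 := by
      apply WithLp.ofLp_injective 2
      funext i
      rcases i with i | i
      · exact congrFun h5 i
      · exact congrFun h6 i
    have h8 : WithLp.toLp 2 x = 0 := by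
      rw [← b.repr.apply_symm_apply (WithLp.toLp 2 x), ← hy, h7, map_zero]
    exact congrArg WithLp.ofLp h8
  · intro g
    set A := (β g : Matrix (Unit ⊕ Fin (k + 1)) (Unit ⊕ Fin (k + 1)) ℂ) *
          Matrix.fromBlocks 1 0 0 0 - Matrix.fromBlocks 1 0 0 0 with hAdef
    have hcol : ∀ j, j ≠ Sum.inl () → ∀ i, A i j = 0 := by
      intro j hj i
      rcases j with j | j
      · exact absurd rfl hj
      · rw [hAdef, Matrix.sub_apply, Matrix.mul_apply]
        have h1 : ∀ l : Unit ⊕ Fin (k + 1), (Matrix.fromBlocks (1 : Matrix Unit Unit ℂ) 0 0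
            (0 : Matrix (Fin (k + 1)) (Fin (k + 1)) ℂ)) l (Sum.inr j) = 0 := by
          rintro (l | l) <;> rfl
        simp only [h1, mul_zero, Finset.sum_const_zero, sub_zero]
    have h1 := tb_norm (Sum.inl ()) A (fun i j hj => hcol j hj i)
    refine le_trans h1 ?_
    have h2 : ∀ i, A i (Sum.inl ()) = WithLp.ofLp (b.repr (ρ g v0 - v0)) i := by
      intro i
      rw [map_sub, WithLp.ofLp_sub, Pi.sub_apply, ← hβ, ← hb0, OrthonormalBasis.repr_self, hAdef,
        Matrix.sub_apply, Matrix.mul_apply, Matrix.mulVec, dotProduct]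
      have h3 : ∀ l : Unit ⊕ Fin (k + 1), (Matrix.fromBlocks (1 : Matrix Unit Unit ℂ) 0 0
            (0 : Matrix (Fin (k + 1)) (Fin (k + 1)) ℂ)) l (Sum.inl ()) =
            WithLp.ofLp (EuclideanSpace.single (Sum.inl () : Unit ⊕ Fin (k + 1)) (1 : ℂ)) l := by
        rintro (l | l)
        · simp
        · simp
      simp only [h3]
    simp only [h2]
    rw [← EuclideanSpace.norm_sq_eq, LinearIsometryEquiv.norm_map, EuclideanSpace.norm_sq_eq,
      Fintype.sum_sum_type]
    have h4 : ∀ i, (WithLp.ofLp (ρ g v0 - v0)) (Sum.inl i) =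
        ((π g : Matrix (Fin n) (Fin n) ℂ).mulVec w - w) i := by
      intro i
      rw [WithLp.ofLp_sub, Pi.sub_apply, hρm, tbRep_coe, Matrix.fromBlocks_mulVec]
      simp [v0]
    have h5 : ∀ i, (WithLp.ofLp (ρ g v0 - v0)) (Sum.inr i) = 0 := by
      intro i
      rw [WithLp.ofLp_sub, Pi.sub_apply, hρm, tbRep_coe, Matrix.fromBlocks_mulVec]
      simp [v0]
    simp only [h4, h5]
    simp

end Pool.Agent.LibCSA98
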